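import Mathlib
import Pool.Agent.Y570.KP.Ansatz

/-!
Weak duality for the `k`-point bounds.
-/

set_option autoImplicit false

namespace Pool.Agent.Y509.KP

open Pool.Agent.Y570.KP

/-- the contribution of the set `S` -/
def contr {V : Type*} [DecidableEq V] (k : ℕ) (T : Finset V → V → V → ℝ) (S : Finset V) : ℝ :=
  ∑ Q ∈ S.powerset, ∑ x ∈ S, ∑ z ∈ S, if Q.card + 2 ≤ k ∧ Q ∪ {x, z} = S then T Q x z else 0

lemma contr_map {V W : Type*} [DecidableEq V] [DecidableEq W] (e : V ↪ W) (k : ℕ)
    (T : Finset W → W → W → ℝ) (S : Finset V) :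
    contr k (fun Q x z => T (Q.map e) (e x) (e z)) S = contr k T (S.map e) := by
  unfold contr
  refine Finset.sum_bij (fun Q _ => Q.map e) ?_ ?_ ?_ ?_
  · intro Q hQ
    rw [Finset.mem_powerset] at hQ ⊢
    exact Finset.map_subset_map.2 hQ
  · intro Q _ Q' _ h
    exact Finset.map_injective e h
  · intro Q hQ
    rw [Finset.mem_powerset, Finset.subset_map_iff] at hQ
    obtain ⟨Q', hQ', rfl⟩ := hQ
    exact ⟨Q', Finset.mem_powerset.2 hQ', rfl⟩
  · intro Q _
    rw [Finset.sum_map]
    refine Finset.sum_congr rfl fun x _ => ?_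
    rw [Finset.sum_map]
    refine Finset.sum_congr rfl fun z _ => ?_
    have h1 : Q.map e ∪ {e x, e z} = (Q ∪ {x, z}).map e := by
      rw [Finset.map_union, Finset.map_insert, Finset.map_singleton]
    have h2 : ((Q.map e).card + 2 ≤ k ∧ Q.map e ∪ {e x, e z} = S.map e) ↔
        (Q.card + 2 ≤ k ∧ Q ∪ {x, z} = S) := by
      rw [Finset.card_map, h1, (Finset.map_injective e).eq_iff]
    by_cases h : Q.card + 2 ≤ k ∧ Q ∪ {x, z} = S
    · rw [if_pos h, if_pos (h2.2 h)]
    · rw [if_neg h, if_neg fun h' => h (h2.1 h')]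

variable {V : Type} [Fintype V] [DecidableEq V]

lemma hadamard_sum {M N : V → V → ℝ} (hM1 : ∀ x z, M x z = M z x)
    (hM2 : ∀ a : V → ℝ, 0 ≤ ∑ x, ∑ z, a x * a z * M x z) (hN1 : ∀ x z, N x z = N z x)
    (hN2 : ∀ a : V → ℝ, 0 ≤ ∑ x, ∑ z, a x * a z * N x z) : 0 ≤ ∑ x, ∑ z, M x z * N x z := by
  have h : ∀ {A : V → V → ℝ}, (∀ x z, A x z = A z x) →
      (∀ a : V → ℝ, 0 ≤ ∑ x, ∑ z, a x * a z * A x z) → (Matrix.of A).PosSemidef := by
    intro A h1 h2
    refine Matrix.PosSemidef.of_dotProduct_mulVec_nonneg ?_ fun a => ?_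
    · ext x z
      simp [h1 z x]
    · refine (h2 a).trans (le_of_eq ?_)
      simp only [dotProduct, Matrix.mulVec, Matrix.of_apply, star_trivial, Finset.mul_sum]
      refine Finset.sum_congr rfl fun x _ => Finset.sum_congr rfl fun z _ => ?_
      ring
  have h3 := ((h hM1 hM2).hadamard (h hN1 hN2)).dotProduct_mulVec_nonneg (fun _ => 1)
  refine h3.trans (le_of_eq ?_)
  simp [dotProduct, Matrix.mulVec]

lemma cond_empty (y : Finset V → ℝ) (D S : Finset V) : cond y D ∅ S = y (D ∪ S) := by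
  unfold Pool.Agent.Y570.KP.cond
  simp

/-- the moment matrices -/
lemma psd_some {k : ℕ} {y : Finset V → ℝ}
    (psd : ∀ D F : Finset V, D.card + F.card + 2 ≤ k → ∀ a : Option V → ℝ,
      0 ≤ ∑ s, ∑ t, a s * a t * cond y D F (s.toFinset ∪ t.toFinset))
    {Q : Finset V} (hQ : Q.card + 2 ≤ k) (a : V → ℝ) :
    0 ≤ ∑ x, ∑ z, a x * a z * y (Q ∪ {x, z}) := by
  have h := psd Q ∅ (by simpa using hQ) (fun s => s.elim 0 a)
  simp only [Fintype.sum_option, Option.elim_none, Option.elim_some, zero_mul, mul_zero,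
    Finset.sum_const_zero, zero_add, cond_empty, Option.toFinset_some] at h
  exact h

lemma psd_none {k : ℕ} (hk : 2 ≤ k) {y : Finset V → ℝ} (one : y ∅ = 1)
    (psd : ∀ D F : Finset V, D.card + F.card + 2 ≤ k → ∀ a : Option V → ℝ,
      0 ≤ ∑ s, ∑ t, a s * a t * cond y D F (s.toFinset ∪ t.toFinset)) (a : V → ℝ) :
    0 ≤ ∑ x, ∑ z, a x * a z * (y {x, z} - y {x} * y {z}) := by
  obtain ⟨m, hm⟩ : ∃ m : ℝ, m = ∑ x, a x * y {x} := ⟨_, rfl⟩
  have h := psd ∅ ∅ (by simpa using hk) (fun s => s.elim (-m) a)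
  simp only [Fintype.sum_option, Option.elim_none, Option.elim_some, cond_empty,
    Option.toFinset_some, Option.toFinset_none, Finset.empty_union, Finset.union_empty, one] at h
  have h1 : ∑ x, -m * a x * y {x} = -(m * m) := by
    rw [Finset.sum_congr rfl (g := fun x => -m * (a x * y {x})) fun x _ => by ring,
      ← Finset.mul_sum, ← hm]
    ring
  have h2 : ∑ x, (a x * -m * y {x} + ∑ z, a x * a z * y ({x} ∪ {z})) =
      -(m * m) + ∑ x, ∑ z, a x * a z * y {x, z} := by
    rw [Finset.sum_add_distrib]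
    congr 1
    rw [Finset.sum_congr rfl (g := fun x => -m * (a x * y {x})) fun x _ => by ring,
      ← Finset.mul_sum, ← hm]
    ring
  have h3 : ∑ x, ∑ z, a x * a z * (y {x, z} - y {x} * y {z}) =
      ∑ x, ∑ z, a x * a z * y {x, z} - m * m := by
    simp_rw [mul_sub, Finset.sum_sub_distrib]
    congr 1
    rw [hm, Finset.sum_mul_sum]
    refine Finset.sum_congr rfl fun x _ => Finset.sum_congr rfl fun z _ => ?_
    ring
  rw [h1, h2] at h
  rw [h3]
  linarith

/-- **Weak duality.** -/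
theorem weak {k : ℕ} (hk : 2 ≤ k) {y : Finset V → ℝ} (one : y ∅ = 1)
    (nonneg : ∀ D F : Finset V, D.card + F.card ≤ k → 0 ≤ cond y D F ∅)
    (psd : ∀ D F : Finset V, D.card + F.card + 2 ≤ k → ∀ a : Option V → ℝ,
      0 ≤ ∑ s, ∑ t, a s * a t * cond y D F (s.toFinset ∪ t.toFinset))
    {T : Finset V → V → V → ℝ} {lam : ℝ} (hs : ∀ Q x z, T Q x z = T Q z x)
    (hT : ∀ Q, ∀ a : V → ℝ, 0 ≤ ∑ x, ∑ z, a x * a z * T Q x z)
    (h1 : ∀ x, contr k T {x} ≤ lam)
    (h2 : ∀ S : Finset V, 2 ≤ S.card → S.card ≤ k → y S ≠ 0 → contr k T S ≤ 0) :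
    ∑ x, ∑ z, y {x} * y {z} * T ∅ x z ≤ lam * ∑ x, y {x} := by
  have hy : ∀ S : Finset V, S.card ≤ k → 0 ≤ y S := by
    intro S hS
    have := nonneg S ∅ (by simpa using hS)
    rwa [cond_empty, Finset.union_empty] at this
  -- the total contribution
  have e1 : ∀ S : Finset V, y S * contr k T S = ∑ Q, ∑ x, ∑ z,
      if Q.card + 2 ≤ k ∧ Q ∪ {x, z} = S then T Q x z * y (Q ∪ {x, z}) else 0 := by
    intro S
    have e2 : contr k T S = ∑ Q, ∑ x, ∑ z,
        if Q.card + 2 ≤ k ∧ Q ∪ {x, z} = S then T Q x z else 0 := by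
      unfold contr
      rw [Finset.sum_subset (Finset.subset_univ _)]
      · refine Finset.sum_congr rfl fun Q _ => ?_
        rw [Finset.sum_subset (Finset.subset_univ _)]
        · refine Finset.sum_congr rfl fun x _ => ?_
          rw [Finset.sum_subset (Finset.subset_univ _)]
          intro z _ hz
          rw [if_neg]
          rintro ⟨-, h⟩
          exact hz (h ▸ by simp)
        · intro x _ hx
          refine Finset.sum_eq_zero fun z _ => ?_
          rw [if_neg]
          rintro ⟨-, h⟩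
          exact hx (h ▸ by simp)
      · intro Q _ hQ
        refine Finset.sum_eq_zero fun x _ => Finset.sum_eq_zero fun z _ => ?_
        rw [if_neg]
        rintro ⟨-, h⟩
        exact hQ (Finset.mem_powerset.2 (h ▸ Finset.subset_union_left))
    rw [e2, Finset.mul_sum]
    refine Finset.sum_congr rfl fun Q _ => ?_
    rw [Finset.mul_sum]
    refine Finset.sum_congr rfl fun x _ => ?_
    rw [Finset.mul_sum]
    refine Finset.sum_congr rfl fun z _ => ?_
    split_ifs with h
    · rw [h.2, mul_comm]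
    · rw [mul_zero]
  have e3 : ∑ S, y S * contr k T S = ∑ Q : Finset V, if Q.card + 2 ≤ k then
      ∑ x, ∑ z, T Q x z * y (Q ∪ {x, z}) else 0 := by
    simp_rw [e1]
    rw [Finset.sum_comm]
    refine Finset.sum_congr rfl fun Q _ => ?_
    rw [Finset.sum_comm]
    by_cases hQ : Q.card + 2 ≤ k
    · rw [if_pos hQ]
      refine Finset.sum_congr rfl fun x _ => ?_
      rw [Finset.sum_comm]
      refine Finset.sum_congr rfl fun z _ => ?_
      simp only [hQ, true_and]
      rw [Finset.sum_ite_eq]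
      simp
    · rw [if_neg hQ]
      refine Finset.sum_eq_zero fun x _ => Finset.sum_eq_zero fun S _ =>
        Finset.sum_eq_zero fun z _ => ?_
      rw [if_neg fun h => hQ h.1]
  -- upper bound
  have e4 : ∑ S, y S * contr k T S ≤ lam * ∑ x, y {x} := by
    have e5 : ∀ S : Finset V, y S * contr k T S ≤ if S.card = 1 then lam * y S else 0 := by
      intro S
      rcases Nat.lt_or_ge S.card 2 with h | h
      · interval_cases hc : S.card
        · rw [Finset.card_eq_zero] at hc
          subst hc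
          simp [contr]
        · obtain ⟨x, rfl⟩ := Finset.card_eq_one.1 hc
          rw [if_pos rfl, mul_comm]
          exact mul_le_mul_of_nonneg_right (h1 x) (hy _ (by simp; omega))
      · rw [if_neg (by omega)]
        rcases Nat.lt_or_ge k S.card with h' | h'
        · have : contr k T S = 0 := by
            unfold contr
            refine Finset.sum_eq_zero fun Q _ => Finset.sum_eq_zero fun x _ =>
              Finset.sum_eq_zero fun z _ => ?_
            rw [if_neg]
            rintro ⟨h3, h4⟩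
            have h5 : (Q ∪ {x, z}).card ≤ Q.card + 2 :=
              (Finset.card_union_le _ _).trans (Nat.add_le_add_left Finset.card_le_two _)
            rw [h4] at h5
            omega
          rw [this, mul_zero]
        · by_cases hyS : y S = 0
          · rw [hyS, zero_mul]
          · exact mul_nonpos_of_nonneg_of_nonpos (hy S h') (h2 S h h' hyS)
    refine (Finset.sum_le_sum fun S _ => e5 S).trans (le_of_eq ?_)
    rw [← Finset.sum_filter, Finset.mul_sum]
    symm
    refine Finset.sum_bij (fun x _ => {x}) ?_ ?_ ?_ ?_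
    · intro x _
      simp
    · intro x _ z _ h
      exact Finset.singleton_injective h
    · intro S hS
      obtain ⟨x, rfl⟩ := Finset.card_eq_one.1 (Finset.mem_filter.1 hS).2
      exact ⟨x, Finset.mem_univ _, rfl⟩
    · intro x _
      rfl
  -- lower bound
  have hsy : ∀ (Q : Finset V) (x z : V), y (Q ∪ {x, z}) = y (Q ∪ {z, x}) := by
    intro Q x z
    rw [Finset.pair_comm]
  have e6 : ∑ x, ∑ z, T ∅ x z * y (∅ ∪ {x, z}) ≤ ∑ S, y S * contr k T S := by
    rw [e3]
    have e7 : (∑ x, ∑ z, T ∅ x z * y (∅ ∪ {x, z})) = (if (∅ : Finset V).card + 2 ≤ k then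
      ∑ x, ∑ z, T ∅ x z * y (∅ ∪ {x, z}) else 0) := by
      rw [if_pos (by simpa using hk)]
    rw [e7]
    refine Finset.single_le_sum (f := fun Q : Finset V => if Q.card + 2 ≤ k then
      ∑ x, ∑ z, T Q x z * y (Q ∪ {x, z}) else 0) (fun Q _ => ?_) (Finset.mem_univ _)
    split_ifs with h
    · exact hadamard_sum (hs Q) (hT Q) (hsy Q) (psd_some psd h)
    · exact le_rfl
  have e8 : 0 ≤ ∑ x, ∑ z, T ∅ x z * (y {x, z} - y {x} * y {z}) := by
    refine hadamard_sum (hs ∅) (hT ∅) (fun x z => ?_) (psd_none hk one psd)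
    rw [Finset.pair_comm, mul_comm (y {x})]
  have e9 : ∑ x, ∑ z, T ∅ x z * (y {x, z} - y {x} * y {z}) =
      ∑ x, ∑ z, T ∅ x z * y (∅ ∪ {x, z}) - ∑ x, ∑ z, y {x} * y {z} * T ∅ x z := by
    rw [← Finset.sum_sub_distrib]
    refine Finset.sum_congr rfl fun x _ => ?_
    rw [← Finset.sum_sub_distrib]
    refine Finset.sum_congr rfl fun z _ => ?_
    rw [Finset.empty_union]
    ring
  linarith

end Pool.Agent.Y509.KP
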