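import Mathlib

/-!
Smooth autocorrelations with small support and nonnegative Fourier transform.
-/

set_option autoImplicit false

open MeasureTheory Filter Topology

open scoped FourierTransform ContDiff Convolution

namespace Pool.Agent.Y509.KP

abbrev E (d : ℕ) := EuclideanSpace ℝ (Fin d)

variable {d : ℕ}

/-- a smooth function between the indicator functions of a compact set and of a neighbourhood -/
theorem exists_bump {K : Set (E d)} (hK : IsCompact K) {δ : ℝ} (hδ : 0 < δ) :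
    ∃ ψ : E d → ℝ, ContDiff ℝ ∞ ψ ∧ HasCompactSupport ψ ∧ (∀ x, 0 ≤ ψ x) ∧ (∀ x, ψ x ≤ 1) ∧
      (∀ x ∈ K, ψ x = 1) ∧ (∀ x, ψ x ≠ 0 → x ∈ Metric.thickening δ K) := by
  obtain ⟨f, hf0, hf1, hf⟩ := exists_contMDiffMap_zero_one_of_isClosed (n := ⊤)
    (modelWithCornersSelf ℝ (E d)) (s := (Metric.thickening δ K)ᶜ) (t := K)
    Metric.isOpen_thickening.isClosed_compl hK.isClosed
    (Set.disjoint_compl_left_iff_subset.2 (Metric.self_subset_thickening hδ K))
  refine ⟨f, ?_, ?_, fun x => (hf x).1, fun x => (hf x).2, fun x hx => hf1 hx, fun x hx => ?_⟩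
  · exact f.contMDiff.contDiff
  · refine HasCompactSupport.of_support_subset_isCompact
      (hK.cthickening (r := δ)) fun x hx => ?_
    by_contra h
    exact hx (hf0 fun h' => h (Metric.thickening_subset_cthickening δ K h'))
  · by_contra h
    exact hx (hf0 h)

theorem exists_auto {K : Set (E d)} (hK : IsCompact K) {κ δ : ℝ} (hκ : 0 < κ)
    (hvol : κ ≤ volume.real K) (hδ : 0 < δ) :
    ∃ A : E d → ℝ, Continuous A ∧ HasCompactSupport A ∧ (∀ u, 0 ≤ A u) ∧ ∫ u, A u = 1 ∧
      A 0 ≤ 1 / κ ∧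
      (∀ u, A u ≠ 0 → ∃ a ∈ Metric.thickening δ K, ∃ b ∈ Metric.thickening δ K, u = a - b) ∧
      (∀ ξ, (𝓕 (fun x => (A x : ℂ)) ξ).im = 0) ∧ (∀ ξ, 0 ≤ (𝓕 (fun x => (A x : ℂ)) ξ).re) ∧
      Integrable (𝓕 (fun x => (A x : ℂ))) := by
  obtain ⟨ψ₀, h1, h2, h3, h4, h5, h6⟩ := exists_bump hK hδ
  have hi₀ : Integrable ψ₀ := h1.continuous.integrable_of_hasCompactSupport h2
  obtain ⟨m, hm⟩ : ∃ m : ℝ, m = ∫ x, ψ₀ x := ⟨_, rfl⟩
  have hmκ : κ ≤ m := by
    refine hvol.trans ?_
    have h7 : volume.real K = ∫ x, K.indicator (fun _ => (1 : ℝ)) x := by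
      rw [integral_indicator hK.measurableSet, setIntegral_const]
      simp
    rw [h7, hm]
    refine integral_mono ?_ hi₀ fun x => ?_
    · rw [integrable_indicator_iff hK.measurableSet]
      exact integrableOn_const hK.measure_lt_top.ne
    · by_cases hx : x ∈ K
      · simp [hx, h5 x hx]
      · simp [hx, h3 x]
  have hm0 : 0 < m := hκ.trans_le hmκ
  obtain ⟨ψ, hψ⟩ : ∃ ψ : E d → ℝ, ψ = fun x => ψ₀ x / m := ⟨_, rfl⟩
  have hψs : ContDiff ℝ ∞ ψ := by rw [hψ]; exact h1.div_const m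
  have hψc : HasCompactSupport ψ := by
    rw [hψ]
    refine h2.mono fun x hx => ?_
    intro h7
    apply hx
    simp [h7]
  have hψ0 : ∀ x, 0 ≤ ψ x := fun x => by rw [hψ]; exact div_nonneg (h3 x) hm0.le
  have hψi : Integrable ψ := hψs.continuous.integrable_of_hasCompactSupport hψc
  have hψ1 : ∫ x, ψ x = 1 := by
    rw [hψ, integral_div, ← hm, div_self hm0.ne']
  have hψle : ∀ x, ψ x ≤ 1 / m := fun x => by
    rw [hψ]
    exact div_le_div_of_nonneg_right (h4 x) hm0.le
  have hψm : ∀ x, ψ x ≠ 0 → x ∈ Metric.thickening δ K := fun x hx => h6 x (by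
    rw [hψ] at hx
    intro h7
    exact hx (by simp [h7]))
  -- complex versions
  obtain ⟨g, hg⟩ : ∃ g : E d → ℂ, g = fun x => ((ψ x : ℝ) : ℂ) := ⟨_, rfl⟩
  obtain ⟨g', hg'⟩ : ∃ g' : E d → ℂ, g' = fun x => ((ψ (-x) : ℝ) : ℂ) := ⟨_, rfl⟩
  have hgs : ContDiff ℝ ∞ g := by
    rw [hg]
    exact Complex.ofRealCLM.contDiff.comp hψs
  have hgc : HasCompactSupport g := by
    rw [hg]
    exact hψc.comp_left Complex.ofReal_zero
  have hgi : Integrable g := by rw [hg]; exact hψi.ofReal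
  have hgi' : Integrable g' := by
    rw [hg']
    exact (hψi.comp_neg).ofReal
  obtain ⟨A, hA⟩ : ∃ A : E d → ℝ, A = fun u => ∫ t, ψ t * ψ (t - u) := ⟨_, rfl⟩
  have hAc : (fun u => ((A u : ℝ) : ℂ)) = g ⋆[ContinuousLinearMap.mul ℂ ℂ] g' := by
    funext u
    rw [hA]
    simp only [convolution, ContinuousLinearMap.mul_apply']
    rw [← integral_complex_ofReal]
    congr 1
    funext t
    rw [hg, hg']
    simp only
    rw [neg_sub]
    push_cast
    rfl
  have hF' : ∀ ξ, 𝓕 g' ξ = (starRingEnd ℂ) (𝓕 g ξ) := by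
    intro ξ
    rw [Real.fourier_eq', Real.fourier_eq', ← integral_conj, ← integral_neg_eq_self]
    congr 1
    funext x
    rw [hg, hg']
    simp only [neg_neg, smul_eq_mul, map_mul, Complex.conj_ofReal, ← Complex.exp_conj,
      Complex.conj_I, inner_neg_left]
    congr 2
    push_cast
    ring
  have hFA : ∀ ξ, 𝓕 (fun x => (A x : ℂ)) ξ = ((‖𝓕 g ξ‖ ^ 2 : ℝ) : ℂ) := by
    intro ξ
    rw [hAc, Real.fourier_mul_convolution_eq hgi hgi', hF', Complex.mul_conj]
    rw [Complex.normSq_eq_norm_sq]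
  -- continuity
  have hAcont : Continuous A := by
    have h7 : Continuous (ψ ⋆[ContinuousLinearMap.mul ℝ ℝ] (fun x => ψ (-x))) := by
      apply HasCompactSupport.continuous_convolution_right
      · exact hψc.comp_homeomorph (Homeomorph.neg (E d))
      · exact hψi.locallyIntegrable
      · exact hψs.continuous.comp continuous_neg
    have h8 : A = ψ ⋆[ContinuousLinearMap.mul ℝ ℝ] (fun x => ψ (-x)) := by
      funext u
      rw [hA]
      simp only [convolution, ContinuousLinearMap.mul_apply', neg_sub]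
    rw [h8]
    exact h7
  have hAsupp : ∀ u, A u ≠ 0 → ∃ a ∈ Metric.thickening δ K, ∃ b ∈ Metric.thickening δ K,
      u = a - b := by
    intro u hu
    by_contra hcon
    push Not at hcon
    apply hu
    rw [hA]
    have h7 : ∀ t, ψ t * ψ (t - u) = 0 := by
      intro t
      by_contra h8
      have h9 := mul_ne_zero_iff.1 h8
      exact hcon t (hψm t h9.1) (t - u) (hψm _ h9.2) (by abel)
    simp [h7]
  refine ⟨A, hAcont, ?_, ?_, ?_, ?_, hAsupp, fun ξ => ?_, fun ξ => ?_, ?_⟩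
  · have hcK : IsCompact (Metric.cthickening δ K) := hK.cthickening
    refine HasCompactSupport.of_support_subset_isCompact
      ((hcK.prod hcK).image (continuous_fst.sub continuous_snd)) fun u hu => ?_
    obtain ⟨a, ha, b, hb, rfl⟩ := hAsupp u hu
    exact ⟨(a, b), ⟨Metric.thickening_subset_cthickening _ _ ha,
      Metric.thickening_subset_cthickening _ _ hb⟩, rfl⟩
  · intro u
    rw [hA]
    exact integral_nonneg fun t => mul_nonneg (hψ0 _) (hψ0 _)
  · have h7 := integral_convolution (μ := volume) (ν := volume) (ContinuousLinearMap.mul ℝ ℝ)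
      hψi (hψi.comp_neg)
    have h8 : A = ψ ⋆[ContinuousLinearMap.mul ℝ ℝ] (fun x => ψ (-x)) := by
      funext u
      rw [hA]
      simp only [convolution, ContinuousLinearMap.mul_apply', neg_sub]
    rw [h8, h7, integral_neg_eq_self ψ, hψ1]
    simp
  · rw [hA]
    simp only [sub_zero]
    calc ∫ t, ψ t * ψ t ≤ ∫ t, 1 / m * ψ t := by
          refine integral_mono ?_ (hψi.const_mul _) fun t => ?_
          · exact (hψs.continuous.mul hψs.continuous).integrable_of_hasCompactSupport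
              (hψc.mul_right)
          · exact mul_le_mul_of_nonneg_right (hψle t) (hψ0 t)
      _ = 1 / m := by rw [integral_const_mul, hψ1, mul_one]
      _ ≤ 1 / κ := one_div_le_one_div_of_le hκ hmκ
  · rw [hFA, Complex.ofReal_im]
  · rw [hFA, Complex.ofReal_re]
    positivity
  · have h7 : 𝓕 (fun x => (A x : ℂ)) = fun ξ => ((‖𝓕 g ξ‖ ^ 2 : ℝ) : ℂ) := funext hFA
    rw [h7]
    apply Integrable.ofReal
    set S : SchwartzMap (E d) ℂ := hgc.toSchwartzMap hgs with hS
    have h8 : 𝓕 g = ((𝓕 S : SchwartzMap (E d) ℂ) : E d → ℂ) := by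
      rw [SchwartzMap.fourier_coe]
      rfl
    rw [h8]
    have h9 : Integrable (fun ξ => (𝓕 S : SchwartzMap (E d) ℂ) ξ) := SchwartzMap.integrable _
    obtain ⟨C, hC⟩ : ∃ C : ℝ, ∀ ξ, ‖(𝓕 S : SchwartzMap (E d) ℂ) ξ‖ ≤ C := by
      obtain ⟨C, -, hC⟩ := (𝓕 S : SchwartzMap (E d) ℂ).decay 0 0
      exact ⟨C, fun ξ => by simpa using hC ξ⟩
    refine (h9.norm.const_mul C).mono' ?_ ?_
    · exact ((SchwartzMap.continuous _).norm.pow 2).aestronglyMeasurable
    · refine Eventually.of_forall fun ξ => ?_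
      have h10 : ‖(‖(𝓕 S : SchwartzMap (E d) ℂ) ξ‖ ^ 2 : ℝ)‖ =
          ‖(𝓕 S : SchwartzMap (E d) ℂ) ξ‖ * ‖(𝓕 S : SchwartzMap (E d) ℂ) ξ‖ := by
        rw [norm_pow, norm_norm, sq]
      exact h10.le.trans (mul_le_mul_of_nonneg_right (hC ξ) (norm_nonneg _))

end Pool.Agent.Y509.KP
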