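import Mathlib
import Pool.Agent.Y570.KP.Ansatz
import Pool.Agent.Y509.KP.Auto

/-!
Pseudo-packings of level `k`.
-/

set_option autoImplicit false

open MeasureTheory

namespace Pool.Agent.Y509.KP

open Classical in
/-- pseudo-packings of level `k` on the finite set `X` -/
structure PPack (n k : ℕ) (X : Finset (E n)) (y : Finset X → ℝ) : Prop where
  one : y ∅ = 1
  sep : ∀ S : Finset X, ∀ u ∈ S, ∀ v ∈ S, u ≠ v → dist (u : E n) v < 1 → y S = 0
  nonneg : ∀ D F : Finset X, D.card + F.card ≤ k → 0 ≤ Pool.Agent.Y570.KP.cond y D F ∅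
  psd : ∀ D F : Finset X, D.card + F.card + 2 ≤ k → ∀ a : Option X → ℝ,
    0 ≤ ∑ s, ∑ t, a s * a t * Pool.Agent.Y570.KP.cond y D F (s.toFinset ∪ t.toFinset)

/-- `B` bounds the size of all pseudo-packings of level `k` on finite subsets of `Λ` -/
def LBound (n k : ℕ) (Λ : Set (E n)) (B : ℝ) : Prop :=
  ∀ X : Finset (E n), (X : Set (E n)) ⊆ Λ → ∀ y : Finset X → ℝ, PPack n k X y → ∑ x, y {x} ≤ B

end Pool.Agent.Y509.KP
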