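import Mathlib
import Pool.Agent.TH41.LP.FIN
import Pool.Agent.Y509.KP.Auto

/-!
The averages of a self-dual bounded function define a bounded quadratic form.
-/

set_option autoImplicit false

open MeasureTheory Filter Topology

open scoped FourierTransform

namespace Pool.Agent.Y509.KP

variable {d : ℕ}

/-- the averages of `v` -/
noncomputable def ww (A v : E d → ℝ) (s : ℝ) (t : E d) : ℝ := ∫ u, A u * v (s • (t + u))

/-- the phase -/
noncomputable def ph (a ξ : E d) : ℂ := Complex.exp (↑(-2 * Real.pi * inner ℝ a ξ) * Complex.I)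

lemma fourier_transl {g : E d → ℂ} (a ξ : E d) :
    𝓕 (fun u => g (u - a)) ξ = ph a ξ * 𝓕 g ξ := by
  rw [Real.fourier_eq', Real.fourier_eq']
  have h1 := integral_sub_right_eq_self (μ := (volume : Measure (E d))) (fun u : E d =>
    Complex.exp (↑(-2 * Real.pi * inner ℝ (u + a) ξ) * Complex.I) • g u) a
  simp only [sub_add_cancel] at h1
  rw [h1, ← integral_const_mul]
  congr 1
  funext u
  simp only [smul_eq_mul]
  rw [← mul_assoc, ph, ← Complex.exp_add]
  congr 2
  rw [inner_add_left]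
  push_cast
  ring

lemma exp_integrable {g : E d → ℂ} (hg : Integrable g) (ξ : E d) :
    Integrable (fun u => Complex.exp (↑(-2 * Real.pi * inner ℝ u ξ) * Complex.I) • g u) := by
  refine hg.norm.mono' ?_ ?_
  · have h1 : AEStronglyMeasurable (fun u : E d =>
        Complex.exp (↑(-2 * Real.pi * inner ℝ u ξ) * Complex.I)) volume :=
      Continuous.aestronglyMeasurable (by fun_prop)
    exact h1.smul hg.aestronglyMeasurable
  · refine Eventually.of_forall fun u => ?_
    rw [norm_smul, Complex.norm_exp_ofReal_mul_I, one_mul]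

/-- the trigonometric sum -/
lemma trig_sum (X : Finset (E d)) (φ : E d → ℝ) (ξ : E d) :
    ∑ x ∈ X, ∑ y ∈ X, ((φ x * φ y : ℝ) : ℂ) * ph (x - y) ξ =
      ((‖∑ x ∈ X, ((φ x : ℝ) : ℂ) * ph x ξ‖ ^ 2 : ℝ) : ℂ) := by
  have h1 : ((‖∑ x ∈ X, ((φ x : ℝ) : ℂ) * ph x ξ‖ ^ 2 : ℝ) : ℂ) =
      (∑ x ∈ X, ((φ x : ℝ) : ℂ) * ph x ξ) * (starRingEnd ℂ) (∑ x ∈ X, ((φ x : ℝ) : ℂ) * ph x ξ) := by
    rw [Complex.mul_conj, Complex.normSq_eq_norm_sq]
  rw [h1, map_sum, Finset.sum_mul_sum]
  refine Finset.sum_congr rfl fun x _ => Finset.sum_congr rfl fun y _ => ?_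
  have h2 : ph (x - y) ξ = ph x ξ * (starRingEnd ℂ) (ph y ξ) := by
    unfold ph
    rw [← Complex.exp_conj, ← Complex.exp_add, map_mul, Complex.conj_ofReal, Complex.conj_I,
      inner_sub_left]
    congr 1
    push_cast
    ring
  rw [h2, map_mul, Complex.conj_ofReal]
  push_cast
  ring

theorem quad_w (hd : 0 < d) {v : E d → ℝ} (hvm : AEStronglyMeasurable v volume)
    (hv : ∀ f : E d → ℂ, Continuous f → Integrable f → Integrable (𝓕 f) →
      (∀ x, (f x).im = 0) → (∀ x, (𝓕 f x).im = 0) →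
      ∫ x, (𝓕 f x).re * v x = ∫ x, (f x).re * v x)
    {M : ℝ} (hvb : ∀ x, x ≠ 0 → |v x| ≤ M) {s : ℝ} (hs : 0 < s) {A : E d → ℝ}
    (hAc : Continuous A) (hAs : HasCompactSupport A)
    (hA1 : ∀ ξ, (𝓕 (fun x => (A x : ℂ)) ξ).im = 0)
    (hA2 : ∀ ξ, 0 ≤ (𝓕 (fun x => (A x : ℂ)) ξ).re)
    (hA3 : Integrable (𝓕 (fun x => (A x : ℂ))))
    (X : Finset (E d)) (hX : ∀ x ∈ X, ∀ y ∈ X, x ≠ y → A (y - x) = 0) (φ : E d → ℝ) :
    |∑ x ∈ X, ∑ y ∈ X, φ x * φ y * ww A v s (x - y)| ≤
      M * ((s ^ d)⁻¹ * A 0) * ∑ x ∈ X, φ x ^ 2 := by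
  classical
  have : Nonempty (Fin d) := ⟨⟨0, hd⟩⟩
  have : Nontrivial (E d) := by
    refine ⟨⟨0, EuclideanSpace.single ⟨0, hd⟩ 1, ?_⟩⟩
    intro h
    have := congrArg (fun x : EuclideanSpace ℝ (Fin d) => x ⟨0, hd⟩) h
    simp at this
  have hsd : 0 < s ^ d := by positivity
  have hne : ∀ᵐ x : E d, x ≠ 0 := by
    have : volume ({0} : Set (E d)) = 0 := measure_singleton 0
    exact measure_eq_zero_iff_ae_notMem.1 this
  have hvbd : ∀ᵐ x : E d, ‖v x‖ ≤ M := by
    filter_upwards [hne] with x hx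
    exact hvb x hx
  -- the complex functions
  obtain ⟨Ac, hAcdef⟩ : ∃ Ac : E d → ℂ, Ac = fun x => (A x : ℂ) := ⟨_, rfl⟩
  rw [← hAcdef] at hA1 hA2 hA3
  have hAi : Integrable A := hAc.integrable_of_hasCompactSupport hAs
  have hAci : Integrable Ac := by rw [hAcdef]; exact hAi.ofReal
  have hAcc : Continuous Ac := by rw [hAcdef]; fun_prop
  obtain ⟨f, hf⟩ : ∃ f : E d → ℝ, f = fun u => ∑ x ∈ X, ∑ y ∈ X, φ x * φ y * A (u - (x - y)) :=
    ⟨_, rfl⟩
  obtain ⟨fc, hfc⟩ : ∃ fc : E d → ℂ, fc = fun u => (f u : ℂ) := ⟨_, rfl⟩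
  have hfcont : Continuous f := by rw [hf]; fun_prop
  have hfint : Integrable f := by
    rw [hf]
    refine integrable_finsetSum _ fun x _ => integrable_finsetSum _ fun y _ => ?_
    exact (hAi.comp_sub_right (x - y)).const_mul _
  have hfc' : fc = fun u => ∑ x ∈ X, ∑ y ∈ X, ((φ x * φ y : ℝ) : ℂ) * Ac (u - (x - y)) := by
    rw [hfc, hf, hAcdef]
    funext u
    push_cast
    rfl
  have hF : ∀ ξ, 𝓕 fc ξ = ((‖∑ x ∈ X, ((φ x : ℝ) : ℂ) * ph x ξ‖ ^ 2 : ℝ) : ℂ) * 𝓕 Ac ξ := by
    intro ξ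
    rw [← trig_sum, Finset.sum_mul]
    rw [Real.fourier_eq', hfc']
    have h1 : ∀ u : E d, Complex.exp (↑(-2 * Real.pi * inner ℝ u ξ) * Complex.I) •
        ∑ x ∈ X, ∑ y ∈ X, ((φ x * φ y : ℝ) : ℂ) * Ac (u - (x - y)) =
        ∑ x ∈ X, ∑ y ∈ X, ((φ x * φ y : ℝ) : ℂ) *
          (Complex.exp (↑(-2 * Real.pi * inner ℝ u ξ) * Complex.I) • Ac (u - (x - y))) := by
      intro u
      rw [Finset.smul_sum]
      refine Finset.sum_congr rfl fun x _ => ?_
      rw [Finset.smul_sum]
      refine Finset.sum_congr rfl fun y _ => ?_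
      simp only [smul_eq_mul]
      ring
    simp_rw [h1]
    have h2 : ∀ a : E d, Integrable (fun u =>
        Complex.exp (↑(-2 * Real.pi * inner ℝ u ξ) * Complex.I) • Ac (u - a)) := fun a =>
      exp_integrable (hAci.comp_sub_right a) ξ
    rw [integral_finsetSum _ fun x _ => integrable_finsetSum _ fun y _ =>
      (h2 (x - y)).const_mul _]
    refine Finset.sum_congr rfl fun x _ => ?_
    rw [integral_finsetSum _ fun y _ => (h2 (x - y)).const_mul _, Finset.sum_mul]
    refine Finset.sum_congr rfl fun y _ => ?_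
    rw [integral_const_mul]
    have h3 := fourier_transl (g := Ac) (x - y) ξ
    rw [Real.fourier_eq'] at h3
    rw [h3]
    ring
  -- the scaled function
  obtain ⟨g, hg⟩ : ∃ g : E d → ℂ, g = fun x => fc (s⁻¹ • x) := ⟨_, rfl⟩
  have hfcc : Continuous fc := by rw [hfc]; fun_prop
  have hfci : Integrable fc := by rw [hfc]; exact hfint.ofReal
  have hgc : Continuous g := by rw [hg]; exact hfcc.comp (continuous_const_smul _)
  have hgi : Integrable g := by rw [hg]; exact hfci.comp_smul (inv_ne_zero hs.ne')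
  have hFg : 𝓕 g = fun w => ((s ^ d : ℝ) : ℂ) * 𝓕 fc (s • w) := by
    funext w
    rw [hg]
    exact Pool.Agent.TH41.LP.FINf.fourier_scale fc hs w
  have hFci : Integrable (𝓕 fc) := by
    have h1 : 𝓕 fc = fun ξ => ((‖∑ x ∈ X, ((φ x : ℝ) : ℂ) * ph x ξ‖ ^ 2 : ℝ) : ℂ) * 𝓕 Ac ξ :=
      funext hF
    rw [h1]
    have hcont : Continuous fun ξ => ((‖∑ x ∈ X, ((φ x : ℝ) : ℂ) * ph x ξ‖ ^ 2 : ℝ) : ℂ) := by
      unfold ph
      fun_prop
    refine hA3.bdd_mul (c := (∑ x ∈ X, |φ x|) ^ 2) hcont.aestronglyMeasurable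
      (Eventually.of_forall fun ξ => ?_)
    rw [Complex.norm_real, Real.norm_of_nonneg (by positivity)]
    refine pow_le_pow_left₀ (norm_nonneg _) ((norm_sum_le _ _).trans (le_of_eq ?_)) 2
    refine Finset.sum_congr rfl fun x _ => ?_
    rw [norm_mul, ph, Complex.norm_exp_ofReal_mul_I, mul_one, Complex.norm_real, Real.norm_eq_abs]
  have hFgi : Integrable (𝓕 g) := by
    rw [hFg]
    exact (hFci.comp_smul hs.ne').const_mul _
  have hgim : ∀ x, (g x).im = 0 := fun x => by rw [hg, hfc]; exact Complex.ofReal_im _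
  have hFcre : ∀ ξ, 0 ≤ (𝓕 fc ξ).re := fun ξ => by
    rw [hF, Complex.re_ofReal_mul]
    exact mul_nonneg (by positivity) (hA2 ξ)
  have hFcim : ∀ ξ, (𝓕 fc ξ).im = 0 := fun ξ => by
    rw [hF, Complex.im_ofReal_mul, hA1, mul_zero]
  have hFgim : ∀ w, (𝓕 g w).im = 0 := by
    intro w; rw [hFg]; simp only [Complex.im_ofReal_mul, hFcim, mul_zero]
  have hFgp : ∀ w, 0 ≤ (𝓕 g w).re := by
    intro w; rw [hFg]; simp only [Complex.re_ofReal_mul]
    exact mul_nonneg hsd.le (hFcre _)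
  have hI := hv g hgc hgi hFgi hgim hFgim
  have hinv : 𝓕⁻ (𝓕 g) = g := hgc.fourierInv_fourier_eq hgi hFgi
  have hg0 : (g 0).re = ∫ w, (𝓕 g w).re := by
    have h1 : g 0 = ∫ w, 𝓕 g w := by
      conv_lhs => rw [← hinv]
      rw [Real.fourierInv_eq']
      refine integral_congr_ae (Eventually.of_forall fun x => ?_)
      simp
    rw [h1]
    exact (integral_re hFgi).symm
  have hg0' : (g 0).re = A 0 * ∑ x ∈ X, φ x ^ 2 := by
    rw [hg, hfc]
    simp only [smul_zero, Complex.ofReal_re]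
    rw [hf, Finset.mul_sum]
    refine Finset.sum_congr rfl fun x hx => ?_
    rw [Finset.sum_eq_single x]
    · simp only [sub_self]
      ring
    · intro y hy hyx
      have : (0 : E d) - (x - y) = y - x := by abel
      rw [this, hX x hx y hy (Ne.symm hyx), mul_zero]
    · intro h
      exact absurd hx h
  have hFgi' : Integrable (fun w => (𝓕 g w).re) := hFgi.re
  have hup : |∫ x, (𝓕 g x).re * v x| ≤ M * (g 0).re := by
    rw [hg0, ← integral_const_mul, ← Real.norm_eq_abs]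
    refine norm_integral_le_of_norm_le (hFgi'.const_mul M) ?_
    filter_upwards [hvbd] with x hx
    rw [norm_mul, Real.norm_of_nonneg (hFgp x), mul_comm]
    exact mul_le_mul_of_nonneg_right hx (hFgp x)
  -- the left side
  have hleft : ∫ x, (g x).re * v x = s ^ d * ∑ x ∈ X, ∑ y ∈ X, φ x * φ y * ww A v s (x - y) := by
    have h1 : ∀ x, (g x).re * v x = (fun u => f u * v (s • u)) (s⁻¹ • x) := by
      intro x
      rw [hg, hfc]
      simp only [Complex.ofReal_re]
      rw [smul_inv_smul₀ hs.ne']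
    simp_rw [h1]
    rw [Measure.integral_comp_inv_smul_of_nonneg volume (fun u : E d => f u * v (s • u)) hs.le,
      finrank_euclideanSpace_fin, smul_eq_mul]
    congr 1
    have hvm' : ∀ t : E d, AEStronglyMeasurable (fun u : E d => v (s • (t + u))) volume := by
      intro t
      have h3 : AEStronglyMeasurable (fun u : E d => v (s • u)) volume :=
        hvm.comp_quasiMeasurePreserving
          (Measure.quasiMeasurePreserving_smul volume (show s ≠ 0 from hs.ne'))
      exact h3.comp_measurePreserving (measurePreserving_add_left volume t)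
    have hvb' : ∀ t : E d, ∀ᵐ u : E d, ‖v (s • (t + u))‖ ≤ M := by
      intro t
      have h3 : ∀ᵐ u : E d, u ≠ -t := by
        have : volume ({-t} : Set (E d)) = 0 := measure_singleton _
        exact measure_eq_zero_iff_ae_notMem.1 this
      filter_upwards [h3] with u hu
      refine hvb _ ?_
      rw [smul_ne_zero_iff]
      refine ⟨hs.ne', fun h => hu ?_⟩
      exact eq_neg_of_add_eq_zero_right h
    have h4 : ∀ t : E d, Integrable (fun u => A u * v (s • (t + u))) := fun t =>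
      hAi.mul_bdd (hvm' t) (hvb' t)
    have h5 : ∀ a : E d, Integrable (fun u => A (u - a) * v (s • u)) := by
      intro a
      have h6 := (h4 a).comp_sub_right a
      refine h6.congr (Eventually.of_forall fun u => ?_)
      simp only
      rw [add_sub_cancel]
    have h7 : ∀ a : E d, ∫ u, A (u - a) * v (s • u) = ww A v s a := by
      intro a
      unfold ww
      rw [← integral_sub_right_eq_self (fun u => A u * v (s • (a + u))) a]
      congr 1
      funext u
      rw [add_sub_cancel]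
    rw [hf]
    simp_rw [Finset.sum_mul, mul_assoc]
    rw [integral_finsetSum _ fun x _ => integrable_finsetSum _ fun y _ =>
      ((h5 (x - y)).const_mul _).const_mul _]
    refine Finset.sum_congr rfl fun x _ => ?_
    rw [integral_finsetSum _ fun y _ => ((h5 (x - y)).const_mul _).const_mul _]
    refine Finset.sum_congr rfl fun y _ => ?_
    rw [integral_const_mul, integral_const_mul, h7]
  rw [hI, hleft, abs_mul, abs_of_pos hsd, hg0'] at hup
  calc |∑ x ∈ X, ∑ y ∈ X, φ x * φ y * ww A v s (x - y)|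
      = (s ^ d)⁻¹ * (s ^ d * |∑ x ∈ X, ∑ y ∈ X, φ x * φ y * ww A v s (x - y)|) := by
        rw [inv_mul_cancel_left₀ hsd.ne']
    _ ≤ (s ^ d)⁻¹ * (M * (A 0 * ∑ x ∈ X, φ x ^ 2)) :=
        mul_le_mul_of_nonneg_left hup (by positivity)
    _ = _ := by ring

end Pool.Agent.Y509.KP
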