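import Mathlib
import Pool.Agent.Y509.KP.QuadW

/-!
The quadratic form of a positive definite function on point masses and a uniform measure.
-/

set_option autoImplicit false

open MeasureTheory Filter Topology

open scoped FourierTransform

namespace Pool.Agent.Y509.KP

variable {d : ℕ}

/-- positive definite functions -/
structure PosDef (f : E d → ℝ) : Prop where
  continuous : Continuous f
  integrable : Integrable f
  integrable_fourier : Integrable (𝓕 (fun x => (f x : ℂ)))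
  fourier_real : ∀ y, (𝓕 (fun x => (f x : ℂ)) y).im = 0
  fourier_nonneg : ∀ y, 0 ≤ (𝓕 (fun x => (f x : ℂ)) y).re

lemma ph_norm (a ξ : E d) : ‖ph a ξ‖ = 1 := by
  unfold ph
  rw [Complex.norm_exp_ofReal_mul_I]

lemma ph_conj (a ξ : E d) : (starRingEnd ℂ) (ph a ξ) = ph (-a) ξ := by
  unfold ph
  rw [← Complex.exp_conj, map_mul, Complex.conj_ofReal, Complex.conj_I, inner_neg_left]
  congr 1
  push_cast
  ring

lemma ph_sub (a b ξ : E d) : ph (a - b) ξ = ph a ξ * (starRingEnd ℂ) (ph b ξ) := by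
  rw [ph_conj]
  unfold ph
  rw [← Complex.exp_add, inner_sub_left, inner_neg_left]
  congr 1
  push_cast
  ring

lemma ph_cont : Continuous fun p : E d × E d => ph p.1 p.2 := by
  unfold ph
  fun_prop

variable {f : E d → ℝ}

lemma inv_neg (hf : PosDef f) (t : E d) :
    ∫ ξ, 𝓕 (fun x => (f x : ℂ)) ξ * ph t ξ = ((f (-t) : ℝ) : ℂ) := by
  have h1 : 𝓕⁻ (𝓕 (fun x => (f x : ℂ))) = fun x => (f x : ℂ) :=
    (show Continuous (fun x => (f x : ℂ)) by
      have := hf.continuous
      fun_prop).fourierInv_fourier_eq hf.integrable.ofReal hf.integrable_fourier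
  have h2 := congrFun h1 (-t)
  rw [Real.fourierInv_eq'] at h2
  rw [← h2]
  congr 1
  funext ξ
  rw [smul_eq_mul, mul_comm, ph, inner_neg_right, real_inner_comm]
  congr 3
  push_cast
  ring

lemma even (hf : PosDef f) (t : E d) : f (-t) = f t := by
  have h1 := inv_neg hf t
  have h2 := inv_neg hf (-t)
  rw [neg_neg] at h2
  have h3 : (starRingEnd ℂ) (∫ ξ, 𝓕 (fun x => (f x : ℂ)) ξ * ph t ξ) =
      ∫ ξ, 𝓕 (fun x => (f x : ℂ)) ξ * ph (-t) ξ := by
    rw [← integral_conj]
    congr 1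
    funext ξ
    rw [map_mul, ph_conj, Complex.conj_eq_iff_im.2 (hf.fourier_real ξ)]
  rw [h1, h2, Complex.conj_ofReal] at h3
  exact_mod_cast h3

lemma inv_eq (hf : PosDef f) (t : E d) :
    ∫ ξ, 𝓕 (fun x => (f x : ℂ)) ξ * ph t ξ = ((f t : ℝ) : ℂ) := by
  rw [inv_neg hf, even hf]

/-- the Fourier transform of the indicator function -/
noncomputable def bb (B : Set (E d)) (ξ : E d) : ℂ := ∫ z in B, ph z ξ

variable {B : Set (E d)}

lemma ph_int (hBt : volume B ≠ ⊤) (ξ : E d) : IntegrableOn (fun z => ph z ξ) B volume := by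
  refine Integrable.mono' (g := fun _ => (1 : ℝ)) (integrableOn_const hBt) ?_ ?_
  · exact (Continuous.aestronglyMeasurable (by unfold ph; fun_prop))
  · exact Eventually.of_forall fun z => (ph_norm z ξ).le

lemma bb_norm (hBt : volume B ≠ ⊤) (ξ : E d) : ‖bb B ξ‖ ≤ volume.real B := by
  unfold bb
  have h := norm_setIntegral_le_of_norm_le_const (μ := volume) (s := B) (f := fun z => ph z ξ)
    (C := 1) hBt.lt_top (fun z _ => (ph_norm z ξ).le)
  simpa using h

lemma bb_meas (hB : MeasurableSet B) (hBt : volume B ≠ ⊤) : AEStronglyMeasurable (bb B) volume := by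
  have : IsFiniteMeasure (volume.restrict B) := ⟨by
    rw [Measure.restrict_apply_univ]; exact hBt.lt_top⟩
  have h1 : StronglyMeasurable (fun p : E d × E d => ph p.2 p.1) :=
    (ph_cont.comp continuous_swap).stronglyMeasurable
  exact (h1.integral_prod_right (ν := volume.restrict B)).aestronglyMeasurable

lemma F_bdd (hf : PosDef f) {g : E d → ℂ} (hg : AEStronglyMeasurable g volume) {C : ℝ}
    (hC : ∀ ξ, ‖g ξ‖ ≤ C) : Integrable (fun ξ => 𝓕 (fun x => (f x : ℂ)) ξ * g ξ) :=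
  hf.integrable_fourier.mul_bdd hg (Eventually.of_forall hC)

lemma L1 (hf : PosDef f) (hB : MeasurableSet B) (hBt : volume B ≠ ⊤) (x : E d) :
    ∫ ξ, 𝓕 (fun x => (f x : ℂ)) ξ * (ph x ξ * (starRingEnd ℂ) (bb B ξ)) =
      ∫ z in B, ((f (x - z) : ℝ) : ℂ) := by
  have : IsFiniteMeasure (volume.restrict B) := ⟨by
    rw [Measure.restrict_apply_univ]; exact hBt.lt_top⟩
  have h1 : ∀ ξ, 𝓕 (fun x => (f x : ℂ)) ξ * (ph x ξ * (starRingEnd ℂ) (bb B ξ)) =
      ∫ z in B, 𝓕 (fun x => (f x : ℂ)) ξ * ph (x - z) ξ := by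
    intro ξ
    unfold bb
    rw [← integral_conj, ← integral_const_mul, ← integral_const_mul]
    congr 1
    funext z
    rw [ph_sub]
  simp_rw [h1]
  rw [integral_integral_swap]
  · congr 1
    funext z
    rw [inv_eq hf]
  · have h2 : Integrable (fun p : E d × E d => ‖𝓕 (fun x => (f x : ℂ)) p.1‖ * (1 : ℝ))
        (volume.prod (volume.restrict B)) :=
      hf.integrable_fourier.norm.mul_prod (integrable_const _)
    refine h2.mono' ?_ (Eventually.of_forall fun p => ?_)
    · refine AEStronglyMeasurable.mul ?_ ?_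
      · exact hf.integrable_fourier.aestronglyMeasurable.comp_fst
      · refine Continuous.aestronglyMeasurable ?_
        exact ph_cont.comp ((continuous_const.sub continuous_snd).prodMk continuous_fst)
    · simp only [Function.uncurry]
      rw [norm_mul, ph_norm]

lemma L2 (hf : PosDef f) (hB : MeasurableSet B) (hBt : volume B ≠ ⊤) :
    ∫ ξ, 𝓕 (fun x => (f x : ℂ)) ξ * (bb B ξ * (starRingEnd ℂ) (bb B ξ)) =
      ∫ u in B, ∫ z in B, ((f (u - z) : ℝ) : ℂ) := by
  have : IsFiniteMeasure (volume.restrict B) := ⟨by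
    rw [Measure.restrict_apply_univ]; exact hBt.lt_top⟩
  have h1 : ∀ ξ, 𝓕 (fun x => (f x : ℂ)) ξ * (bb B ξ * (starRingEnd ℂ) (bb B ξ)) =
      ∫ u in B, 𝓕 (fun x => (f x : ℂ)) ξ * (ph u ξ * (starRingEnd ℂ) (bb B ξ)) := by
    intro ξ
    conv_lhs => rw [bb, ← integral_mul_const, ← integral_const_mul]
    rfl
  simp_rw [h1]
  rw [integral_integral_swap]
  · congr 1
    funext u
    exact L1 hf hB hBt u
  · have h2 : Integrable (fun p : E d × E d => (‖𝓕 (fun x => (f x : ℂ)) p.1‖ * volume.real B) * (1 : ℝ))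
        (volume.prod (volume.restrict B)) :=
      (hf.integrable_fourier.norm.mul_const _).mul_prod (integrable_const _)
    refine h2.mono' ?_ (Eventually.of_forall fun p => ?_)
    · refine AEStronglyMeasurable.mul ?_ (AEStronglyMeasurable.mul ?_ ?_)
      · exact hf.integrable_fourier.aestronglyMeasurable.comp_fst
      · exact (ph_cont.comp continuous_swap).aestronglyMeasurable
      · exact (Complex.continuous_conj.comp_aestronglyMeasurable (bb_meas hB hBt)).comp_fst
    · simp only [Function.uncurry]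
      rw [norm_mul, norm_mul, ph_norm, one_mul, mul_one, RCLike.norm_conj]
      exact mul_le_mul_of_nonneg_left (bb_norm hBt _) (norm_nonneg _)

theorem quad_mix (hf : PosDef f) (hB : MeasurableSet B) (hBt : volume B ≠ ⊤) (X : Finset (E d))
    (a : E d → ℝ) (s : ℝ) :
    0 ≤ ∑ x ∈ X, ∑ z ∈ X, a x * a z * f (x - z) - 2 * s * ∑ x ∈ X, a x * (∫ z in B, f (x - z)) +
      s ^ 2 * ∫ u in B, ∫ z in B, f (u - z) := by
  obtain ⟨F, hF⟩ : ∃ F : E d → ℂ, F = 𝓕 (fun x => (f x : ℂ)) := ⟨_, rfl⟩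
  obtain ⟨g, hg⟩ : ∃ g : E d → ℂ, g = fun ξ => ∑ x ∈ X, (a x : ℂ) * ph x ξ := ⟨_, rfl⟩
  have hFreal : ∀ ξ, (starRingEnd ℂ) (F ξ) = F ξ := fun ξ => by
    rw [hF]
    exact Complex.conj_eq_iff_im.2 (hf.fourier_real ξ)
  have hgc : Continuous g := by
    rw [hg]
    unfold ph
    fun_prop
  have hgb : ∀ ξ, ‖g ξ‖ ≤ ∑ x ∈ X, |a x| := by
    intro ξ
    rw [hg]
    refine (norm_sum_le _ _).trans (le_of_eq ?_)
    refine Finset.sum_congr rfl fun x _ => ?_
    rw [norm_mul, ph_norm, mul_one, Complex.norm_real, Real.norm_eq_abs]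
  have hbm := bb_meas hB hBt
  have hbm' : AEStronglyMeasurable (fun ξ => (starRingEnd ℂ) (bb B ξ)) volume :=
    Complex.continuous_conj.comp_aestronglyMeasurable hbm
  have hgm' : AEStronglyMeasurable (fun ξ => (starRingEnd ℂ) (g ξ)) volume :=
    (Complex.continuous_conj.comp hgc).aestronglyMeasurable
  -- the four integrals
  have i1 : Integrable (fun ξ => F ξ * (g ξ * (starRingEnd ℂ) (g ξ))) := by
    rw [hF]
    refine F_bdd hf (hgc.aestronglyMeasurable.mul hgm') (C := (∑ x ∈ X, |a x|) ^ 2) fun ξ => ?_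
    rw [norm_mul, RCLike.norm_conj, ← sq]
    exact pow_le_pow_left₀ (norm_nonneg _) (hgb ξ) 2
  have i2 : Integrable (fun ξ => F ξ * (g ξ * (starRingEnd ℂ) (bb B ξ))) := by
    rw [hF]
    refine F_bdd hf (hgc.aestronglyMeasurable.mul hbm') (C := (∑ x ∈ X, |a x|) * volume.real B)
      fun ξ => ?_
    rw [norm_mul, RCLike.norm_conj]
    exact mul_le_mul (hgb ξ) (bb_norm hBt ξ) (norm_nonneg _)
      (Finset.sum_nonneg fun _ _ => abs_nonneg _)
  have i3 : Integrable (fun ξ => F ξ * (bb B ξ * (starRingEnd ℂ) (g ξ))) := by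
    rw [hF]
    refine F_bdd hf (hbm.mul hgm') (C := volume.real B * (∑ x ∈ X, |a x|))
      fun ξ => ?_
    rw [norm_mul, RCLike.norm_conj]
    exact mul_le_mul (bb_norm hBt ξ) (hgb ξ) (norm_nonneg _) measureReal_nonneg
  have i4 : Integrable (fun ξ => F ξ * (bb B ξ * (starRingEnd ℂ) (bb B ξ))) := by
    rw [hF]
    refine F_bdd hf (hbm.mul hbm') (C := volume.real B * volume.real B)
      fun ξ => ?_
    rw [norm_mul, RCLike.norm_conj]
    exact mul_le_mul (bb_norm hBt ξ) (bb_norm hBt ξ) (norm_nonneg _) measureReal_nonneg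
  have e1 : ∫ ξ, F ξ * (g ξ * (starRingEnd ℂ) (g ξ)) =
      ((∑ x ∈ X, ∑ z ∈ X, a x * a z * f (x - z) : ℝ) : ℂ) := by
    have h1 : ∀ ξ, F ξ * (g ξ * (starRingEnd ℂ) (g ξ)) =
        ∑ x ∈ X, ∑ z ∈ X, ((a x * a z : ℝ) : ℂ) * (F ξ * ph (x - z) ξ) := by
      intro ξ
      have h2 := trig_sum X a ξ
      rw [hg]
      simp only
      have h3 : (∑ x ∈ X, (a x : ℂ) * ph x ξ) * (starRingEnd ℂ) (∑ x ∈ X, (a x : ℂ) * ph x ξ) =
          ∑ x ∈ X, ∑ y ∈ X, ((a x * a y : ℝ) : ℂ) * ph (x - y) ξ := by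
        rw [h2, Complex.mul_conj, Complex.normSq_eq_norm_sq]
      rw [h3, Finset.mul_sum]
      refine Finset.sum_congr rfl fun x _ => ?_
      rw [Finset.mul_sum]
      refine Finset.sum_congr rfl fun z _ => ?_
      ring
    have i5 : ∀ t : E d, Integrable (fun ξ => F ξ * ph t ξ) := fun t => by
      rw [hF]
      refine F_bdd hf (Continuous.aestronglyMeasurable (by unfold ph; fun_prop)) (C := 1)
        fun ξ => (ph_norm t ξ).le
    simp_rw [h1]
    rw [integral_finsetSum _ fun x _ => integrable_finsetSum _ fun z _ =>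
      (i5 (x - z)).const_mul _]
    push_cast
    refine Finset.sum_congr rfl fun x _ => ?_
    rw [integral_finsetSum _ fun z _ => (i5 (x - z)).const_mul _]
    refine Finset.sum_congr rfl fun z _ => ?_
    rw [integral_const_mul, hF, inv_eq hf]
  have e2 : ∫ ξ, F ξ * (g ξ * (starRingEnd ℂ) (bb B ξ)) =
      ((∑ x ∈ X, a x * (∫ z in B, f (x - z)) : ℝ) : ℂ) := by
    have h1 : ∀ ξ, F ξ * (g ξ * (starRingEnd ℂ) (bb B ξ)) =
        ∑ x ∈ X, (a x : ℂ) * (F ξ * (ph x ξ * (starRingEnd ℂ) (bb B ξ))) := by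
      intro ξ
      rw [hg]
      simp only
      rw [Finset.sum_mul, Finset.mul_sum]
      refine Finset.sum_congr rfl fun x _ => ?_
      ring
    have i5 : ∀ t : E d, Integrable (fun ξ => F ξ * (ph t ξ * (starRingEnd ℂ) (bb B ξ))) := by
      intro t
      rw [hF]
      refine F_bdd hf ((Continuous.aestronglyMeasurable (by unfold ph; fun_prop)).mul hbm')
        (C := volume.real B) fun ξ => ?_
      rw [norm_mul, RCLike.norm_conj, ph_norm, one_mul]
      exact bb_norm hBt ξ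
    simp_rw [h1]
    rw [integral_finsetSum _ fun x _ => (i5 x).const_mul _]
    push_cast
    refine Finset.sum_congr rfl fun x _ => ?_
    rw [integral_const_mul, hF, L1 hf hB hBt, integral_complex_ofReal]
  have e3 : ∫ ξ, F ξ * (bb B ξ * (starRingEnd ℂ) (g ξ)) =
      ((∑ x ∈ X, a x * (∫ z in B, f (x - z)) : ℝ) : ℂ) := by
    have h1 := congrArg (starRingEnd ℂ) e2
    rw [Complex.conj_ofReal, ← integral_conj] at h1
    rw [← h1]
    congr 1
    funext ξ
    rw [map_mul, map_mul, hFreal, Complex.conj_conj]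
    ring
  have e4 : ∫ ξ, F ξ * (bb B ξ * (starRingEnd ℂ) (bb B ξ)) =
      ((∫ u in B, ∫ z in B, f (u - z) : ℝ) : ℂ) := by
    rw [hF, L2 hf hB hBt, ← integral_complex_ofReal]
    congr 1
    funext u
    rw [integral_complex_ofReal]
  -- the square
  have e5 : ∀ ξ, F ξ * ((g ξ - s * bb B ξ) * (starRingEnd ℂ) (g ξ - s * bb B ξ)) =
      F ξ * (g ξ * (starRingEnd ℂ) (g ξ)) - s * (F ξ * (g ξ * (starRingEnd ℂ) (bb B ξ))) -
        s * (F ξ * (bb B ξ * (starRingEnd ℂ) (g ξ))) +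
        (s : ℂ) ^ 2 * (F ξ * (bb B ξ * (starRingEnd ℂ) (bb B ξ))) := by
    intro ξ
    rw [map_sub, map_mul, Complex.conj_ofReal]
    ring
  have e6 : ∫ ξ, F ξ * ((g ξ - s * bb B ξ) * (starRingEnd ℂ) (g ξ - s * bb B ξ)) =
      ((∑ x ∈ X, ∑ z ∈ X, a x * a z * f (x - z) - 2 * s * ∑ x ∈ X, a x * (∫ z in B, f (x - z)) +
      s ^ 2 * ∫ u in B, ∫ z in B, f (u - z) : ℝ) : ℂ) := by
    simp_rw [e5]
    have j1 : Integrable (fun ξ => F ξ * (g ξ * (starRingEnd ℂ) (g ξ)) -
        s * (F ξ * (g ξ * (starRingEnd ℂ) (bb B ξ)))) := i1.sub (i2.const_mul _)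
    have j2 : Integrable (fun ξ => F ξ * (g ξ * (starRingEnd ℂ) (g ξ)) -
        s * (F ξ * (g ξ * (starRingEnd ℂ) (bb B ξ))) -
        s * (F ξ * (bb B ξ * (starRingEnd ℂ) (g ξ)))) := j1.sub (i3.const_mul _)
    rw [integral_add j2 (i4.const_mul _), integral_sub j1 (i3.const_mul _),
      integral_sub i1 (i2.const_mul _), integral_const_mul, integral_const_mul,
      integral_const_mul, e1, e2, e3, e4]
    generalize ∑ x ∈ X, ∑ z ∈ X, a x * a z * f (x - z) = q1
    generalize ∑ x ∈ X, a x * (∫ z in B, f (x - z)) = q2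
    generalize ∫ u in B, ∫ z in B, f (u - z) = q3
    push_cast
    ring
  have e7 : 0 ≤ (∫ ξ, F ξ * ((g ξ - s * bb B ξ) * (starRingEnd ℂ) (g ξ - s * bb B ξ))).re := by
    have i6 : Integrable (fun ξ =>
        F ξ * ((g ξ - s * bb B ξ) * (starRingEnd ℂ) (g ξ - s * bb B ξ))) := by
      simp_rw [e5]
      exact ((i1.sub (i2.const_mul _)).sub (i3.const_mul _)).add (i4.const_mul _)
    rw [← RCLike.re_eq_complex_re, ← integral_re i6]
    refine integral_nonneg fun ξ => ?_
    rw [Complex.mul_conj]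
    simp only [Pi.zero_apply, RCLike.re_eq_complex_re]
    rw [mul_comm, Complex.re_ofReal_mul]
    refine mul_nonneg (Complex.normSq_nonneg _) ?_
    rw [hF]
    exact hf.fourier_nonneg ξ
  rw [e6, Complex.ofReal_re] at e7
  exact e7

end Pool.Agent.Y509.KP
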