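import Mathlib
import Pool.Agent.Y509.KP.Mean
import Pool.Agent.H818R2.Base

/-!
A positive definite function is at least its mean on the large balls.
-/

set_option autoImplicit false

open MeasureTheory Filter Topology

open scoped FourierTransform

namespace Pool.Agent.Y509.KP

variable {d : ℕ}

lemma vcb {r : ℝ} (hr : 0 ≤ r) : volume.real (Metric.closedBall (0 : E d) r) =
    r ^ d * Pool.Agent.H818R2.vb (E d) := by
  rw [Pool.Agent.H818R2.vol_closedBall 0 hr, finrank_euclideanSpace_fin]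

lemma tail_small {f : E d → ℝ} (hf : Integrable f) {τ : ℝ} (hτ : 0 < τ) :
    ∃ l : ℝ, 0 < l ∧ ∫ x in {x : E d | l < ‖x‖}, |f x| ≤ τ := by
  have h1 : Tendsto (fun n : ℕ => ∫ x in {x : E d | (n : ℝ) + 1 < ‖x‖}, |f x|) atTop
      (𝓝 (∫ x in (⋂ n : ℕ, {x : E d | (n : ℝ) + 1 < ‖x‖}), |f x|)) := by
    apply tendsto_setIntegral_of_antitone
    · intro n
      exact measurableSet_lt measurable_const measurable_norm
    · intro m n hmn x hx
      simp only [Set.mem_setOf_eq] at hx ⊢
      have : (m : ℝ) ≤ n := by exact_mod_cast hmn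
      linarith
    · exact ⟨0, hf.abs.integrableOn⟩
  have h2 : (⋂ n : ℕ, {x : E d | (n : ℝ) + 1 < ‖x‖}) = ∅ := by
    rw [Set.eq_empty_iff_forall_notMem]
    intro x hx
    obtain ⟨n, hn⟩ := exists_nat_gt ‖x‖
    have h3 := Set.mem_iInter.1 hx n
    simp only [Set.mem_setOf_eq] at h3
    linarith
  rw [h2, setIntegral_empty] at h1
  obtain ⟨n, hn⟩ := (h1.eventually (gt_mem_nhds hτ)).exists
  exact ⟨n + 1, by positivity, hn.le⟩

lemma ball_part {f : E d → ℝ} (hf : Integrable f) {τ l L : ℝ}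
    (hl : ∫ x in {x : E d | l < ‖x‖}, |f x| ≤ τ) {x : E d} (hx : ‖x‖ ≤ L) :
    |(∫ z in Metric.closedBall (0 : E d) (L + l), f (x - z)) - ∫ z, f z| ≤ τ := by
  have hB : MeasurableSet (Metric.closedBall (0 : E d) (L + l)) :=
    Metric.isClosed_closedBall.measurableSet
  have h1 : Integrable (fun z => f (x - z)) := hf.comp_sub_left x
  have h2 : ∫ z, f z = ∫ z, f (x - z) := (integral_sub_left_eq_self f volume x).symm
  have h3 := integral_add_compl hB h1
  rw [h2, ← h3]
  have h4 : ∀ a b : ℝ, a - (a + b) = -b := fun a b => by ring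
  rw [h4, abs_neg]
  refine (abs_integral_le_integral_abs).trans ?_
  refine le_trans ?_ hl
  have h5 : ∫ z in (Metric.closedBall (0 : E d) (L + l))ᶜ, |f (x - z)| =
      ∫ z, (Metric.closedBall (0 : E d) (L + l))ᶜ.indicator (fun z => |f (x - z)|) z :=
    (integral_indicator hB.compl).symm
  have hM : MeasurableSet {x : E d | l < ‖x‖} := measurableSet_lt measurable_const measurable_norm
  have h6 : ∫ z in {x : E d | l < ‖x‖}, |f z| =
      ∫ z, {x : E d | l < ‖x‖}.indicator (fun z => |f z|) (x - z) := by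
    rw [integral_sub_left_eq_self (fun z => {x : E d | l < ‖x‖}.indicator (fun z => |f z|) z)
      volume x]
    exact (integral_indicator hM).symm
  rw [h5, h6]
  refine integral_mono ?_ ?_ fun z => ?_
  · exact (h1.abs.indicator hB.compl)
  · exact (hf.abs.indicator hM).comp_sub_left x
  · by_cases hz : z ∈ (Metric.closedBall (0 : E d) (L + l))ᶜ
    · rw [Set.indicator_of_mem hz, Set.indicator_of_mem]
      simp only [Set.mem_setOf_eq]
      rw [Set.mem_compl_iff, mem_closedBall_zero_iff, not_le] at hz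
      have : ‖z‖ ≤ ‖x‖ + ‖x - z‖ := by
        calc ‖z‖ = ‖x - (x - z)‖ := by rw [sub_sub_cancel]
          _ ≤ _ := norm_sub_le _ _
      linarith
    · rw [Set.indicator_of_notMem hz]
      exact Set.indicator_nonneg (fun _ _ => abs_nonneg _) _

theorem mean_lower {f : E d → ℝ} (hf : PosDef f) (hI : 0 < ∫ x, f x) {η : ℝ} (hη : 0 < η) :
    ∃ L : ℝ, 0 < L ∧ ∀ X : Finset (E d), (∀ x ∈ X, ‖x‖ ≤ L) → ∀ a : E d → ℝ, (∀ x ∈ X, 0 ≤ a x) →
      (∑ x ∈ X, a x) ^ 2 * ((∫ x, f x) * (1 - η)) ≤
        volume.real (Metric.closedBall (0 : E d) L) * ∑ x ∈ X, ∑ z ∈ X, a x * a z * f (x - z) := by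
  obtain ⟨I, hIdef⟩ : ∃ I : ℝ, I = ∫ x, f x := ⟨_, rfl⟩
  rw [← hIdef] at hI ⊢
  obtain ⟨e, he⟩ : ∃ e : ℝ, e = min (η / 7) 1 := ⟨_, rfl⟩
  have he0 : 0 < e := by rw [he]; positivity
  have he1 : e ≤ 1 := by rw [he]; exact min_le_right _ _
  have heη : 7 * e ≤ η := by
    have : e ≤ η / 7 := by rw [he]; exact min_le_left _ _
    linarith
  obtain ⟨l, hl0, hl⟩ := tail_small hf.integrable (τ := e * I) (by positivity)
  obtain ⟨M, hM⟩ : ∃ M : ℝ, M = ∫ x, |f x| := ⟨_, rfl⟩
  have hM0 : 0 ≤ M := by rw [hM]; exact integral_nonneg fun _ => abs_nonneg _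
  obtain ⟨κ, hκ⟩ : ∃ κ : ℝ, κ = min e (e * I / (M + 1)) := ⟨_, rfl⟩
  have hκ0 : 0 < κ := by rw [hκ]; positivity
  have hκe : κ ≤ e := by rw [hκ]; exact min_le_left _ _
  have hκM : κ * M ≤ e * I := by
    have h1 : κ ≤ e * I / (M + 1) := by rw [hκ]; exact min_le_right _ _
    rw [le_div_iff₀ (by positivity)] at h1
    nlinarith
  have hlim : Tendsto (fun L : ℝ => (1 + l / L) ^ d) atTop (𝓝 ((1 + 0) ^ d)) :=
    Tendsto.pow (Tendsto.const_add _ (tendsto_const_nhds.div_atTop tendsto_id)) _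
  rw [add_zero, one_pow] at hlim
  obtain ⟨L, hL1, hL0⟩ := ((hlim.eventually (gt_mem_nhds (show (1 : ℝ) < 1 + κ by linarith))).and
    (eventually_gt_atTop (0 : ℝ))).exists
  refine ⟨L, hL0, fun X hX a ha => ?_⟩
  obtain ⟨v1, hv1⟩ : ∃ v1 : ℝ, v1 = Pool.Agent.H818R2.vb (E d) := ⟨_, rfl⟩
  have hv0 : 0 < v1 := by rw [hv1]; exact Pool.Agent.H818R2.vb_pos
  obtain ⟨V, hV⟩ : ∃ V : ℝ, V = volume.real (Metric.closedBall (0 : E d) L) := ⟨_, rfl⟩
  obtain ⟨W, hW⟩ : ∃ W : ℝ, W = volume.real (Metric.closedBall (0 : E d) (L + l)) := ⟨_, rfl⟩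
  have hV' : V = L ^ d * v1 := by rw [hV, vcb hL0.le, hv1]
  have hW' : W = (L + l) ^ d * v1 := by rw [hW, vcb (by positivity), hv1]
  have hV0 : 0 < V := by rw [hV']; positivity
  have hW0 : 0 < W := by rw [hW']; positivity
  have hWV : W ≤ (1 + κ) * V := by
    have h1 : (L + l) ^ d = (1 + l / L) ^ d * L ^ d := by
      rw [← mul_pow]
      congr 1
      field_simp
    rw [hW', hV', h1]
    have : 0 < L ^ d * v1 := by positivity
    nlinarith
  have hVW : V ≤ W := by
    rw [hV, hW]
    exact measureReal_mono (Metric.closedBall_subset_closedBall (by linarith))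
      (isCompact_closedBall _ _).measure_lt_top.ne
  rw [← hV]
  obtain ⟨B, hB⟩ : ∃ B : Set (E d), B = Metric.closedBall (0 : E d) (L + l) := ⟨_, rfl⟩
  have hBm : MeasurableSet B := by rw [hB]; exact Metric.isClosed_closedBall.measurableSet
  have hBt : volume B ≠ ⊤ := by rw [hB]; exact (isCompact_closedBall _ _).measure_lt_top.ne
  have hfin : IsFiniteMeasure (volume.restrict B) := ⟨by
    rw [Measure.restrict_apply_univ]; exact hBt.lt_top⟩
  -- the uniform measure
  have hR : ∫ u in B, ∫ z in B, f (u - z) ≤ W * (I + 2 * (e * I)) := by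
    have h1 : ∀ u, ∫ z in B, f (u - z) ≤ (I + e * I) +
        (Metric.closedBall (0 : E d) L)ᶜ.indicator (fun _ => M) u := by
      intro u
      by_cases hu : u ∈ Metric.closedBall (0 : E d) L
      · rw [Set.indicator_of_notMem (by simpa using hu), add_zero]
        have h2 := (abs_le.1 (ball_part hf.integrable hl (mem_closedBall_zero_iff.1 hu))).2
        rw [← hIdef, ← hB] at h2
        linarith
      · rw [Set.indicator_of_mem (by simpa using hu)]
        have h2 : ∫ z in B, f (u - z) ≤ M := by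
          calc ∫ z in B, f (u - z) ≤ ∫ z in B, |f (u - z)| :=
                integral_mono (hf.integrable.comp_sub_left u).integrableOn
                  (hf.integrable.comp_sub_left u).abs.integrableOn fun z => le_abs_self _
            _ ≤ ∫ z, |f (u - z)| := setIntegral_le_integral (hf.integrable.comp_sub_left u).abs
                  (Eventually.of_forall fun _ => abs_nonneg _)
            _ = M := by
                rw [hM, integral_sub_left_eq_self (fun z => |f z|) volume u]
        have : 0 ≤ e * I := by positivity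
        linarith
    have h3 : ∫ u in B, ∫ z in B, f (u - z) ≤ ∫ u in B, ((I + e * I) +
        (Metric.closedBall (0 : E d) L)ᶜ.indicator (fun _ => M) u) := by
      by_cases hint : IntegrableOn (fun u => ∫ z in B, f (u - z)) B
      · refine integral_mono hint ?_ h1
        exact (integrable_const _).add
          ((integrable_const _).indicator Metric.isClosed_closedBall.measurableSet.compl)
      · rw [integral_undef hint]
        refine integral_nonneg fun u => ?_
        have : 0 ≤ (Metric.closedBall (0 : E d) L)ᶜ.indicator (fun _ => M) u :=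
          Set.indicator_nonneg (fun _ _ => hM0) _
        simp only [Pi.zero_apply]
        positivity
    refine h3.trans ?_
    rw [integral_add (integrable_const _)
      ((integrable_const _).indicator Metric.isClosed_closedBall.measurableSet.compl),
      integral_indicator Metric.isClosed_closedBall.measurableSet.compl,
      Measure.restrict_restrict Metric.isClosed_closedBall.measurableSet.compl,
      integral_const, integral_const, smul_eq_mul, smul_eq_mul]
    have h4 : (volume.restrict B).real Set.univ = W := by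
      rw [measureReal_restrict_apply MeasurableSet.univ, Set.univ_inter, hW, hB]
    have h5 : (volume.restrict ((Metric.closedBall (0 : E d) L)ᶜ ∩ B)).real Set.univ = W - V := by
      rw [measureReal_restrict_apply MeasurableSet.univ, Set.univ_inter, hW, hV, ← hB,
        Set.inter_comm, ← Set.diff_eq, measureReal_diff _ Metric.isClosed_closedBall.measurableSet]
      rw [hB]
      exact Metric.closedBall_subset_closedBall (by linarith)
    rw [h4, h5]
    have h6 : (W - V) * M ≤ W * (e * I) := by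
      have h7 : W - V ≤ κ * V := by linarith
      calc (W - V) * M ≤ κ * V * M := mul_le_mul_of_nonneg_right h7 hM0
        _ = V * (κ * M) := by ring
        _ ≤ W * (e * I) := mul_le_mul hVW hκM (by positivity) hW0.le
    linarith
  -- the mixed term
  obtain ⟨c, hc⟩ : ∃ c : ℝ, c = ∑ x ∈ X, a x := ⟨_, rfl⟩
  have hc0 : 0 ≤ c := by rw [hc]; exact Finset.sum_nonneg ha
  have hP : c * (I - e * I) ≤ ∑ x ∈ X, a x * (∫ z in B, f (x - z)) := by
    rw [hc, Finset.sum_mul]
    refine Finset.sum_le_sum fun x hx => mul_le_mul_of_nonneg_left ?_ (ha x hx)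
    have h2 := (abs_le.1 (ball_part hf.integrable hl (hX x hx))).1
    rw [← hIdef, ← hB] at h2
    linarith
  obtain ⟨D, hD⟩ : ∃ D : ℝ, D = W * (I + 2 * (e * I)) := ⟨_, rfl⟩
  have hD0 : 0 < D := by rw [hD]; positivity
  rw [← hD] at hR
  obtain ⟨Q, hQ⟩ : ∃ Q : ℝ, Q = ∑ x ∈ X, ∑ z ∈ X, a x * a z * f (x - z) := ⟨_, rfl⟩
  have hm := quad_mix hf hBm hBt X a (c * (I - e * I) / D)
  rw [← hQ] at hm ⊢
  rw [← hc]
  have hIe : 0 ≤ I - e * I := by nlinarith
  obtain ⟨p, hp⟩ : ∃ p : ℝ, p = c * (I - e * I) := ⟨_, rfl⟩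
  rw [← hp] at hP hm
  have hp0 : 0 ≤ p := by rw [hp]; positivity
  have h7 : 0 ≤ Q - 2 * (p / D) * p + (p / D) ^ 2 * D := by
    refine hm.trans ?_
    have h8 : 2 * (p / D) * p ≤ 2 * (p / D) * ∑ x ∈ X, a x * (∫ z in B, f (x - z)) :=
      mul_le_mul_of_nonneg_left hP (by positivity)
    have h9 : (p / D) ^ 2 * ∫ u in B, ∫ z in B, f (u - z) ≤ (p / D) ^ 2 * D :=
      mul_le_mul_of_nonneg_left hR (by positivity)
    linarith
  have h8 : p ^ 2 ≤ Q * D := by
    have h9 : Q - 2 * (p / D) * p + (p / D) ^ 2 * D = Q - p ^ 2 / D := by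
      field_simp
      ring
    rw [h9, sub_nonneg, div_le_iff₀ hD0] at h7
    exact h7
  have hQ0 : 0 ≤ Q := by
    by_contra hneg
    rw [not_le] at hneg
    have : Q * D < 0 := mul_neg_of_neg_of_pos hneg hD0
    nlinarith [sq_nonneg p]
  have h9 : D ≤ (1 + e) * V * (I * (1 + 2 * e)) := by
    rw [hD]
    have : W ≤ (1 + e) * V := hWV.trans (by nlinarith)
    calc W * (I + 2 * (e * I)) = W * (I * (1 + 2 * e)) := by ring
      _ ≤ (1 + e) * V * (I * (1 + 2 * e)) := mul_le_mul_of_nonneg_right this (by positivity)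
  have h10 : p ^ 2 ≤ Q * V * (I * ((1 + e) * (1 + 2 * e))) := by
    refine h8.trans ((mul_le_mul_of_nonneg_left h9 hQ0).trans (le_of_eq ?_))
    ring
  have h11 : p ^ 2 = c ^ 2 * I * (I * (1 - e) ^ 2) := by rw [hp]; ring
  rw [h11] at h10
  have h12 : c ^ 2 * I * (1 - e) ^ 2 ≤ Q * V * ((1 + e) * (1 + 2 * e)) := by
    have h13 : I * (c ^ 2 * I * (1 - e) ^ 2) ≤ I * (Q * V * ((1 + e) * (1 + 2 * e))) := by
      linarith
    exact le_of_mul_le_mul_left h13 hI
  have hQV : 0 ≤ Q * V := by positivity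
  have hcI : 0 ≤ c ^ 2 * I := by positivity
  have h14 : (1 + e) * (1 + 2 * e) ≤ 1 + 5 * e := by nlinarith
  have h15 : c ^ 2 * I * (1 - 2 * e) ≤ Q * V * (1 + 5 * e) := by
    have h16 := mul_le_mul_of_nonneg_left h14 hQV
    have h17 : c ^ 2 * I * (1 - 2 * e) ≤ c ^ 2 * I * (1 - e) ^ 2 :=
      mul_le_mul_of_nonneg_left (by nlinarith [sq_nonneg e]) hcI
    linarith
  rcases le_or_gt 1 (7 * e) with h18 | h18
  · have : c ^ 2 * (I * (1 - η)) ≤ 0 := by
      rw [← mul_assoc]
      exact mul_nonpos_of_nonneg_of_nonpos hcI (by linarith)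
    linarith [mul_comm Q V]
  · have h19 : c ^ 2 * I * (1 - 7 * e) * (1 + 5 * e) ≤ Q * V * (1 + 5 * e) := by
      refine le_trans ?_ h15
      rw [mul_assoc]
      exact mul_le_mul_of_nonneg_left (by nlinarith [sq_nonneg e]) hcI
    have h20 := le_of_mul_le_mul_right h19 (by positivity)
    have h21 : c ^ 2 * I * (1 - η) ≤ c ^ 2 * I * (1 - 7 * e) :=
      mul_le_mul_of_nonneg_left (by linarith) hcI
    linarith [mul_comm Q V]

end Pool.Agent.Y509.KP
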