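import Mathlib
import Pool.Agent.Y570.KP.Cond

/-!
The product pseudo-mass satisfies the constraints of the `k`-point semidefinite program, also for
large `k`, if the activity is small compared with the number of points.
-/

set_option autoImplicit false
set_option linter.unusedSectionVars false

namespace Pool.Agent.Y509.KP

open Finset Pool.Agent.Y570.KP

section

variable {X : Type} [Fintype X] [DecidableEq X] {G : X → X → ℝ} {K L ρ : ℝ}

/-- the upper bound of the corrections -/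
lemma QQ_upper' (hG : Good G K L) (hK : 1 ≤ K) (hL : 0 < L) (hρ : 0 ≤ ρ) (D F : Finset X) {k : ℕ}
    (hDF : Disjoint D F) (hD : D.card ≤ k) (hF : F.card ≤ k) (a : Option X → ℝ)
    (ha : ∀ x ∈ F, a (some x) = 0) :
    |QQ ρ G (D ∪ F) a| ≤ yy ρ G (D ∪ F) *
      (2 * (a none + ∑ x ∈ D, a (some x) + ∑ x, vv ρ G D x * a (some x)) ^ 2 +
      (2 * (ρ * Fintype.card X * K ^ (3 * k)) + K ^ k + L * (ρ * K ^ (2 * k)) * K ^ k) *
        ∑ x, vv ρ G D x * a (some x) ^ 2) := by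
  rw [QQ_eq hG, abs_mul, abs_of_nonneg (yy_nonneg hρ _)]
  refine mul_le_mul_of_nonneg_left ?_ (yy_nonneg hρ _)
  have hK0 : 0 ≤ K := by linarith
  obtain ⟨v, hv⟩ : ∃ v : X → ℝ, v = vv ρ G D := ⟨_, rfl⟩
  obtain ⟨g, hg⟩ : ∃ g : X → ℝ, g = fun x => ∏ s ∈ F, G x s := ⟨_, rfl⟩
  have hvv : ∀ x, vv ρ G (D ∪ F) x = v x * g x := fun x => by rw [vv_union ρ G hDF, hv, hg]
  have hv0 : ∀ x, 0 ≤ v x := fun x => by rw [hv]; exact vv_nonneg hG hρ D x
  have hg0 : ∀ x, 0 ≤ g x := fun x => by rw [hg]; exact prod_nonneg' hG F x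
  have hvle : ∀ x, v x ≤ ρ * K ^ k := fun x => by rw [hv]; exact vv_le hG hK hρ D x hD
  have hgle : ∀ x, g x ≤ K ^ k := fun x => by rw [hg]; exact prod_le hG hK F x hF
  have hKk : 1 ≤ K ^ k := one_le_pow₀ hK
  obtain ⟨b, hb⟩ : ∃ b : X → ℝ, b = fun x => a (some x) := ⟨_, rfl⟩
  have hsumDF : ∑ x ∈ D ∪ F, a (some x) = ∑ x ∈ D, a (some x) := by
    rw [Finset.sum_union hDF, Finset.sum_eq_zero ha, add_zero]
  rw [hsumDF]
  simp only [hvv]
  rw [← hv]
  obtain ⟨B, hB⟩ : ∃ B : ℝ, B = a none + ∑ x ∈ D, a (some x) + ∑ x, v x * a (some x) := ⟨_, rfl⟩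
  obtain ⟨V, hV⟩ : ∃ V : ℝ, V = ∑ x, v x * a (some x) ^ 2 := ⟨_, rfl⟩
  have hV0 : 0 ≤ V := by
    rw [hV]
    exact Finset.sum_nonneg fun x _ => mul_nonneg (hv0 x) (sq_nonneg _)
  obtain ⟨T, hT⟩ : ∃ T : ℝ, T = ∑ x, v x * (g x - 1) * a (some x) := ⟨_, rfl⟩
  have e1 : a none + ∑ x ∈ D, a (some x) + ∑ x, v x * g x * a (some x) = B + T := by
    rw [hB, hT, add_assoc (a none + _), ← Finset.sum_add_distrib]
    congr 1
    refine Finset.sum_congr rfl fun x _ => ?_
    ring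
  rw [e1, ← hB, ← hV]
  -- the square of T
  have hT2 : T ^ 2 ≤ (ρ * Fintype.card X * K ^ (3 * k)) * V := by
    have c1 : T ^ 2 ≤ (∑ x, v x * (g x - 1) ^ 2) * V := by
      have c2 := Finset.sum_mul_sq_le_sq_mul_sq Finset.univ (fun x => √(v x) * (g x - 1))
        (fun x => √(v x) * a (some x))
      have c3 : ∑ x, √(v x) * (g x - 1) * (√(v x) * a (some x)) = T := by
        rw [hT]
        refine Finset.sum_congr rfl fun x _ => ?_
        have := Real.mul_self_sqrt (hv0 x)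
        calc √(v x) * (g x - 1) * (√(v x) * a (some x)) =
            (√(v x) * √(v x)) * (g x - 1) * a (some x) := by ring
          _ = _ := by rw [this]
      have c4 : ∑ x, (√(v x) * (g x - 1)) ^ 2 = ∑ x, v x * (g x - 1) ^ 2 := by
        refine Finset.sum_congr rfl fun x _ => ?_
        rw [mul_pow, Real.sq_sqrt (hv0 x)]
      have c5 : ∑ x, (√(v x) * a (some x)) ^ 2 = V := by
        rw [hV]
        refine Finset.sum_congr rfl fun x _ => ?_
        rw [mul_pow, Real.sq_sqrt (hv0 x)]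
      rw [c3, c4, c5] at c2
      exact c2
    have c6 : ∑ x, v x * (g x - 1) ^ 2 ≤ ρ * Fintype.card X * K ^ (3 * k) := by
      have c7 : ∀ x, v x * (g x - 1) ^ 2 ≤ ρ * K ^ (3 * k) := by
        intro x
        have c8 : |g x - 1| ≤ K ^ k := abs_le.2 ⟨by linarith [hg0 x], by linarith [hgle x]⟩
        have c9 : (g x - 1) ^ 2 ≤ (K ^ k) ^ 2 := by
          rw [← sq_abs]
          exact pow_le_pow_left₀ (abs_nonneg _) c8 2
        calc v x * (g x - 1) ^ 2 ≤ (ρ * K ^ k) * (K ^ k) ^ 2 :=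
              mul_le_mul (hvle x) c9 (sq_nonneg _) (mul_nonneg hρ (pow_nonneg hK0 _))
          _ = ρ * K ^ (3 * k) := by
              rw [← pow_mul, mul_assoc, ← pow_add]
              congr 2
              ring
      calc ∑ x, v x * (g x - 1) ^ 2 ≤ ∑ _x : X, ρ * K ^ (3 * k) :=
            Finset.sum_le_sum fun x _ => c7 x
        _ = ρ * Fintype.card X * K ^ (3 * k) := by
            rw [Finset.sum_const, nsmul_eq_mul, Finset.card_univ]
            ring
    exact c1.trans (mul_le_mul_of_nonneg_right c6 hV0)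
  have hS1 : ∑ x, v x * g x * a (some x) ^ 2 ≤ K ^ k * V := by
    rw [hV, Finset.mul_sum]
    refine Finset.sum_le_sum fun x _ => ?_
    have : v x * g x * a (some x) ^ 2 = g x * (v x * a (some x) ^ 2) := by ring
    rw [this]
    exact mul_le_mul_of_nonneg_right (hgle x) (mul_nonneg (hv0 x) (sq_nonneg _))
  have hS0 : 0 ≤ ∑ x, v x * g x * a (some x) ^ 2 :=
    Finset.sum_nonneg fun x _ => mul_nonneg (mul_nonneg (hv0 x) (hg0 x)) (sq_nonneg _)
  have hq := quad_le hG hL.le (fun x => v x * g x) (ρ * K ^ (2 * k))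
    (fun x => mul_nonneg (hv0 x) (hg0 x)) (fun x => by
      have : K ^ (2 * k) = K ^ k * K ^ k := by
        rw [← pow_add]
        congr 1
        ring
      rw [this, ← mul_assoc]
      exact mul_le_mul (hvle x) (hgle x) (hg0 x) (mul_nonneg hρ (pow_nonneg hK0 _)))
    (fun x => a (some x))
  have hq2 : L * (ρ * K ^ (2 * k)) * ∑ x, v x * g x * a (some x) ^ 2 ≤
      L * (ρ * K ^ (2 * k)) * (K ^ k * V) :=
    mul_le_mul_of_nonneg_left hS1 (by positivity)
  have hBT : (B + T) ^ 2 ≤ 2 * B ^ 2 + 2 * T ^ 2 := by nlinarith [sq_nonneg (B - T)]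
  rw [abs_le]
  have hq3 := abs_le.1 hq
  have hBT0 := sq_nonneg (B + T)
  have hT0 := sq_nonneg T
  have hB0 := sq_nonneg B
  have hp : 0 ≤ K ^ k * V := mul_nonneg (pow_nonneg hK0 _) hV0
  have hc0 : 0 ≤ (ρ * Fintype.card X * K ^ (3 * k)) * V := hT0.trans hT2
  constructor
  · have := hq3.1
    nlinarith
  · have := hq3.2
    nlinarith

/-- the smallness of `ρ` -/
structure Small2 (K L ρ : ℝ) (N k : ℕ) : Prop where
  K1 : 1 ≤ K
  L0 : 0 < L
  ρ0 : 0 < ρ
  half : L * (ρ * K ^ k) ≤ 1 / 2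
  small : 2 ^ k * (ρ * K ^ k) * (2 + (2 * (ρ * N * K ^ (3 * k)) + K ^ k +
    L * (ρ * K ^ (2 * k)) * K ^ k)) ≤ 1 / 2

theorem nonneg_all' {k : ℕ} (hG : Good G K L) (hS : Small2 K L ρ (Fintype.card X) k)
    (D E : Finset X) (h : D.card + E.card ≤ k) : 0 ≤ Pool.Agent.Y570.KP.cond (yy ρ G) D E ∅ := by
  by_cases hDE : Disjoint D E
  swap
  · obtain ⟨e, he⟩ := Finset.not_disjoint_iff.1 hDE
    rw [cond_zero _ he.2 (Finset.mem_union_left _ he.1)]
  have hK := hS.K1
  have hρ := hS.ρ0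
  have hK0 : 0 < K := by linarith [hS.K1]
  have hL0 : 0 < L := hS.L0
  unfold Pool.Agent.Y570.KP.cond
  rw [← Finset.add_sum_erase _ _ (Finset.empty_mem_powerset E)]
  simp only [Finset.card_empty, pow_zero, one_mul, Finset.union_empty]
  have hy := yy_nonneg hρ.le (G := G) D
  have hC0 : 0 ≤ 2 * (ρ * Fintype.card X * K ^ (3 * k)) + K ^ k +
    L * (ρ * K ^ (2 * k)) * K ^ k := by positivity
  have hb : 2 ^ k * (ρ * K ^ k) ≤ 1 := by
    have h1 : 0 < 2 ^ k * (ρ * K ^ k) := by positivity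
    have h2 := hS.small
    nlinarith [mul_nonneg h1.le hC0]
  have hb1 : ρ * K ^ k ≤ 1 := by
    have : ρ * K ^ k ≤ 2 ^ k * (ρ * K ^ k) :=
      le_mul_of_one_le_left (by positivity) (one_le_pow₀ (by norm_num))
    linarith
  have h6 : ∀ F ∈ E.powerset.erase ∅, -(yy ρ G D * (ρ * K ^ k)) ≤ (-1) ^ F.card * yy ρ G (D ∪ F) := by
    intro F hF
    rw [Finset.mem_erase, Finset.mem_powerset] at hF
    have hd : Disjoint D F := Finset.disjoint_of_subset_right hF.2 hDE
    have hcF : F.card ≤ E.card := Finset.card_le_card hF.2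
    have h7 := yy_union_le hG hK hρ.le D F hd (k := k) (by omega)
    have h8 : (ρ * K ^ k) ^ F.card ≤ ρ * K ^ k := by
      have h9 : 1 ≤ F.card := Finset.card_pos.2 (Finset.nonempty_iff_ne_empty.2 hF.1)
      calc (ρ * K ^ k) ^ F.card ≤ (ρ * K ^ k) ^ 1 :=
            pow_le_pow_of_le_one (by positivity) hb1 h9
        _ = ρ * K ^ k := pow_one _
    have h10 : yy ρ G (D ∪ F) ≤ yy ρ G D * (ρ * K ^ k) :=
      h7.trans (mul_le_mul_of_nonneg_left h8 hy)
    have h11 : |(-1 : ℝ) ^ F.card * yy ρ G (D ∪ F)| = yy ρ G (D ∪ F) := by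
      rw [abs_mul, abs_pow, abs_neg, abs_one, one_pow, one_mul, abs_of_nonneg (yy_nonneg hρ.le _)]
    have h12 := neg_abs_le ((-1 : ℝ) ^ F.card * yy ρ G (D ∪ F))
    linarith
  have h13 := Finset.card_nsmul_le_sum _ _ _ h6
  rw [nsmul_eq_mul] at h13
  have h14 : ((E.powerset.erase ∅).card : ℝ) ≤ 2 ^ k := by
    have e1 : (E.powerset.erase ∅).card ≤ 2 ^ E.card := by
      rw [← Finset.card_powerset]
      exact Finset.card_erase_le
    have e2 : 2 ^ E.card ≤ 2 ^ k := Nat.pow_le_pow_right (by norm_num) (by omega)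
    exact_mod_cast e1.trans e2
  have h15 : ((E.powerset.erase ∅).card : ℝ) * (yy ρ G D * (ρ * K ^ k)) ≤
      2 ^ k * (yy ρ G D * (ρ * K ^ k)) := mul_le_mul_of_nonneg_right h14 (by positivity)
  have h16 : 2 ^ k * (yy ρ G D * (ρ * K ^ k)) ≤ yy ρ G D := by
    calc 2 ^ k * (yy ρ G D * (ρ * K ^ k)) = 2 ^ k * (ρ * K ^ k) * yy ρ G D := by ring
      _ ≤ 1 * yy ρ G D := mul_le_mul_of_nonneg_right hb hy
      _ = _ := one_mul _
  linarith

theorem psd_all' {k : ℕ} (hG : Good G K L) (hS : Small2 K L ρ (Fintype.card X) k)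
    (D E : Finset X) (h : D.card + E.card ≤ k) (a : Option X → ℝ) :
    0 ≤ ∑ s : Option X, ∑ t : Option X,
      a s * a t * Pool.Agent.Y570.KP.cond (yy ρ G) D E (s.toFinset ∪ t.toFinset) := by
  by_cases hDE : Disjoint D E
  swap
  · obtain ⟨e, he⟩ := Finset.not_disjoint_iff.1 hDE
    refine le_of_eq (Eq.symm ?_)
    refine Finset.sum_eq_zero fun s _ => Finset.sum_eq_zero fun t _ => ?_
    rw [cond_zero _ he.2 (Finset.mem_union_left _ he.1), mul_zero]
  have hK := hS.K1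
  have hρ := hS.ρ0
  have hK0 : 0 < K := by linarith [hS.K1]
  have hL0 : 0 < L := hS.L0
  -- remove the rows of `E`
  obtain ⟨b, hb⟩ : ∃ b : Option X → ℝ, b = fun s => if s.toFinset ⊆ E ∧ s.isSome then 0 else a s :=
    ⟨_, rfl⟩
  have hbE : ∀ x ∈ E, b (some x) = 0 := by
    intro x hx
    rw [hb]
    simp [hx]
  have hab : ∀ s : Option X, (∀ e ∈ E, e ∉ s.toFinset) → a s = b s := by
    intro s hs
    rw [hb]
    rcases s with - | x
    · simp
    · have : x ∉ E := fun hx => hs x hx (by simp)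
      simp [this]
  have hrep : ∑ s : Option X, ∑ t : Option X,
      a s * a t * Pool.Agent.Y570.KP.cond (yy ρ G) D E (s.toFinset ∪ t.toFinset) =
      ∑ s : Option X, ∑ t : Option X,
        b s * b t * Pool.Agent.Y570.KP.cond (yy ρ G) D E (s.toFinset ∪ t.toFinset) := by
    refine Finset.sum_congr rfl fun s _ => Finset.sum_congr rfl fun t _ => ?_
    by_cases hc : ∃ e ∈ E, e ∈ s.toFinset ∪ t.toFinset
    · obtain ⟨e, he1, he2⟩ := hc
      rw [cond_zero _ he1 (Finset.mem_union_right _ he2), mul_zero, mul_zero]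
    · push Not at hc
      rw [hab s fun e he h' => hc e he (Finset.mem_union_left _ h'),
        hab t fun e he h' => hc e he (Finset.mem_union_right _ h')]
  rw [hrep]
  -- the alternating sum of the forms
  have halt : ∑ s : Option X, ∑ t : Option X,
      b s * b t * Pool.Agent.Y570.KP.cond (yy ρ G) D E (s.toFinset ∪ t.toFinset) =
      ∑ F ∈ E.powerset, (-1) ^ F.card * QQ ρ G (D ∪ F) b := by
    unfold Pool.Agent.Y570.KP.cond QQ
    simp_rw [Finset.mul_sum]
    rw [Finset.sum_comm' (s := E.powerset) (t := fun _ => (Finset.univ : Finset (Option X)))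
      (t' := (Finset.univ : Finset (Option X))) (s' := fun _ => E.powerset) (by simp)]
    refine Finset.sum_congr rfl fun s _ => ?_
    rw [Finset.sum_comm' (s := E.powerset) (t := fun _ => (Finset.univ : Finset (Option X)))
      (t' := (Finset.univ : Finset (Option X))) (s' := fun _ => E.powerset) (by simp)]
    refine Finset.sum_congr rfl fun t _ => Finset.sum_congr rfl fun F _ => ?_
    ring
  rw [halt, ← Finset.add_sum_erase _ _ (Finset.empty_mem_powerset E)]
  simp only [Finset.card_empty, pow_zero, one_mul, Finset.union_empty]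
  have hy := yy_nonneg hρ.le (G := G) D
  -- the main term
  have hmain := QQ_lower hG hK hL0.le hρ.le D (k := k) (by omega) hS.half b
  obtain ⟨B2, hB2⟩ : ∃ B2 : ℝ, B2 = (b none + ∑ x ∈ D, b (some x) +
    ∑ x, vv ρ G D x * b (some x)) ^ 2 := ⟨_, rfl⟩
  obtain ⟨V, hV⟩ : ∃ V : ℝ, V = ∑ x, vv ρ G D x * b (some x) ^ 2 := ⟨_, rfl⟩
  have hB20 : 0 ≤ B2 := by rw [hB2]; exact sq_nonneg _
  have hV0 : 0 ≤ V := by
    rw [hV]
    exact Finset.sum_nonneg fun x _ => mul_nonneg (vv_nonneg hG hρ.le D x) (sq_nonneg _)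
  rw [← hB2, ← hV] at hmain
  obtain ⟨C, hC⟩ : ∃ C : ℝ, C = 2 * (ρ * Fintype.card X * K ^ (3 * k)) + K ^ k +
    L * (ρ * K ^ (2 * k)) * K ^ k := ⟨_, rfl⟩
  have hC0 : 0 ≤ C := by rw [hC]; positivity
  have hsm := hS.small
  rw [← hC] at hsm
  have hq0 : 0 < 2 ^ k * (ρ * K ^ k) := by positivity
  have hbK : ρ * K ^ k ≤ 1 := by
    have h1 : ρ * K ^ k ≤ 2 ^ k * (ρ * K ^ k) :=
      le_mul_of_one_le_left (by positivity) (one_le_pow₀ (by norm_num))
    nlinarith [mul_nonneg hq0.le hC0]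
  have hcor : ∀ F ∈ E.powerset.erase ∅, -(yy ρ G D * (ρ * K ^ k) * (2 * B2 + C * V)) ≤
      (-1) ^ F.card * QQ ρ G (D ∪ F) b := by
    intro F hF
    rw [Finset.mem_erase, Finset.mem_powerset] at hF
    have hd : Disjoint D F := Finset.disjoint_of_subset_right hF.2 hDE
    have hcF : F.card ≤ E.card := Finset.card_le_card hF.2
    have h7 := yy_union_le hG hK hρ.le D F hd (k := k) (by omega)
    have h8 : (ρ * K ^ k) ^ F.card ≤ ρ * K ^ k := by
      have h9 : 1 ≤ F.card := Finset.card_pos.2 (Finset.nonempty_iff_ne_empty.2 hF.1)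
      calc (ρ * K ^ k) ^ F.card ≤ (ρ * K ^ k) ^ 1 :=
            pow_le_pow_of_le_one (by positivity) hbK h9
        _ = ρ * K ^ k := pow_one _
    have h10 : yy ρ G (D ∪ F) ≤ yy ρ G D * (ρ * K ^ k) :=
      h7.trans (mul_le_mul_of_nonneg_left h8 hy)
    have h11 := QQ_upper' hG hK hL0 hρ.le D F hd (k := k) (by omega) (by omega) b
      (fun x hx => hbE x (hF.2 hx))
    rw [← hB2, ← hV, ← hC] at h11
    have h12 : |(-1 : ℝ) ^ F.card * QQ ρ G (D ∪ F) b| = |QQ ρ G (D ∪ F) b| := by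
      rw [abs_mul, abs_pow, abs_neg, abs_one, one_pow, one_mul]
    have h13 := neg_abs_le ((-1 : ℝ) ^ F.card * QQ ρ G (D ∪ F) b)
    have h14 : yy ρ G (D ∪ F) * (2 * B2 + C * V) ≤
        yy ρ G D * (ρ * K ^ k) * (2 * B2 + C * V) :=
      mul_le_mul_of_nonneg_right h10 (by positivity)
    linarith
  have h13 := Finset.card_nsmul_le_sum _ _ _ hcor
  rw [nsmul_eq_mul] at h13
  have h14 : ((E.powerset.erase ∅).card : ℝ) ≤ 2 ^ k := by
    have e1 : (E.powerset.erase ∅).card ≤ 2 ^ E.card := by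
      rw [← Finset.card_powerset]
      exact Finset.card_erase_le
    have e2 : 2 ^ E.card ≤ 2 ^ k := Nat.pow_le_pow_right (by norm_num) (by omega)
    exact_mod_cast e1.trans e2
  have h15 : ((E.powerset.erase ∅).card : ℝ) * (yy ρ G D * (ρ * K ^ k) * (2 * B2 + C * V)) ≤
      2 ^ k * (yy ρ G D * (ρ * K ^ k) * (2 * B2 + C * V)) :=
    mul_le_mul_of_nonneg_right h14 (by positivity)
  -- the constants
  have c1 : 2 ^ k * (ρ * K ^ k) * 2 ≤ 1 := by nlinarith [mul_nonneg hq0.le hC0]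
  have c2 : 2 ^ k * (ρ * K ^ k) * C ≤ 1 / 2 := by nlinarith
  have h16 : 2 ^ k * (yy ρ G D * (ρ * K ^ k) * (2 * B2 + C * V)) ≤
      yy ρ G D * (B2 + 1 / 2 * V) := by
    have e1 : 2 ^ k * (yy ρ G D * (ρ * K ^ k) * (2 * B2 + C * V)) =
        yy ρ G D * ((2 ^ k * (ρ * K ^ k) * 2) * B2 + (2 ^ k * (ρ * K ^ k) * C) * V) := by ring
    rw [e1]
    refine mul_le_mul_of_nonneg_left ?_ hy
    have e2 := mul_le_mul_of_nonneg_right c1 hB20
    have e3 := mul_le_mul_of_nonneg_right c2 hV0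
    linarith
  linarith

end

end Pool.Agent.Y509.KP
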