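import Mathlib
import Pool.Agent.Y509.KP.Auto

/-!
Grids with many points in a bounded measurable set.
-/

set_option autoImplicit false

open MeasureTheory Filter Topology Module

open scoped ENNReal

namespace Pool.Agent.Y509.KP

variable {d : ℕ}

/-- a small scaled copy of the standard basis -/
noncomputable def bas (d : ℕ) {h : ℝ} (hh : h ≠ 0) : Basis (Fin d) ℝ (E d) :=
  (EuclideanSpace.basisFun (Fin d) ℝ).toBasis.isUnitSMul (w := fun _ => h)
    (fun _ => isUnit_iff_ne_zero.2 hh)

lemma bas_norm {h : ℝ} (hh : h ≠ 0) (i : Fin d) : ‖bas d hh i‖ = |h| := by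
  unfold bas
  rw [Basis.isUnitSMul_apply, norm_smul, Real.norm_eq_abs]
  simp

theorem exists_grid {Λ : Set (E d)} (hΛ : MeasurableSet Λ) (hb : Bornology.IsBounded Λ)
    {δ : ℝ} (hδ : 0 < δ) :
    ∃ (X : Finset (E d)) (F : Set (E d)), (X : Set (E d)) ⊆ Λ ∧ MeasurableSet F ∧
      0 < volume.real F ∧ volume F ≠ ∞ ∧ F ⊆ Metric.closedBall 0 δ ∧
      (∀ x ∈ X, ∀ y ∈ X, x ≠ y → ∀ a ∈ F, ∀ b ∈ F, x + a ≠ y + b) ∧
      volume.real Λ ≤ X.card * volume.real F := by
  classical
  obtain ⟨h, hhdef⟩ : ∃ h : ℝ, h = δ / (d + 1) := ⟨_, rfl⟩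
  have hh0 : 0 < h := by rw [hhdef]; positivity
  obtain ⟨b, hbdef⟩ : ∃ b : Basis (Fin d) ℝ (E d), b = bas d hh0.ne' := ⟨_, rfl⟩
  obtain ⟨F, hF⟩ : ∃ F : Set (E d), F = ZSpan.fundamentalDomain b := ⟨_, rfl⟩
  have hdom := ZSpan.isAddFundamentalDomain b (volume : Measure (E d))
  rw [← hF] at hdom
  have hFm : MeasurableSet F := by rw [hF]; exact ZSpan.fundamentalDomain_measurableSet b
  have hFb : Bornology.IsBounded F := by rw [hF]; exact ZSpan.fundamentalDomain_isBounded b
  have hFt : volume F ≠ ∞ := hFb.measure_lt_top.ne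
  have hF0 : volume F ≠ 0 := by rw [hF]; exact ZSpan.measure_fundamentalDomain_ne_zero b
  have hΛt : volume Λ ≠ ∞ := hb.measure_lt_top.ne
  have hFδ : F ⊆ Metric.closedBall 0 δ := by
    intro x hx
    rw [mem_closedBall_zero_iff]
    have h1 : ZSpan.fract b x = x := by
      rw [ZSpan.fract_eq_self, ← hF]
      exact hx
    rw [← h1]
    refine (ZSpan.norm_fract_le b x).trans ?_
    rw [hbdef]
    simp_rw [bas_norm]
    rw [Finset.sum_const, Finset.card_univ, Fintype.card_fin, nsmul_eq_mul, abs_of_pos hh0, hhdef]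
    rw [mul_div_assoc', div_le_iff₀ (by positivity)]
    nlinarith
  -- the counting function
  obtain ⟨c, hc⟩ : ∃ c : E d → ℝ≥0∞, c = fun x =>
      ∑' g : (Submodule.span ℤ (Set.range b)), Λ.indicator (fun _ => (1 : ℝ≥0∞)) ((g : E d) + x) :=
    ⟨_, rfl⟩
  have hinv : VAddInvariantMeasure (Submodule.span ℤ (Set.range b)) (E d) volume :=
    inferInstanceAs <| VAddInvariantMeasure
      (Submodule.span ℤ (Set.range b)).toAddSubgroup (E d) volume
  have hint : ∫⁻ x in F, c x = volume Λ := by
    have h1 := hdom.lintegral_eq_tsum'' (Λ.indicator fun _ => (1 : ℝ≥0∞))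
    rw [lintegral_indicator hΛ, setLIntegral_one] at h1
    rw [h1, hc, lintegral_tsum]
    · rfl
    · intro g
      apply Measurable.aemeasurable
      exact (measurable_const.indicator hΛ).comp (measurable_const_add _)
  obtain ⟨x, hx, hxc⟩ := exists_setLAverage_le (μ := volume) (s := F) (f := c) hF0
    hFm.nullMeasurableSet (by rw [hint]; exact hΛt)
  rw [setLAverage_eq, hint] at hxc
  have hxc' : volume Λ ≤ c x * volume F := (ENNReal.div_le_iff hF0 hFt).1 hxc
  -- the finite set
  have hfin : {g : (Submodule.span ℤ (Set.range b)) | (g : E d) + x ∈ Λ}.Finite := by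
    have h2 : ((fun y => y - x) '' Λ ∩ (Submodule.span ℤ (Set.range b) : Set (E d))).Finite := by
      apply ZSpan.setFinite_inter
      exact (IsometryEquiv.subRight x).isometry.lipschitz.isBounded_image hb
    refine Set.Finite.of_finite_image (f := fun g : (Submodule.span ℤ (Set.range b)) => (g : E d))
      (h2.subset ?_) (Subtype.val_injective.injOn)
    rintro _ ⟨g, hg, rfl⟩
    refine ⟨⟨(g : E d) + x, hg, ?_⟩, g.2⟩
    simp
  have hcx : c x = (hfin.toFinset.card : ℝ≥0∞) := by
    rw [hc]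
    simp only
    rw [tsum_eq_sum (s := hfin.toFinset)]
    · rw [Finset.sum_congr rfl (g := fun _ => (1 : ℝ≥0∞))]
      · simp
      · intro g hg
        have : (g : E d) + x ∈ Λ := by simpa using hg
        rw [Set.indicator_of_mem this]
    · intro g hg
      have : (g : E d) + x ∉ Λ := by simpa using hg
      rw [Set.indicator_of_notMem this]
  obtain ⟨X, hX⟩ : ∃ X : Finset (E d), X = hfin.toFinset.image
    (fun g : (Submodule.span ℤ (Set.range b)) => (g : E d) + x) := ⟨_, rfl⟩
  have hXcard : X.card = hfin.toFinset.card := by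
    rw [hX]
    apply Finset.card_image_of_injective
    intro g g' hgg
    exact Subtype.ext (add_right_cancel hgg)
  refine ⟨X, F, ?_, hFm, ?_, hFt, hFδ, ?_, ?_⟩
  · intro y hy
    rw [hX] at hy
    simp only [Finset.coe_image, Set.mem_image, Finset.mem_coe, Set.Finite.mem_toFinset] at hy
    obtain ⟨g, hg, rfl⟩ := hy
    exact hg
  · exact ENNReal.toReal_pos hF0 hFt
  · intro y hy z hz hyz a ha a' ha' heq
    rw [hX] at hy hz
    rw [Finset.mem_image] at hy hz
    obtain ⟨g, -, rfl⟩ := hy
    obtain ⟨g', -, rfl⟩ := hz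
    apply hyz
    have h3 : (g : E d) + a = (g' : E d) + a' := by
      have : (g : E d) + a + x = (g' : E d) + a' + x := by
        calc (g : E d) + a + x = (g : E d) + x + a := by abel
          _ = _ := heq
          _ = _ := by abel
      exact add_right_cancel this
    have h4 : ZSpan.fract b ((g : E d) + a) = a := by
      rw [ZSpan.fract_zSpan_add b a g.2, ZSpan.fract_eq_self, ← hF]
      exact ha
    have h5 : ZSpan.fract b ((g' : E d) + a') = a' := by
      rw [ZSpan.fract_zSpan_add b a' g'.2, ZSpan.fract_eq_self, ← hF]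
      exact ha'
    have h6 : a = a' := by rw [← h4, h3, h5]
    rw [h6] at h3
    rw [add_right_cancel h3]
  · rw [hcx, ← hXcard] at hxc'
    have h7 := ENNReal.toReal_mono (ENNReal.mul_ne_top (ENNReal.natCast_ne_top _) hFt) hxc'
    rw [ENNReal.toReal_mul, ENNReal.toReal_natCast] at h7
    exact h7

end Pool.Agent.Y509.KP
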