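import Mathlib
import Pool.Agent.Y509.KP.Abs
import Pool.Agent.Y509.KP.Auto
import Pool.Agent.Y509.KP.QuadW
import Pool.Agent.Y509.KP.Grid
import Pool.Agent.Y509.KP.Defs

/-!
Pseudo-packings of exponential level from the dual function.
-/

set_option autoImplicit false

open MeasureTheory Filter Topology

open scoped FourierTransform ENNReal

namespace Pool.Agent.Y509.KP

variable {d : ℕ}

theorem count_le {F : Set (E d)} (hFm : MeasurableSet F) (Y : Finset (E d))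
    (hdisj : ∀ x ∈ Y, ∀ y ∈ Y, x ≠ y → ∀ a ∈ F, ∀ b ∈ F, x + a ≠ y + b)
    {B : Set (E d)} (hBt : volume B ≠ ∞) (hB : ∀ y ∈ Y, ∀ a ∈ F, y + a ∈ B) :
    Y.card * volume.real F ≤ volume.real B := by
  have h1 : ∀ y : E d, MeasurableSet ((fun a => y + a) '' F) ∧
      volume ((fun a => y + a) '' F) = volume F := by
    intro y
    rw [Set.image_add_left]
    exact ⟨hFm.preimage (measurable_const_add _), measure_preimage_add _ _ _⟩
  have h2 : volume (⋃ y ∈ Y, (fun a => y + a) '' F) = (Y.card : ℝ≥0∞) * volume F := by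
    rw [measure_biUnion_finset]
    · rw [Finset.sum_congr rfl fun y _ => (h1 y).2, Finset.sum_const, nsmul_eq_mul]
    · intro x hx y hy hxy
      rw [Function.onFun, Set.disjoint_left]
      rintro _ ⟨a, ha, rfl⟩ ⟨b, hb, h⟩
      exact hdisj x hx y hy hxy a ha b hb h.symm
    · exact fun y _ => (h1 y).1
  have h3 : (Y.card : ℝ≥0∞) * volume F ≤ volume B := by
    rw [← h2]
    apply measure_mono
    intro z hz
    simp only [Set.mem_iUnion] at hz
    obtain ⟨y, hy, a, ha, rfl⟩ := hz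
    exact hB y hy a ha
  have h4 := ENNReal.toReal_mono hBt h3
  rwa [ENNReal.toReal_mul, ENNReal.toReal_natCast] at h4

section bounds

variable {A v : E d → ℝ} {s M : ℝ}

lemma ww_int (hd : 0 < d) (hAc : Continuous A) (hAs : HasCompactSupport A)
    (hvm : AEStronglyMeasurable v volume) (hvb : ∀ x, x ≠ 0 → |v x| ≤ M) (hs : 0 < s) (t : E d) :
    Integrable (fun u => A u * v (s • (t + u))) := by
  have : Nonempty (Fin d) := ⟨⟨0, hd⟩⟩
  have : Nontrivial (E d) := by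
    refine ⟨⟨0, EuclideanSpace.single ⟨0, hd⟩ 1, ?_⟩⟩
    intro h
    have := congrArg (fun x : EuclideanSpace ℝ (Fin d) => x ⟨0, hd⟩) h
    simp at this
  have hAi : Integrable A := hAc.integrable_of_hasCompactSupport hAs
  have hvm' : AEStronglyMeasurable (fun u : E d => v (s • (t + u))) volume := by
    have h3 : AEStronglyMeasurable (fun u : E d => v (s • u)) volume :=
      hvm.comp_quasiMeasurePreserving
        (Measure.quasiMeasurePreserving_smul volume (show s ≠ 0 from hs.ne'))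
    exact h3.comp_measurePreserving (measurePreserving_add_left volume t)
  refine hAi.mul_bdd hvm' ?_ (c := M)
  have h3 : ∀ᵐ u : E d, u ≠ -t := by
    have : volume ({-t} : Set (E d)) = 0 := measure_singleton _
    exact measure_eq_zero_iff_ae_notMem.1 this
  filter_upwards [h3] with u hu
  refine hvb _ ?_
  rw [smul_ne_zero_iff]
  exact ⟨hs.ne', fun h => hu (eq_neg_of_add_eq_zero_right h)⟩

lemma ae_ne (hd : 0 < d) (t : E d) : ∀ᵐ u : E d, u ≠ -t := by
  have : Nonempty (Fin d) := ⟨⟨0, hd⟩⟩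
  have : Nontrivial (E d) := by
    refine ⟨⟨0, EuclideanSpace.single ⟨0, hd⟩ 1, ?_⟩⟩
    intro h
    have := congrArg (fun x : EuclideanSpace ℝ (Fin d) => x ⟨0, hd⟩) h
    simp at this
  have : volume ({-t} : Set (E d)) = 0 := measure_singleton _
  exact measure_eq_zero_iff_ae_notMem.1 this

lemma ww_ge (hd : 0 < d) (hAc : Continuous A) (hAs : HasCompactSupport A) (hA0 : ∀ u, 0 ≤ A u)
    (hA1 : ∫ u, A u = 1)
    (hvm : AEStronglyMeasurable v volume) (hvb : ∀ x, x ≠ 0 → |v x| ≤ M) (hs : 0 < s) (t : E d)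
    {l : ℝ} (h : ∀ u, A u ≠ 0 → s • (t + u) ≠ 0 → l ≤ v (s • (t + u))) : l ≤ ww A v s t := by
  have hAi : Integrable A := hAc.integrable_of_hasCompactSupport hAs
  have h1 : l = ∫ u, A u * l := by rw [integral_mul_const, hA1, one_mul]
  rw [h1, ww]
  refine integral_mono_ae (hAi.mul_const l) (ww_int hd hAc hAs hvm hvb hs t) ?_
  filter_upwards [ae_ne hd t] with u hu
  by_cases hAu : A u = 0
  · simp [hAu]
  · refine mul_le_mul_of_nonneg_left (h u hAu ?_) (hA0 u)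
    rw [smul_ne_zero_iff]
    exact ⟨hs.ne', fun h => hu (eq_neg_of_add_eq_zero_right h)⟩

lemma ww_le (hd : 0 < d) (hAc : Continuous A) (hAs : HasCompactSupport A) (hA0 : ∀ u, 0 ≤ A u)
    (hA1 : ∫ u, A u = 1)
    (hvm : AEStronglyMeasurable v volume) (hvb : ∀ x, x ≠ 0 → |v x| ≤ M) (hs : 0 < s) (t : E d)
    {l : ℝ} (h : ∀ u, A u ≠ 0 → s • (t + u) ≠ 0 → v (s • (t + u)) ≤ l) : ww A v s t ≤ l := by
  have hAi : Integrable A := hAc.integrable_of_hasCompactSupport hAs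
  have h1 : l = ∫ u, A u * l := by rw [integral_mul_const, hA1, one_mul]
  rw [h1, ww]
  refine integral_mono_ae (ww_int hd hAc hAs hvm hvb hs t) (hAi.mul_const l) ?_
  filter_upwards [ae_ne hd t] with u hu
  by_cases hAu : A u = 0
  · simp [hAu]
  · refine mul_le_mul_of_nonneg_left (h u hAu ?_) (hA0 u)
    rw [smul_ne_zero_iff]
    exact ⟨hs.ne', fun h => hu (eq_neg_of_add_eq_zero_right h)⟩

end bounds

/-- the autocorrelation adapted to a grid -/
theorem grid_auto {F : Set (E d)} (hFm : MeasurableSet F) (hF0 : 0 < volume.real F)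
    {δ : ℝ} (hδ : 0 < δ) (hFδ : F ⊆ Metric.closedBall 0 δ) (X : Finset (E d))
    (hdisj : ∀ x ∈ X, ∀ y ∈ X, x ≠ y → ∀ a ∈ F, ∀ b ∈ F, x + a ≠ y + b) :
    ∃ A : E d → ℝ, Continuous A ∧ HasCompactSupport A ∧ (∀ u, 0 ≤ A u) ∧ ∫ u, A u = 1 ∧
      A 0 ≤ 2 / volume.real F ∧ (∀ u, A u ≠ 0 → ‖u‖ ≤ 4 * δ) ∧
      (∀ x ∈ X, ∀ y ∈ X, x ≠ y → A (y - x) = 0) ∧
      (∀ ξ, (𝓕 (fun x => (A x : ℂ)) ξ).im = 0) ∧ (∀ ξ, 0 ≤ (𝓕 (fun x => (A x : ℂ)) ξ).re) ∧
      Integrable (𝓕 (fun x => (A x : ℂ))) := by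
  classical
  have hFt : volume F ≠ ∞ := by
    intro h
    rw [measureReal_def, h] at hF0
    simp at hF0
  have hlt : ENNReal.ofReal (volume.real F / 2) < volume F := by
    rw [← ENNReal.ofReal_toReal hFt]
    refine (ENNReal.ofReal_lt_ofReal_iff hF0).2 ?_
    change volume.real F / 2 < volume.real F
    linarith
  obtain ⟨K, hKF, hK, hKv⟩ := hFm.exists_lt_isCompact hlt
  have hKv' : volume.real F / 2 ≤ volume.real K := by
    have h1 := ENNReal.toReal_mono hK.measure_lt_top.ne hKv.le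
    rwa [ENNReal.toReal_ofReal (by positivity)] at h1
  -- the differences
  obtain ⟨Z, hZ⟩ : ∃ Z : Set (E d), Z = (fun p : E d × E d => p.2 - p.1) ''
    {p | p.1 ∈ X ∧ p.2 ∈ X ∧ p.1 ≠ p.2} := ⟨_, rfl⟩
  have hZf : Z.Finite := by
    rw [hZ]
    refine Set.Finite.image _ ((X.finite_toSet.prod X.finite_toSet).subset ?_)
    rintro ⟨a, b⟩ ⟨h1, h2, -⟩
    exact ⟨h1, h2⟩
  obtain ⟨KK, hKK⟩ : ∃ KK : Set (E d), KK = (fun p : E d × E d => p.1 - p.2) '' (K ×ˢ K) :=
    ⟨_, rfl⟩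
  have hKKc : IsCompact KK := by
    rw [hKK]
    exact (hK.prod hK).image (continuous_fst.sub continuous_snd)
  have hdis : Disjoint KK Z := by
    rw [Set.disjoint_left, hKK, hZ]
    rintro z ⟨⟨a, b⟩, ⟨ha, hb⟩, h1⟩ ⟨⟨x, y⟩, ⟨hx, hy, hxy⟩, h2⟩
    simp only at h1 h2 ha hb hx hy hxy
    apply hdisj x hx y hy hxy a (hKF ha) b (hKF hb)
    have : a - b = y - x := h1.trans h2.symm
    calc x + a = x + (a - b) + b := by abel
      _ = x + (y - x) + b := by rw [this]
      _ = y + b := by abel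
  obtain ⟨δ₀, hδ₀, hdis2⟩ := hdis.exists_thickenings hKKc hZf.isClosed
  obtain ⟨δ', hδ'⟩ : ∃ δ' : ℝ, δ' = min δ (δ₀ / 2) := ⟨_, rfl⟩
  have hδ'0 : 0 < δ' := by rw [hδ']; positivity
  have hδ'1 : δ' ≤ δ := by rw [hδ']; exact min_le_left _ _
  have hδ'2 : δ' ≤ δ₀ / 2 := by rw [hδ']; exact min_le_right _ _
  obtain ⟨A, a1, a2, a3, a4, a5, a6, a7, a8, a9⟩ := exists_auto hK (κ := volume.real F / 2)
    (by positivity) hKv' hδ'0
  refine ⟨A, a1, a2, a3, a4, a5.trans (le_of_eq (by rw [one_div_div])), fun u hu => ?_,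
    fun x hx y hy hxy => ?_, a7, a8, a9⟩
  · obtain ⟨a, ha, b, hb, rfl⟩ := a6 u hu
    rw [Metric.mem_thickening_iff] at ha hb
    obtain ⟨a', ha', haa⟩ := ha
    obtain ⟨b', hb', hbb⟩ := hb
    have h1 := mem_closedBall_zero_iff.1 (hFδ (hKF ha'))
    have h2 := mem_closedBall_zero_iff.1 (hFδ (hKF hb'))
    rw [dist_eq_norm] at haa hbb
    have h3 : ‖a‖ ≤ ‖a - a'‖ + ‖a'‖ := by
      calc ‖a‖ = ‖(a - a') + a'‖ := by rw [sub_add_cancel]
        _ ≤ _ := norm_add_le _ _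
    have h4 : ‖b‖ ≤ ‖b - b'‖ + ‖b'‖ := by
      calc ‖b‖ = ‖(b - b') + b'‖ := by rw [sub_add_cancel]
        _ ≤ _ := norm_add_le _ _
    have h5 := norm_sub_le a b
    linarith
  · by_contra hne
    obtain ⟨a, ha, b, hb, hab⟩ := a6 _ hne
    rw [Metric.mem_thickening_iff] at ha hb
    obtain ⟨a', ha', haa⟩ := ha
    obtain ⟨b', hb', hbb⟩ := hb
    have hm1 : y - x ∈ Metric.thickening δ₀ KK := by
      rw [Metric.mem_thickening_iff]
      refine ⟨a' - b', ?_, ?_⟩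
      · rw [hKK]
        exact ⟨(a', b'), ⟨ha', hb'⟩, rfl⟩
      · rw [hab, dist_eq_norm]
        rw [dist_eq_norm] at haa hbb
        have h1 : a - b - (a' - b') = (a - a') - (b - b') := by abel
        rw [h1]
        have h2 := norm_sub_le (a - a') (b - b')
        linarith
    have hm2 : y - x ∈ Metric.thickening δ₀ Z := by
      apply Metric.self_subset_thickening hδ₀
      rw [hZ]
      exact ⟨(x, y), ⟨hx, hy, hxy⟩, rfl⟩
    exact Set.disjoint_left.1 hdis2 hm1 hm2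

end Pool.Agent.Y509.KP
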