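import Mathlib
import Pool.Agent.Y509.KP.Bar

/-!
The kernel of a grid.
-/

set_option autoImplicit false

open MeasureTheory Filter Topology

open scoped FourierTransform ENNReal

namespace Pool.Agent.Y509.KP

open Pool.Agent.Y570.KP

variable {d : ℕ}

/-- properties of the dual function -/
structure Dual (d : ℕ) (ε c : ℝ) (v : E d → ℝ) : Prop where
  meas : AEStronglyMeasurable v volume
  dual : ∀ f : E d → ℂ, Continuous f → Integrable f → Integrable (𝓕 f) →
    (∀ x, (f x).im = 0) → (∀ x, (𝓕 f x).im = 0) →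
    ∫ x, (𝓕 f x).re * v x = ∫ x, (f x).re * v x
  low : ∀ x, x ≠ 0 → -Real.exp (-(c * d)) ≤ v x
  up : ∀ x, x ≠ 0 → √d / Real.pi * Real.exp (-ε) ≤ ‖x‖ → v x ≤ 1
  core : ∀ x, x ≠ 0 → ‖x‖ ≤ √d / Real.pi * Real.exp (-ε) → |1 - v x| ≤ Real.exp (-(d : ℝ))

/-- the symmetric average -/
noncomputable def ws (A v : E d → ℝ) (s : ℝ) (t : E d) : ℝ := (ww A v s t + ww A v s (-t)) / 2

theorem ball_scale {s r : ℝ} (hs : 0 < s) :
    volume.real (Metric.ball (0 : E d) (s * r)) = s ^ d * volume.real (Metric.ball (0 : E d) r) := by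
  have h := Measure.addHaar_ball_mul_of_pos (volume : Measure (E d)) 0 hs r
  rw [finrank_euclideanSpace_fin] at h
  rw [measureReal_def, h, ENNReal.toReal_mul, ENNReal.toReal_ofReal (by positivity)]
  rfl

/-- Schur's test -/
theorem schur (X : Finset (E d)) (e : E d → E d → ℝ) (φ : E d → ℝ) {q N T : ℝ} (hq : 0 ≤ q)
    (he : ∀ x y, |e x y| ≤ if dist x y < T then q else 0)
    (hN : ∀ x, ((X.filter fun y => dist x y < T).card : ℝ) ≤ N) :
    |∑ x ∈ X, ∑ y ∈ X, e x y * φ x * φ y| ≤ q * N * ∑ x ∈ X, φ x ^ 2 := by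
  classical
  have h1 : ∀ x y, |e x y * φ x * φ y| ≤ (if dist x y < T then q else 0) * φ x ^ 2 / 2 +
      (if dist x y < T then q else 0) * φ y ^ 2 / 2 := by
    intro x y
    rw [abs_mul, abs_mul, mul_assoc]
    have h2 : |φ x| * |φ y| ≤ φ x ^ 2 / 2 + φ y ^ 2 / 2 := by
      rw [← sq_abs (φ x), ← sq_abs (φ y)]
      nlinarith [sq_nonneg (|φ x| - |φ y|)]
    calc |e x y| * (|φ x| * |φ y|) ≤ (if dist x y < T then q else 0) * (φ x ^ 2 / 2 + φ y ^ 2 / 2) :=
          mul_le_mul (he x y) h2 (by positivity) (le_trans (abs_nonneg _) (he x y))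
      _ = _ := by ring
  have h3 : ∀ x, ∑ y ∈ X, (if dist x y < T then q else 0) * φ x ^ 2 / 2 ≤ q * N * φ x ^ 2 / 2 := by
    intro x
    have h4 : ∑ y ∈ X, (if dist x y < T then q else 0) * φ x ^ 2 / 2 =
        (∑ y ∈ X, if dist x y < T then q else 0) * φ x ^ 2 / 2 := by
      rw [Finset.sum_mul, Finset.sum_div]
    have h5 : ∑ y ∈ X, (if dist x y < T then q else 0) =
        (X.filter fun y => dist x y < T).card * q := by
      rw [← Finset.sum_filter, Finset.sum_const, nsmul_eq_mul]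
    rw [h4, h5]
    have h6 : ((X.filter fun y => dist x y < T).card : ℝ) * q ≤ q * N := by
      rw [mul_comm]
      exact mul_le_mul_of_nonneg_left (hN x) hq
    have h7 := mul_le_mul_of_nonneg_right h6 (sq_nonneg (φ x))
    linarith
  calc |∑ x ∈ X, ∑ y ∈ X, e x y * φ x * φ y| ≤ ∑ x ∈ X, ∑ y ∈ X, |e x y * φ x * φ y| := by
        refine (Finset.abs_sum_le_sum_abs _ _).trans (Finset.sum_le_sum fun x _ => ?_)
        exact Finset.abs_sum_le_sum_abs _ _
    _ ≤ ∑ x ∈ X, ∑ y ∈ X, ((if dist x y < T then q else 0) * φ x ^ 2 / 2 +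
        (if dist x y < T then q else 0) * φ y ^ 2 / 2) :=
        Finset.sum_le_sum fun x _ => Finset.sum_le_sum fun y _ => h1 x y
    _ = ∑ x ∈ X, ∑ y ∈ X, (if dist x y < T then q else 0) * φ x ^ 2 / 2 +
        ∑ y ∈ X, ∑ x ∈ X, (if dist x y < T then q else 0) * φ y ^ 2 / 2 := by
        rw [Finset.sum_comm (s := X) (t := X)
          (f := fun y x => (if dist x y < T then q else 0) * φ y ^ 2 / 2),
          ← Finset.sum_add_distrib]
        refine Finset.sum_congr rfl fun x _ => ?_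
        rw [Finset.sum_add_distrib]
    _ ≤ ∑ x ∈ X, q * N * φ x ^ 2 / 2 + ∑ y ∈ X, q * N * φ y ^ 2 / 2 := by
        refine add_le_add (Finset.sum_le_sum fun x _ => h3 x) (Finset.sum_le_sum fun y _ => ?_)
        have := h3 y
        simp_rw [dist_comm y] at this
        exact this
    _ = q * N * ∑ x ∈ X, φ x ^ 2 := by
        rw [← Finset.sum_add_distrib, Finset.mul_sum]
        refine Finset.sum_congr rfl fun x _ => ?_
        ring

theorem good_kernel (hd : 0 < d) {ε c : ℝ} (hc : 0 < c) {v : E d → ℝ}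
    (hv : Dual d ε c v)
    (hvol : (volume (Metric.ball (0 : E d) (√d / Real.pi))).toReal ≤ Real.exp d)
    {F : Set (E d)} (hFm : MeasurableSet F) (hF0 : 0 < volume.real F)
    {δ : ℝ} (hδ : 0 < δ) (hδ9 : 9 * δ ≤ ε) (hFδ : F ⊆ Metric.closedBall 0 δ) (X : Finset (E d))
    (hdisj : ∀ x ∈ X, ∀ y ∈ X, x ≠ y → ∀ a ∈ F, ∀ b ∈ F, x + a ≠ y + b) :
    ∃ G : X → X → ℝ, Good G (1 + Real.exp (-(c * d)))
      (5 * (((√d / Real.pi * Real.exp (-ε) / (1 + 4 * δ)) ^ d)⁻¹ / volume.real F)) ∧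
      ∀ x y : X, dist (x : E d) y < 1 → G x y = 0 := by
  classical
  have hdR : (0 : ℝ) < d := by exact_mod_cast hd
  have hpi := Real.pi_pos
  obtain ⟨R, hR⟩ : ∃ R : ℝ, R = √d / Real.pi * Real.exp (-ε) := ⟨_, rfl⟩
  have hR0 : 0 < R := by rw [hR]; positivity
  obtain ⟨s, hs⟩ : ∃ s : ℝ, s = R / (1 + 4 * δ) := ⟨_, rfl⟩
  have hs0 : 0 < s := by rw [hs]; positivity
  have hsR : s * (1 + 4 * δ) = R := by rw [hs]; field_simp
  obtain ⟨vm, vd, vl, vu, vc⟩ := hv
  rw [← hR] at vu vc ⊢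
  rw [← hs]
  obtain ⟨A, a1, a2, a3, a4, a5, a6, a7, a8, a9, a10⟩ := grid_auto hFm hF0 hδ hFδ X hdisj
  have hed : Real.exp (-(d : ℝ)) ≤ 1 := Real.exp_le_one_iff.2 (by linarith)
  have hed0 := Real.exp_pos (-(d : ℝ))
  have hcd : Real.exp (-(c * d)) ≤ 1 := Real.exp_le_one_iff.2 (by
    have : 0 < c * d := by positivity
    linarith)
  have vup : ∀ x, x ≠ 0 → v x ≤ 1 + Real.exp (-(d : ℝ)) := by
    intro x hx
    rcases le_total R ‖x‖ with h | h
    · linarith [vu x hx h]
    · have := (abs_le.1 (vc x hx h)).1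
      linarith
  have vabs : ∀ x, x ≠ 0 → |v x| ≤ 2 := by
    intro x hx
    have h1 := vup x hx
    have h2 := vl x hx
    exact abs_le.2 ⟨by linarith, by linarith⟩
  -- bounds of the average
  have f1 : ∀ t, -Real.exp (-(c * d)) ≤ ws A v s t := by
    intro t
    have h1 := ww_ge hd a1 a2 a3 a4 vm vabs hs0 t (fun u _ h => vl _ h)
    have h2 := ww_ge hd a1 a2 a3 a4 vm vabs hs0 (-t) (fun u _ h => vl _ h)
    unfold ws
    linarith
  have f2 : ∀ t, ws A v s t ≤ 1 + Real.exp (-(d : ℝ)) := by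
    intro t
    have h1 := ww_le hd a1 a2 a3 a4 vm vabs hs0 t (fun u _ h => vup _ h)
    have h2 := ww_le hd a1 a2 a3 a4 vm vabs hs0 (-t) (fun u _ h => vup _ h)
    unfold ws
    linarith
  have f3' : ∀ t : E d, ‖t‖ < 1 → 1 - Real.exp (-(d : ℝ)) ≤ ww A v s t := by
    intro t ht
    refine ww_ge hd a1 a2 a3 a4 vm vabs hs0 t (fun u hu h => ?_)
    have h1 : ‖s • (t + u)‖ ≤ R := by
      rw [norm_smul, Real.norm_of_nonneg hs0.le, ← hsR]
      refine mul_le_mul_of_nonneg_left ?_ hs0.le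
      have h2 := a6 u hu
      have h3 := norm_add_le t u
      linarith
    have h2 := (abs_le.1 (vc _ h h1)).2
    linarith
  have f3 : ∀ t : E d, ‖t‖ < 1 → 1 - Real.exp (-(d : ℝ)) ≤ ws A v s t := by
    intro t ht
    have h1 := f3' t ht
    have h2 := f3' (-t) (by rwa [norm_neg])
    unfold ws
    linarith
  have f4' : ∀ t : E d, 1 + 8 * δ ≤ ‖t‖ → ww A v s t ≤ 1 := by
    intro t ht
    refine ww_le hd a1 a2 a3 a4 vm vabs hs0 t (fun u hu h => ?_)
    apply vu _ h
    rw [norm_smul, Real.norm_of_nonneg hs0.le, ← hsR]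
    refine mul_le_mul_of_nonneg_left ?_ hs0.le
    have h2 := a6 u hu
    have h3 : ‖t‖ ≤ ‖t + u‖ + ‖u‖ := by
      calc ‖t‖ = ‖(t + u) - u‖ := by rw [add_sub_cancel_right]
        _ ≤ _ := norm_sub_le _ _
    linarith
  have f4 : ∀ t : E d, 1 + 8 * δ ≤ ‖t‖ → ws A v s t ≤ 1 := by
    intro t ht
    have h1 := f4' t ht
    have h2 := f4' (-t) (by rwa [norm_neg])
    unfold ws
    linarith
  -- the kernel
  obtain ⟨H, hH⟩ : ∃ H : E d → E d → ℝ, H = fun x y =>
    if dist x y < 1 then 0 else max 0 (1 - ws A v s (x - y)) := ⟨_, rfl⟩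
  have wsymm : ∀ x y : E d, ws A v s (x - y) = ws A v s (y - x) := by
    intro x y
    unfold ws
    rw [neg_sub, neg_sub]
    ring
  have hHle : ∀ x y, H x y ≤ 1 + Real.exp (-(c * d)) := by
    intro x y
    rw [hH]
    simp only
    split_ifs
    · positivity
    · apply max_le
      · positivity
      · linarith [f1 (x - y)]
  have herr : ∀ x y, |H x y - 1 + ws A v s (x - y)| ≤
      if dist x y < 1 + 8 * δ then Real.exp (-(d : ℝ)) else 0 := by
    intro x y
    rw [hH]
    simp only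
    by_cases h1 : dist x y < 1
    · rw [if_pos h1, if_pos (by linarith)]
      rw [dist_eq_norm] at h1
      have h2 := f3 _ h1
      have h3 := f2 (x - y)
      rw [abs_le]
      constructor <;> linarith
    · rw [if_neg h1]
      by_cases h4 : dist x y < 1 + 8 * δ
      · rw [if_pos h4]
        have h3 := f2 (x - y)
        rcases le_total (1 - ws A v s (x - y)) 0 with h5 | h5
        · rw [max_eq_left h5, abs_le]
          constructor <;> linarith
        · rw [max_eq_right h5, abs_le]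
          constructor <;> linarith
      · rw [if_neg h4]
        have h6 : ws A v s (x - y) ≤ 1 := f4 _ (by
          rw [← dist_eq_norm]
          linarith)
        rw [max_eq_right (by linarith)]
        have : 1 - ws A v s (x - y) - 1 + ws A v s (x - y) = 0 := by ring
        rw [this, abs_zero]
  -- counting
  have hN : ∀ x, ((X.filter fun y => dist x y < 1 + 8 * δ).card : ℝ) ≤
      (s ^ d)⁻¹ * Real.exp d / volume.real F := by
    intro x
    rw [le_div_iff₀ hF0]
    have h1 := count_le hFm (X.filter fun y => dist x y < 1 + 8 * δ)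
      (fun y hy z hz => hdisj y (Finset.mem_filter.1 hy).1 z (Finset.mem_filter.1 hz).1)
      (B := Metric.ball x (1 + 9 * δ)) measure_ball_lt_top.ne (fun y hy a ha => by
        have h2 := (Finset.mem_filter.1 hy).2
        have h3 := mem_closedBall_zero_iff.1 (hFδ ha)
        rw [Metric.mem_ball, dist_eq_norm]
        rw [dist_comm, dist_eq_norm] at h2
        have h4 : y + a - x = (y - x) + a := by abel
        rw [h4]
        have h5 := norm_add_le (y - x) a
        linarith)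
    refine h1.trans ?_
    have h6 : volume.real (Metric.ball x (1 + 9 * δ)) =
        volume.real (Metric.ball (0 : E d) (1 + 9 * δ)) := by
      rw [measureReal_def, measureReal_def, Measure.addHaar_ball_center]
    rw [h6]
    have h7 := ball_scale (d := d) (r := 1 + 9 * δ) hs0
    have h8 : volume.real (Metric.ball (0 : E d) (s * (1 + 9 * δ))) ≤ Real.exp d := by
      refine le_trans ?_ hvol
      refine ENNReal.toReal_mono measure_ball_lt_top.ne (measure_mono (Metric.ball_subset_ball ?_))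
      have h9 : s ≤ R := by
        rw [← hsR]
        nlinarith
      have h10 : s * (1 + 9 * δ) ≤ R * Real.exp ε := by
        refine mul_le_mul h9 ?_ (by positivity) hR0.le
        have := Real.add_one_le_exp ε
        linarith
      refine h10.trans (le_of_eq ?_)
      rw [hR, mul_assoc, ← Real.exp_add]
      simp
    rw [h7] at h8
    rw [← div_eq_inv_mul, le_div_iff₀ (by positivity)]
    linarith
  have hAle : (s ^ d)⁻¹ * A 0 ≤ 2 * ((s ^ d)⁻¹ / volume.real F) := by
    have h1 : (s ^ d)⁻¹ * A 0 ≤ (s ^ d)⁻¹ * (2 / volume.real F) :=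
      mul_le_mul_of_nonneg_left a5 (by positivity)
    refine h1.trans (le_of_eq ?_)
    ring
  refine ⟨fun x y => H x y, ⟨?_, ?_, ?_, ?_, ?_⟩, ?_⟩
  · intro x y
    rw [hH]
    simp only
    rw [dist_comm, wsymm]
  · intro x
    rw [hH]
    simp
  · intro x y
    rw [hH]
    simp only
    split_ifs
    · exact le_rfl
    · exact le_max_left _ _
  · intro x y
    exact hHle x y
  · intro a
    obtain ⟨φ, hφ⟩ : ∃ φ : E d → ℝ, ∀ x : X, a x = φ x := by
      refine ⟨fun x => if h : x ∈ X then a ⟨x, h⟩ else 0, fun x => ?_⟩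
      simp
    simp_rw [hφ]
    have e1 : ∑ x : X, ∑ y : X, (H x y - 1) * φ x * φ y =
        ∑ x ∈ X, ∑ y ∈ X, (H x y - 1) * φ x * φ y := by
      rw [← Finset.sum_coe_sort X]
      refine Finset.sum_congr rfl fun x _ => ?_
      rw [← Finset.sum_coe_sort X]
    have e2 : ∑ x : X, φ x ^ 2 = ∑ x ∈ X, φ x ^ 2 := Finset.sum_coe_sort X (fun x => φ x ^ 2)
    rw [e1, e2]
    have hq1 := quad_w hd vm vd vabs hs0 a1 a2 a8 a9 a10 X a7 φ
    have hq2 : ∑ x ∈ X, ∑ y ∈ X, φ x * φ y * ws A v s (x - y) =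
        ∑ x ∈ X, ∑ y ∈ X, φ x * φ y * ww A v s (x - y) := by
      have h1 : ∑ x ∈ X, ∑ y ∈ X, φ x * φ y * ww A v s (-(x - y)) =
          ∑ x ∈ X, ∑ y ∈ X, φ x * φ y * ww A v s (x - y) := by
        rw [Finset.sum_comm]
        refine Finset.sum_congr rfl fun x _ => Finset.sum_congr rfl fun y _ => ?_
        rw [neg_sub]
        ring
      have h2 : ∑ x ∈ X, ∑ y ∈ X, φ x * φ y * ws A v s (x - y) =
          1 / 2 * ∑ x ∈ X, ∑ y ∈ X, φ x * φ y * ww A v s (x - y) +
          1 / 2 * ∑ x ∈ X, ∑ y ∈ X, φ x * φ y * ww A v s (-(x - y)) := by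
        rw [Finset.mul_sum, Finset.mul_sum, ← Finset.sum_add_distrib]
        refine Finset.sum_congr rfl fun x _ => ?_
        rw [Finset.mul_sum, Finset.mul_sum, ← Finset.sum_add_distrib]
        refine Finset.sum_congr rfl fun y _ => ?_
        unfold ws
        ring
      rw [h2, h1]
      ring
    have hq3 := schur X (fun x y => H x y - 1 + ws A v s (x - y)) φ hed0.le herr hN
    have hq4 : ∑ x ∈ X, ∑ y ∈ X, (H x y - 1) * φ x * φ y =
        ∑ x ∈ X, ∑ y ∈ X, (H x y - 1 + ws A v s (x - y)) * φ x * φ y -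
        ∑ x ∈ X, ∑ y ∈ X, φ x * φ y * ws A v s (x - y) := by
      rw [← Finset.sum_sub_distrib]
      refine Finset.sum_congr rfl fun x _ => ?_
      rw [← Finset.sum_sub_distrib]
      refine Finset.sum_congr rfl fun y _ => ?_
      ring
    rw [hq4, hq2]
    obtain ⟨S, hS⟩ : ∃ S : ℝ, S = ∑ x ∈ X, φ x ^ 2 := ⟨_, rfl⟩
    have hS0 : 0 ≤ S := by rw [hS]; exact Finset.sum_nonneg fun x _ => sq_nonneg _
    rw [← hS] at hq1 hq3 ⊢
    have h5 := abs_sub (∑ x ∈ X, ∑ y ∈ X, (H x y - 1 + ws A v s (x - y)) * φ x * φ y)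
      (∑ x ∈ X, ∑ y ∈ X, φ x * φ y * ww A v s (x - y))
    refine h5.trans ((add_le_add hq3 hq1).trans ?_)
    have h6 : Real.exp (-(d : ℝ)) * ((s ^ d)⁻¹ * Real.exp d / volume.real F) =
        (s ^ d)⁻¹ / volume.real F := by
      have : Real.exp (-(d : ℝ)) * Real.exp d = 1 := by rw [← Real.exp_add]; simp
      calc _ = (Real.exp (-(d : ℝ)) * Real.exp d) * ((s ^ d)⁻¹ / volume.real F) := by ring
        _ = _ := by rw [this, one_mul]
    rw [h6]
    have h7 : 2 * ((s ^ d)⁻¹ * A 0) * S ≤ 2 * (2 * ((s ^ d)⁻¹ / volume.real F)) * S := by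
      refine mul_le_mul_of_nonneg_right ?_ hS0
      linarith
    linarith
  · intro x y h
    rw [hH]
    simp only
    rw [if_pos h]

end Pool.Agent.Y509.KP
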