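import Mathlib
import Pool.Agent.H818R2.Defs
import Pool.Agent.Y509.KP.Bar2

/-!
The number of centres of a packing in a region bounds its density.
-/

set_option autoImplicit false

open MeasureTheory Filter Topology

open scoped ENNReal

namespace Pool.Agent.Y509.KP

variable {d : ℕ}

lemma cell_vol {Λ : Set (E d)} (hΛ : MeasurableSet Λ) {s : ℝ} (hs : 0 < s) (x : E d) :
    MeasurableSet {t : E d | s⁻¹ • (x - t) ∈ Λ} ∧
    volume {t : E d | s⁻¹ • (x - t) ∈ Λ} = ENNReal.ofReal (s ^ d) * volume Λ := by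
  have h1 : {t : E d | s⁻¹ • (x - t) ∈ Λ} = (fun t => x - t) ⁻¹' ((fun u => s⁻¹ • u) ⁻¹' Λ) := rfl
  have h2 : MeasurableSet ((fun u : E d => s⁻¹ • u) ⁻¹' Λ) := hΛ.preimage (measurable_const_smul _)
  refine ⟨h2.preimage (measurable_const.sub measurable_id), ?_⟩
  rw [h1, (Measure.measurePreserving_sub_left (volume : Measure (E d)) x).measure_preimage
    h2.nullMeasurableSet, Measure.addHaar_preimage_smul _ (inv_ne_zero hs.ne'),
    finrank_euclideanSpace_fin]
  congr 2
  rw [inv_pow, inv_inv, abs_of_pos (by positivity)]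

/-- the number of points of a set whose translated copies of `s Λ` contain few points -/
theorem count_avg {Λ : Set (E d)} (hΛ : MeasurableSet Λ) {B : ℝ} (hB : Λ ⊆ Metric.closedBall 0 B)
    {s N R : ℝ} (hs : 0 < s) (Y : Finset (E d)) (hY : ∀ y ∈ Y, ‖y‖ ≤ R)
    (hN : ∀ t : E d, ∀ C : Finset (E d), C ⊆ Y → (∀ x ∈ C, s⁻¹ • (x - t) ∈ Λ) →
      (C.card : ℝ) ≤ N) :
    Y.card * (s ^ d * volume.real Λ) ≤
      N * volume.real (Metric.closedBall (0 : E d) (R + s * B)) := by
  classical
  have hN0 : 0 ≤ N := le_trans (by positivity) (hN 0 ∅ (by simp) (by simp))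
  have hBt : volume (Metric.closedBall (0 : E d) (R + s * B)) ≠ ∞ :=
    (isCompact_closedBall _ _).measure_lt_top.ne
  have hΛt : volume Λ ≠ ∞ :=
    ((measure_mono hB).trans_lt (isCompact_closedBall _ _).measure_lt_top).ne
  have h1 : ∑ y ∈ Y, volume {t : E d | s⁻¹ • (y - t) ∈ Λ} =
      Y.card * (ENNReal.ofReal (s ^ d) * volume Λ) := by
    rw [Finset.sum_congr rfl fun y _ => (cell_vol hΛ hs y).2, Finset.sum_const, nsmul_eq_mul]
  have h2 : ∑ y ∈ Y, volume {t : E d | s⁻¹ • (y - t) ∈ Λ} =
      ∫⁻ t, ∑ y ∈ Y, {t : E d | s⁻¹ • (y - t) ∈ Λ}.indicator (fun _ => (1 : ℝ≥0∞)) t := by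
    rw [lintegral_finsetSum]
    · refine Finset.sum_congr rfl fun y _ => ?_
      rw [lintegral_indicator (cell_vol hΛ hs y).1, setLIntegral_one]
    · intro y _
      exact measurable_const.indicator (cell_vol hΛ hs y).1
  have h3 : ∀ t, ∑ y ∈ Y, {t : E d | s⁻¹ • (y - t) ∈ Λ}.indicator (fun _ => (1 : ℝ≥0∞)) t ≤
      (Metric.closedBall (0 : E d) (R + s * B)).indicator (fun _ => ENNReal.ofReal N) t := by
    intro t
    have h4 : ∑ y ∈ Y, {t : E d | s⁻¹ • (y - t) ∈ Λ}.indicator (fun _ => (1 : ℝ≥0∞)) t =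
        ((Y.filter fun y => s⁻¹ • (y - t) ∈ Λ).card : ℝ≥0∞) := by
      rw [Finset.card_filter]
      push_cast
      refine Finset.sum_congr rfl fun y _ => ?_
      by_cases h : s⁻¹ • (y - t) ∈ Λ
      · rw [Set.indicator_of_mem (show t ∈ {t : E d | s⁻¹ • (y - t) ∈ Λ} from h), if_pos h]
      · rw [Set.indicator_of_notMem (show t ∉ {t : E d | s⁻¹ • (y - t) ∈ Λ} from h), if_neg h]
    rw [h4]
    by_cases ht : t ∈ Metric.closedBall (0 : E d) (R + s * B)
    · rw [Set.indicator_of_mem ht]
      have h5 := hN t (Y.filter fun y => s⁻¹ • (y - t) ∈ Λ) (Finset.filter_subset _ _)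
        (fun x hx => (Finset.mem_filter.1 hx).2)
      rw [← ENNReal.ofReal_natCast]
      exact ENNReal.ofReal_le_ofReal h5
    · have h5 : (Y.filter fun y => s⁻¹ • (y - t) ∈ Λ) = ∅ := by
        rw [Finset.filter_eq_empty_iff]
        intro y hy h
        apply ht
        have h6 := mem_closedBall_zero_iff.1 (hB h)
        rw [norm_smul, norm_inv, Real.norm_of_nonneg hs.le, inv_mul_le_iff₀ hs] at h6
        rw [mem_closedBall_zero_iff]
        have h7 : ‖t‖ ≤ ‖y‖ + ‖y - t‖ := by
          calc ‖t‖ = ‖y - (y - t)‖ := by rw [sub_sub_cancel]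
            _ ≤ _ := norm_sub_le _ _
        have h8 := hY y hy
        linarith
      rw [h5]
      simp
  have h4 : (Y.card : ℝ≥0∞) * (ENNReal.ofReal (s ^ d) * volume Λ) ≤
      ENNReal.ofReal N * volume (Metric.closedBall (0 : E d) (R + s * B)) := by
    rw [← h1, h2]
    refine (lintegral_mono h3).trans ?_
    rw [lintegral_indicator Metric.isClosed_closedBall.measurableSet, setLIntegral_const]
  have h5 := ENNReal.toReal_mono (ENNReal.mul_ne_top ENNReal.ofReal_ne_top hBt) h4
  rw [ENNReal.toReal_mul, ENNReal.toReal_mul, ENNReal.toReal_mul, ENNReal.toReal_natCast,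
    ENNReal.toReal_ofReal (by positivity), ENNReal.toReal_ofReal hN0] at h5
  exact h5

open Pool.Agent.H818R2 in
lemma sep_of {X : Set (E d)} {r : ℝ} (hX : IsPacking X r) {x y : E d} (hx : x ∈ X) (hy : y ∈ X)
    (hxy : x ≠ y) : 2 * r ≤ dist x y := by
  have h1 : Disjoint (Metric.ball x r) (Metric.ball y r) := hX.2 hx hy hxy
  rw [disjoint_ball_ball_iff hX.1 hX.1] at h1
  linarith

open Pool.Agent.H818R2 in
/-- **Validity.** -/
theorem valid {Λ : Set (E d)} (hΛ : MeasurableSet Λ) (hb : Bornology.IsBounded Λ)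
    (h0 : 0 < volume.real Λ) {N : ℝ}
    (hN : ∀ C : Finset (E d), (C : Set (E d)) ⊆ Λ → (∀ x ∈ C, ∀ y ∈ C, x ≠ y → 1 ≤ dist x y) →
      (C.card : ℝ) ≤ N) :
    rho d ≤ N * volume.real (Metric.ball (0 : E d) (1 / 2)) / volume.real Λ := by
  classical
  have hN0 : 0 ≤ N := le_trans (by positivity) (hN ∅ (by simp) (by simp))
  unfold rho optDensity
  refine Real.sSup_le ?_ (by positivity)
  rintro δ ⟨X, r, hX, rfl⟩
  have hr := hX.1
  obtain ⟨B, hB0, hB⟩ : ∃ B : ℝ, 0 ≤ B ∧ Λ ⊆ Metric.closedBall 0 B := by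
    obtain ⟨B, hB⟩ := hb.subset_closedBall 0
    exact ⟨max B 0, le_max_right _ _, hB.trans (Metric.closedBall_subset_closedBall (le_max_left _ _))⟩
  obtain ⟨s, hs⟩ : ∃ s : ℝ, s = 2 * r := ⟨_, rfl⟩
  have hs0 : 0 < s := by rw [hs]; positivity
  -- local bound
  have hloc : ∀ Y : Finset (E d), (Y : Set (E d)) ⊆ X → ∀ t : E d, ∀ C : Finset (E d), C ⊆ Y →
      (∀ x ∈ C, s⁻¹ • (x - t) ∈ Λ) → (C.card : ℝ) ≤ N := by
    intro Y hY t C hC hCΛ
    have hinj : Function.Injective (fun x : E d => s⁻¹ • (x - t)) := by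
      intro x y hxy
      have h1 := smul_right_injective (E d) (inv_ne_zero hs0.ne') hxy
      exact sub_left_injective h1
    have h1 := hN (C.image fun x => s⁻¹ • (x - t)) (by
      intro z hz
      rw [Finset.mem_coe, Finset.mem_image] at hz
      obtain ⟨x, hx, rfl⟩ := hz
      exact hCΛ x hx) (by
      intro z hz w hw hzw
      rw [Finset.mem_image] at hz hw
      obtain ⟨x, hx, rfl⟩ := hz
      obtain ⟨y, hy, rfl⟩ := hw
      have hxy : x ≠ y := fun h => hzw (by rw [h])
      have h2 := sep_of hX (hY (hC hx)) (hY (hC hy)) hxy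
      rw [dist_smul₀, norm_inv, Real.norm_of_nonneg hs0.le, dist_sub_right, ← div_eq_inv_mul,
        le_div_iff₀ hs0]
      linarith)
    rwa [Finset.card_image_of_injective _ hinj] at h1
  -- counting
  have hcount : ∀ R : ℝ, ∀ Y : Finset (E d), (Y : Set (E d)) ⊆ X → (∀ y ∈ Y, ‖y‖ ≤ R) →
      Y.card * (s ^ d * volume.real Λ) ≤
        N * volume.real (Metric.closedBall (0 : E d) (R + s * B)) := by
    intro R Y hY hYR
    exact count_avg hΛ hB hs0 Y hYR (hloc Y hY)
  have hfin : ∀ R : ℝ, (X ∩ Metric.closedBall 0 R).Finite := by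
    intro R
    by_contra hinf
    obtain ⟨m, hm⟩ := exists_nat_gt
      (N * volume.real (Metric.closedBall (0 : E d) (R + s * B)) / (s ^ d * volume.real Λ))
    obtain ⟨Y, hY, hYc⟩ := (Set.not_finite.1 hinf : (X ∩ Metric.closedBall 0 R).Infinite).exists_subset_card_eq m
    have h1 := hcount R Y (fun y hy => (hY hy).1) (fun y hy => mem_closedBall_zero_iff.1 (hY hy).2)
    rw [hYc, ← le_div_iff₀ (by positivity)] at h1
    linarith
  have hupper : ∀ R : ℝ, 0 < R → volume.real (Metric.ball (0 : E d) R ∩ body X r) ≤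
      N / (s ^ d * volume.real Λ) * volume.real (Metric.closedBall (0 : E d) (R + r + s * B)) *
        volume.real (Metric.ball (0 : E d) r) := by
    intro R hR
    have h1 : (Metric.ball (0 : E d) R ∩ body X r) ⊆
        ⋃ x ∈ (hfin (R + r)).toFinset, Metric.ball x r := by
      rintro z ⟨hz1, hz2⟩
      unfold body at hz2
      simp only [Set.mem_iUnion] at hz2 ⊢
      obtain ⟨x, hx, hzx⟩ := hz2
      refine ⟨x, ?_, hzx⟩
      rw [Set.Finite.mem_toFinset]
      refine ⟨hx, ?_⟩
      rw [mem_closedBall_zero_iff]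
      rw [mem_ball_zero_iff] at hz1
      rw [Metric.mem_ball, dist_eq_norm] at hzx
      have : ‖x‖ ≤ ‖z‖ + ‖z - x‖ := by
        calc ‖x‖ = ‖z - (z - x)‖ := by rw [sub_sub_cancel]
          _ ≤ _ := norm_sub_le _ _
      linarith
    have h2 : volume.real (Metric.ball (0 : E d) R ∩ body X r) ≤
        (hfin (R + r)).toFinset.card * volume.real (Metric.ball (0 : E d) r) := by
      refine (measureReal_mono h1 ?_).trans ?_
      · refine (measure_biUnion_lt_top (Set.toFinite _) fun x _ => measure_ball_lt_top).ne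
      · refine (measureReal_biUnion_finset_le _ _).trans ?_
        rw [Finset.sum_congr rfl (g := fun _ => volume.real (Metric.ball (0 : E d) r)),
          Finset.sum_const, nsmul_eq_mul]
        intro x _
        rw [measureReal_def, measureReal_def, Measure.addHaar_ball_center]
    have h3 := hcount (R + r) (hfin (R + r)).toFinset (fun y hy => by
      rw [Set.Finite.coe_toFinset] at hy
      exact hy.1) (fun y hy => by
      rw [Set.Finite.mem_toFinset] at hy
      exact mem_closedBall_zero_iff.1 hy.2)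
    have h4 : ((hfin (R + r)).toFinset.card : ℝ) ≤
        N / (s ^ d * volume.real Λ) * volume.real (Metric.closedBall (0 : E d) (R + r + s * B)) := by
      rw [div_mul_eq_mul_div, le_div_iff₀ (by positivity)]
      exact h3
    exact h2.trans (mul_le_mul_of_nonneg_right h4 measureReal_nonneg)
  -- the limit
  obtain ⟨c, hc⟩ : ∃ c : ℝ, c = r + s * B := ⟨_, rfl⟩
  have hc0 : 0 ≤ c := by rw [hc]; positivity
  have hball : ∀ R : ℝ, 0 < R → volume.real (Metric.ball (0 : E d) R) =
      R ^ d * volume.real (Metric.ball (0 : E d) 1) := by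
    intro R hR
    have := ball_scale (d := d) (r := 1) hR
    rwa [mul_one] at this
  have hV1 : 0 < volume.real (Metric.ball (0 : E d) 1) := by
    rw [measureReal_def]
    exact ENNReal.toReal_pos (Metric.measure_ball_pos volume _ one_pos).ne' measure_ball_lt_top.ne
  have hlim : Tendsto (fun R : ℝ => N / (s ^ d * volume.real Λ) * (1 + (c + 1) / R) ^ d *
      volume.real (Metric.ball (0 : E d) r)) atTop
      (𝓝 (N / (s ^ d * volume.real Λ) * (1 + 0) ^ d * volume.real (Metric.ball (0 : E d) r))) := by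
    refine Tendsto.mul_const _ (Tendsto.const_mul _ (Tendsto.pow (Tendsto.const_add _ ?_) _))
    exact tendsto_const_nhds.div_atTop tendsto_id
  have hval : N / (s ^ d * volume.real Λ) * (1 + 0) ^ d * volume.real (Metric.ball (0 : E d) r) =
      N * volume.real (Metric.ball (0 : E d) (1 / 2)) / volume.real Λ := by
    have h1 := ball_scale (d := d) (r := 1 / 2) hs0
    have h2 : s * (1 / 2) = r := by rw [hs]; ring
    rw [h2] at h1
    rw [h1]
    have hsd : 0 < s ^ d := by positivity
    simp only [add_zero, one_pow, mul_one]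
    field_simp
  rw [← hval, ← hlim.limsup_eq]
  unfold upperDensity
  refine limsup_le_limsup ?_ ?_ ?_
  · filter_upwards [eventually_gt_atTop 0] with R hR
    rw [div_le_iff₀ (by rw [hball R hR]; positivity)]
    refine (hupper R hR).trans ?_
    have h1 : volume.real (Metric.closedBall (0 : E d) (R + r + s * B)) ≤
        (R + (c + 1)) ^ d * volume.real (Metric.ball (0 : E d) 1) := by
      rw [← hball (R + (c + 1)) (by positivity)]
      refine measureReal_mono (Metric.closedBall_subset_ball ?_) measure_ball_lt_top.ne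
      rw [hc]
      linarith
    have h2 : (1 + (c + 1) / R) ^ d * R ^ d = (R + (c + 1)) ^ d := by
      rw [← mul_pow]
      congr 1
      field_simp
    rw [hball R hR]
    have hr0 : 0 ≤ volume.real (Metric.ball (0 : E d) r) := measureReal_nonneg
    calc _ ≤ N / (s ^ d * volume.real Λ) * ((R + (c + 1)) ^ d * volume.real (Metric.ball (0 : E d) 1)) *
          volume.real (Metric.ball (0 : E d) r) := by gcongr
      _ = _ := by
          rw [← h2]
          ring
  · refine isCoboundedUnder_le_of_le atTop (x := 0) fun R => ?_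
    positivity
  · exact hlim.isBoundedUnder_le

end Pool.Agent.Y509.KP
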