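import Mathlib
import Pool.Agent.Y509.KP.Val
import Pool.Agent.Y509.KP.Defs
import Pool.Agent.Y509.KP.Cert
import Pool.Agent.Y509.KP.Mean2

/-!
The `k`-point bound for the density of sphere packings.
-/

set_option autoImplicit false

open MeasureTheory Filter Topology

namespace Pool.Agent.Y509.KP

open Pool.Agent.H818R2

variable {n k : ℕ}

/-- the `k`-point bound for the density of sphere packings -/
noncomputable def kDens (n k : ℕ) : ℝ :=
  sInf {δ : ℝ | ∃ (Λ : Set (E n)) (B : ℝ), MeasurableSet Λ ∧ Bornology.IsBounded Λ ∧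
    0 < volume.real Λ ∧ LBound n k Λ B ∧
    δ = B * volume.real (Metric.ball (0 : E n) (1 / 2)) / volume.real Λ}

lemma ppack_one {X : Finset (E n)} (hX : ∀ x ∈ X, ∀ z ∈ X, x ≠ z → 1 ≤ dist x z) :
    PPack n k X (fun _ => 1) := by
  classical
  have h1 : ∀ D F S : Finset X, Pool.Agent.Y570.KP.cond (fun _ => (1 : ℝ)) D F S =
      if F = ∅ then 1 else 0 := by
    intro D F S
    unfold Pool.Agent.Y570.KP.cond
    simp only [mul_one]
    have h2 := Finset.sum_powerset_neg_one_pow_card (x := F)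
    have h3 : ∑ m ∈ F.powerset, (-1 : ℝ) ^ m.card = ((∑ m ∈ F.powerset, (-1 : ℤ) ^ m.card : ℤ) : ℝ) := by
      push_cast
      rfl
    rw [h3, h2]
    split_ifs <;> simp
  refine ⟨rfl, fun S u _ v _ huv h => ?_, fun D F _ => ?_, fun D F _ a => ?_⟩
  · have := hX u u.2 v v.2 (fun h' => huv (Subtype.ext h'))
    linarith
  · rw [h1]
    split_ifs <;> norm_num
  · simp only [h1]
    have h4 : ∑ s, ∑ t, a s * a t * (if F = ∅ then (1 : ℝ) else 0) =
        (∑ s, a s) ^ 2 * (if F = ∅ then (1 : ℝ) else 0) := by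
      rw [sq, Finset.sum_mul_sum, Finset.sum_mul]
      refine Finset.sum_congr rfl fun s _ => ?_
      rw [Finset.sum_mul]
    rw [h4]
    split_ifs <;> positivity

lemma lbound_card {Λ : Set (E n)} {B : ℝ} (h : LBound n k Λ B) {C : Finset (E n)}
    (hC : (C : Set (E n)) ⊆ Λ) (hs : ∀ x ∈ C, ∀ z ∈ C, x ≠ z → 1 ≤ dist x z) : (C.card : ℝ) ≤ B := by
  have h1 := h C hC (fun _ => 1) (ppack_one hs)
  simpa using h1

lemma lbound_nonneg {Λ : Set (E n)} {B : ℝ} (h : LBound n k Λ B) : 0 ≤ B := by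
  have := lbound_card h (C := ∅) (by simp) (by simp)
  simpa using this

lemma ppack_mono {X : Finset (E n)} {y : Finset X → ℝ} (h : PPack n (k + 1) X y) :
    PPack n k X y :=
  ⟨h.one, h.sep, fun D F hDF => h.nonneg D F (by omega), fun D F hDF => h.psd D F (by omega)⟩

lemma lbound_mono {Λ : Set (E n)} {B : ℝ} (h : LBound n k Λ B) : LBound n (k + 1) Λ B :=
  fun X hX y hy => h X hX y (ppack_mono hy)

lemma kDens_le {Λ : Set (E n)} {B : ℝ} (h1 : MeasurableSet Λ) (h2 : Bornology.IsBounded Λ)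
    (h3 : 0 < volume.real Λ) (h : LBound n k Λ B) :
    kDens n k ≤ B * volume.real (Metric.ball (0 : E n) (1 / 2)) / volume.real Λ := by
  refine csInf_le ⟨0, ?_⟩ ⟨Λ, B, h1, h2, h3, h, rfl⟩
  rintro δ ⟨Λ', B', -, -, -, h', rfl⟩
  have := lbound_nonneg h'
  positivity

/-- a small ball -/
lemma small_ball (hk : 2 ≤ k) : LBound n k (Metric.ball (0 : E n) (1 / 2)) 1 := by
  classical
  intro X hX y hy
  have h1 := hy.psd ∅ ∅ (by simpa using hk) (fun s => s.elim (-1) fun _ => 1)
  simp only [Fintype.sum_option, Option.elim_none, Option.elim_some, cond_empty,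
    Option.toFinset_some, Option.toFinset_none, Finset.empty_union, Finset.union_empty,
    hy.one] at h1
  have h2 : ∀ x z : X, y ({x} ∪ {z}) = if z = x then y {x} else 0 := by
    intro x z
    split_ifs with h
    · rw [h, Finset.union_self]
    · refine hy.sep _ x (by simp) z (by simp) (Ne.symm h) ?_
      have hx := Metric.mem_ball.1 (hX x.2)
      have hz := Metric.mem_ball.1 (hX z.2)
      calc dist (x : E n) z ≤ dist (x : E n) 0 + dist (z : E n) 0 := dist_triangle_right _ _ _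
        _ < 1 := by linarith
  simp only [h2, mul_ite, mul_zero, Finset.sum_ite_eq', Finset.mem_univ, if_true] at h1
  have h3 : ∑ x : X, -1 * 1 * y {x} = -∑ x : X, y {x} := by
    rw [← Finset.mul_sum]
    ring
  have h4 : ∑ x : X, (1 * -1 * y {x} + 1 * 1 * y {x}) = 0 := by
    refine Finset.sum_eq_zero fun x _ => ?_
    ring
  rw [h3, h4] at h1
  linarith

lemma kset_nonempty (hk : 2 ≤ k) : {δ : ℝ | ∃ (Λ : Set (E n)) (B : ℝ), MeasurableSet Λ ∧
    Bornology.IsBounded Λ ∧ 0 < volume.real Λ ∧ LBound n k Λ B ∧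
    δ = B * volume.real (Metric.ball (0 : E n) (1 / 2)) / volume.real Λ}.Nonempty := by
  refine ⟨_, Metric.ball 0 (1 / 2), 1, Metric.isOpen_ball.measurableSet, Metric.isBounded_ball,
    ?_, small_ball hk, rfl⟩
  rw [measureReal_def]
  exact ENNReal.toReal_pos (Metric.measure_ball_pos volume _ (by norm_num)).ne'
    measure_ball_lt_top.ne

/-- **Validity.** -/
theorem rho_le (hk : 2 ≤ k) : rho n ≤ kDens n k := by
  refine le_csInf (kset_nonempty hk) ?_
  rintro δ ⟨Λ, B, h1, h2, h3, h, rfl⟩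
  exact valid h1 h2 h3 fun C hC hs => lbound_card h hC hs

/-- **Monotonicity.** -/
theorem kDens_anti (hk : 2 ≤ k) : kDens n (k + 1) ≤ kDens n k := by
  refine le_csInf (kset_nonempty hk) ?_
  rintro δ ⟨Λ, B, h1, h2, h3, h, rfl⟩
  exact kDens_le h1 h2 h3 (lbound_mono h)

open Classical in
/-- certificates of level `k` -/
structure IsCert (n k : ℕ) (f : E n → ℝ) (T : Finset (E n) → E n → E n → ℝ) (lam : ℝ) : Prop where
  posDef : PosDef f
  integral_pos : 0 < ∫ x, f x
  empty : ∀ x z, T ∅ x z = f (x - z)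
  symm : ∀ Q x z, T Q x z = T Q z x
  psd : ∀ Q : Finset (E n), Q.Nonempty → ∀ (X : Finset (E n)) (a : E n → ℝ),
    0 ≤ ∑ x ∈ X, ∑ z ∈ X, a x * a z * T Q x z
  single : ∀ x, contr k T {x} ≤ lam
  sep : ∀ S : Finset (E n), 2 ≤ S.card → S.card ≤ k →
    (∀ x ∈ S, ∀ z ∈ S, x ≠ z → 1 ≤ dist x z) → contr k T S ≤ 0

lemma posDef_psd {f : E n → ℝ} (hf : PosDef f) (X : Finset (E n)) (a : E n → ℝ) :
    0 ≤ ∑ x ∈ X, ∑ z ∈ X, a x * a z * f (x - z) := by
  have h := quad_mix hf (B := ∅) MeasurableSet.empty (by simp) X a 0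
  simpa using h

lemma cert_ineq (hk : 2 ≤ k) {f : E n → ℝ} {T : Finset (E n) → E n → E n → ℝ} {lam : ℝ}
    (hc : IsCert n k f T lam) {X : Finset (E n)} {y : Finset X → ℝ} (hy : PPack n k X y) :
    ∑ x : X, ∑ z : X, y {x} * y {z} * f ((x : E n) - z) ≤ lam * ∑ x, y {x} := by
  classical
  obtain ⟨e, he⟩ : ∃ e : X ↪ E n, e = Function.Embedding.subtype _ := ⟨_, rfl⟩
  have hex : ∀ x : X, e x = x := fun x => by rw [he]; rfl
  have hsum : ∀ g : E n → ℝ, ∑ x : X, g (e x) = ∑ x ∈ X, g x := by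
    intro g
    simp_rw [hex]
    exact Finset.sum_coe_sort X g
  have hext : ∀ a : X → ℝ, ∃ b : E n → ℝ, ∀ x, a x = b (e x) := by
    intro a
    refine ⟨fun x => if h : x ∈ X then a ⟨x, h⟩ else 0, fun x => ?_⟩
    rw [hex]
    simp
  have hw := weak hk hy.one hy.nonneg hy.psd
    (T := fun Q x z => T (Q.map e) (e x) (e z)) (lam := lam)
    (fun Q x z => hc.symm _ _ _) (fun Q a => ?_) (fun x => ?_) (fun S h1 h2 h3 => ?_)
  · simp only [Finset.map_empty, hc.empty, hex] at hw
    exact hw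
  · obtain ⟨b, hb⟩ := hext a
    have h1 : ∑ x : X, ∑ z : X, a x * a z * T (Q.map e) (e x) (e z) =
        ∑ x ∈ X, ∑ z ∈ X, b x * b z * T (Q.map e) x z := by
      simp_rw [hb]
      rw [hsum fun x => ∑ z : X, b x * b (e z) * T (Q.map e) x (e z)]
      refine Finset.sum_congr rfl fun x _ => ?_
      exact hsum fun z => b x * b z * T (Q.map e) x z
    rw [h1]
    rcases Finset.eq_empty_or_nonempty (Q.map e) with h | h
    · rw [h]
      simp only [hc.empty]
      exact posDef_psd hc.posDef X b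
    · exact hc.psd _ h X b
  · rw [contr_map e, Finset.map_singleton]
    exact hc.single _
  · rw [contr_map e]
    refine hc.sep _ (by rwa [Finset.card_map]) (by rwa [Finset.card_map]) ?_
    intro x hx z hz hxz
    by_contra hlt
    rw [not_le] at hlt
    obtain ⟨x', hx', rfl⟩ := Finset.mem_map.1 hx
    obtain ⟨z', hz', rfl⟩ := Finset.mem_map.1 hz
    rw [hex, hex] at hlt
    exact h3 (hy.sep S x' hx' z' hz' (fun h => hxz (by rw [h])) hlt)

/-- **Certificates bound the hierarchy.** -/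
theorem cert_bound (hk : 2 ≤ k) {f : E n → ℝ} {T : Finset (E n) → E n → E n → ℝ} {lam : ℝ}
    (hc : IsCert n k f T lam) :
    kDens n k ≤ volume.real (Metric.ball (0 : E n) (1 / 2)) * lam / ∫ x, f x := by
  classical
  obtain ⟨I, hI⟩ : ∃ I : ℝ, I = ∫ x, f x := ⟨_, rfl⟩
  have hI0 : 0 < I := by rw [hI]; exact hc.integral_pos
  obtain ⟨w, hw⟩ : ∃ w : ℝ, w = volume.real (Metric.ball (0 : E n) (1 / 2)) := ⟨_, rfl⟩
  have hw0 : 0 ≤ w := by rw [hw]; positivity
  have hlam : 0 ≤ lam := by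
    have h1 := cert_ineq hk hc (X := {0}) (y := fun _ => 1) (ppack_one (by simp))
    have h2 := posDef_psd hc.posDef {0} (fun _ => 1)
    simp at h1 h2
    linarith
  have key : ∀ η : ℝ, 0 < η → η < 1 → kDens n k * (I * (1 - η)) ≤ w * lam := by
    intro η h0 h1
    obtain ⟨L, hL0, hL⟩ := mean_lower hc.posDef hc.integral_pos h0
    rw [← hI] at hL
    obtain ⟨V, hV⟩ : ∃ V : ℝ, V = volume.real (Metric.closedBall (0 : E n) L) := ⟨_, rfl⟩
    have hV0 : 0 < V := by
      rw [hV, vcb hL0.le]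
      have := Pool.Agent.H818R2.vb_pos (E := E n)
      positivity
    rw [← hV] at hL
    have hJ : 0 < I * (1 - η) := by
      have : 0 < 1 - η := by linarith
      positivity
    have hLB : LBound n k (Metric.closedBall 0 L) (V * lam / (I * (1 - η))) := by
      intro X hX y hy
      obtain ⟨c, hcdef⟩ : ∃ c : ℝ, c = ∑ x, y {x} := ⟨_, rfl⟩
      rw [← hcdef, le_div_iff₀ hJ]
      have hy1 : ∀ x : X, 0 ≤ y {x} := by
        intro x
        have := hy.nonneg {x} ∅ (by simp; omega)
        rwa [cond_empty, Finset.union_empty] at this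
      have hc0 : 0 ≤ c := by rw [hcdef]; exact Finset.sum_nonneg fun x _ => hy1 x
      have h3 := hL X (fun x hx => mem_closedBall_zero_iff.1 (hX hx))
        (fun x => if h : x ∈ X then y {⟨x, h⟩} else 0) (fun x hx => by
          simp only [hx, dite_true]
          exact hy1 _)
      have h4 : ∑ x ∈ X, (fun x => if h : x ∈ X then y {⟨x, h⟩} else 0) x = c := by
        rw [← Finset.sum_coe_sort, hcdef]
        refine Finset.sum_congr rfl fun x _ => ?_
        simp
      have h5 : ∑ x ∈ X, ∑ z ∈ X, (fun x => if h : x ∈ X then y {⟨x, h⟩} else 0) x *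
          (fun x => if h : x ∈ X then y {⟨x, h⟩} else 0) z * f (x - z) =
          ∑ x : X, ∑ z : X, y {x} * y {z} * f ((x : E n) - z) := by
        rw [← Finset.sum_coe_sort]
        refine Finset.sum_congr rfl fun x _ => ?_
        rw [← Finset.sum_coe_sort]
        refine Finset.sum_congr rfl fun z _ => ?_
        simp
      rw [h4, h5] at h3
      have h6 := cert_ineq hk hc hy
      rw [← hcdef] at h6
      have h7 : c ^ 2 * (I * (1 - η)) ≤ V * (lam * c) :=
        h3.trans (mul_le_mul_of_nonneg_left h6 hV0.le)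
      rcases hc0.eq_or_lt with h8 | h8
      · rw [← h8, zero_mul]
        positivity
      · have h9 : c * (c * (I * (1 - η))) ≤ c * (V * lam) := by linarith
        exact le_of_mul_le_mul_left h9 h8
    have h10 := kDens_le Metric.isClosed_closedBall.measurableSet Metric.isBounded_closedBall
      (by rw [← hV]; exact hV0) hLB
    rw [← hV, ← hw] at h10
    have h11 : V * lam / (I * (1 - η)) * w / V = w * lam / (I * (1 - η)) := by
      field_simp
    rw [h11, le_div_iff₀ hJ] at h10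
    exact h10
  rw [← hI, ← hw, le_div_iff₀ hI0]
  by_contra hcon
  rw [not_le] at hcon
  have hlim : Tendsto (fun η : ℝ => kDens n k * (I * (1 - η))) (𝓝[>] 0)
      (𝓝 (kDens n k * (I * (1 - 0)))) :=
    (Continuous.tendsto (by fun_prop) _).mono_left nhdsWithin_le_nhds
  rw [sub_zero, mul_one] at hlim
  have h1 := hlim.eventually (lt_mem_nhds hcon)
  have h2 : ∀ᶠ η : ℝ in 𝓝[>] 0, η < 1 := nhdsWithin_le_nhds (gt_mem_nhds one_pos)
  obtain ⟨η, h3, h4, h5⟩ := (h1.and (h2.and self_mem_nhdsWithin)).exists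
  exact absurd (key η h5 h4) (not_le.2 h3)

end Pool.Agent.Y509.KP
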