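import Mathlib
import Pool.Agent.Y509.KP.Bar2
import Pool.Agent.Y509.DF.G5
import Pool.Agent.TH41.LP.VOL

/-!
Pseudo-packings of exponential level with many points.
-/

set_option autoImplicit false

open MeasureTheory Filter Topology

open scoped FourierTransform ENNReal

namespace Pool.Agent.Y509.KP

open Pool.Agent.Y570.KP

variable {d : ℕ}

lemma yy_single {X : Type} [Fintype X] [DecidableEq X] {G : X → X → ℝ} {ρ : ℝ} (x : X) :
    yy ρ G {x} = ρ := by
  unfold yy pr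
  simp

lemma yy_zero {X : Type} [Fintype X] [DecidableEq X] {G : X → X → ℝ} {ρ : ℝ} {S : Finset X}
    {u v : X} (hu : u ∈ S) (hv : v ∈ S) (huv : u ≠ v) (h : G u v = 0) : yy ρ G S = 0 := by
  unfold yy pr
  have h1 : (u, v) ∈ S.offDiag := by
    rw [Finset.mem_offDiag]
    exact ⟨hu, hv, huv⟩
  rw [Finset.prod_eq_zero h1, mul_zero]
  simp [h]

theorem barrier_one (hd : 0 < d) {ε c : ℝ} (hε : 0 < ε) (hc : 0 < c) {v : E d → ℝ}
    (hv : Dual d ε c v)
    (hvol : (volume (Metric.ball (0 : E d) (√d / Real.pi))).toReal ≤ Real.exp d)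
    {Λ : Set (E d)} (hΛ : MeasurableSet Λ) (hb : Bornology.IsBounded Λ) {k : ℕ}
    (hk : (k : ℝ) ≤ Real.exp (c * d)) :
    ∃ X : Finset (E d), (X : Set (E d)) ⊆ Λ ∧ ∃ y : Finset X → ℝ, PPack d k X y ∧
      (√d / Real.pi * Real.exp (-ε)) ^ d / 60 * volume.real Λ ≤ ∑ x, y {x} := by
  classical
  have hdR : (0 : ℝ) < d := by exact_mod_cast hd
  have hpi := Real.pi_pos
  obtain ⟨R, hR⟩ : ∃ R : ℝ, R = √d / Real.pi * Real.exp (-ε) := ⟨_, rfl⟩
  have hR0 : 0 < R := by rw [hR]; positivity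
  have hRd : 0 < R ^ d := by positivity
  obtain ⟨B, hB0, hB⟩ : ∃ B : ℝ, 0 ≤ B ∧ Λ ⊆ Metric.closedBall 0 B := by
    obtain ⟨B, hB⟩ := hb.subset_closedBall 0
    exact ⟨max B 0, le_max_right _ _, hB.trans (Metric.closedBall_subset_closedBall (le_max_left _ _))⟩
  obtain ⟨W, hW⟩ : ∃ W : ℝ, W = volume.real (Metric.closedBall (0 : E d) (B + 1)) := ⟨_, rfl⟩
  have hW0 : 0 ≤ W := by rw [hW]; exact measureReal_nonneg
  obtain ⟨C3, hC3⟩ : ∃ C : ℝ, C = 9.5 + 1.8 * (R ^ d * W) := ⟨_, rfl⟩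
  have hC30 : 0 < C3 := by rw [hC3]; positivity
  obtain ⟨κ, hκ⟩ : ∃ κ : ℝ, κ = 5 / (2 ^ k * R ^ d * C3) := ⟨_, rfl⟩
  have hκ0 : 0 < κ := by rw [hκ]; positivity
  obtain ⟨V1, hV1⟩ : ∃ V1 : ℝ, V1 = volume.real (Metric.ball (0 : E d) 1) := ⟨_, rfl⟩
  have hV10 : 0 ≤ V1 := by rw [hV1]; exact measureReal_nonneg
  -- the choice of `δ`
  obtain ⟨δ, hδ0, hδε, hδd, hδ1, hδκ⟩ : ∃ δ : ℝ, 0 < δ ∧ 9 * δ ≤ ε ∧ 8 * d * δ ≤ 1 ∧ 2 * δ ≤ 1 ∧
      2 * δ * V1 ≤ κ := by
    refine ⟨min (min (ε / 9) (1 / (8 * d))) (min (1 / 2) (κ / (2 * V1 + 1))), by positivity,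
      ?_, ?_, ?_, ?_⟩
    · have := (min_le_left (min (ε / 9) (1 / (8 * (d : ℝ)))) (min (1 / 2) (κ / (2 * V1 + 1)))).trans
        (min_le_left _ _)
      linarith
    · have := (min_le_left (min (ε / 9) (1 / (8 * (d : ℝ)))) (min (1 / 2) (κ / (2 * V1 + 1)))).trans
        (min_le_right _ _)
      rw [le_div_iff₀ (by positivity)] at this
      linarith
    · have := (min_le_right (min (ε / 9) (1 / (8 * (d : ℝ)))) (min (1 / 2) (κ / (2 * V1 + 1)))).trans
        (min_le_left _ _)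
      linarith
    · have := (min_le_right (min (ε / 9) (1 / (8 * (d : ℝ)))) (min (1 / 2) (κ / (2 * V1 + 1)))).trans
        (min_le_right _ _)
      have h1 := mul_le_mul_of_nonneg_right this (show 0 ≤ 2 * V1 + 1 by positivity)
      rw [div_mul_cancel₀ _ (by positivity)] at h1
      have h2 : 0 < min (min (ε / 9) (1 / (8 * (d : ℝ)))) (min (1 / 2) (κ / (2 * V1 + 1))) := by
        positivity
      nlinarith
  obtain ⟨X, F, hXΛ, hFm, hF0, hFt, hFδ, hdisj, hcard⟩ := exists_grid hΛ hb hδ0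
  obtain ⟨s, hs⟩ : ∃ s : ℝ, s = R / (1 + 4 * δ) := ⟨_, rfl⟩
  have hs0 : 0 < s := by rw [hs]; positivity
  have hsd : 0 < s ^ d := by positivity
  have hsR : s ≤ R := by
    rw [hs, div_le_iff₀ (by positivity)]
    nlinarith
  have hsdR : s ^ d ≤ R ^ d := pow_le_pow_left₀ hs0.le hsR d
  have hsdR2 : R ^ d / 2 ≤ s ^ d := by
    rw [hs, div_pow]
    apply div_le_div_of_nonneg_left hRd.le (by positivity)
    have h1 : (1 + 4 * δ) ^ d ≤ Real.exp (4 * δ) ^ d := by
      apply pow_le_pow_left₀ (by positivity)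
      have := Real.add_one_le_exp (4 * δ)
      linarith
    refine h1.trans ?_
    rw [← Real.exp_nat_mul]
    have h2 : (d : ℝ) * (4 * δ) ≤ 1 / 2 := by linarith
    calc Real.exp (d * (4 * δ)) ≤ Real.exp (1 / 2) := Real.exp_le_exp.2 h2
      _ ≤ 2 := by
        have h3 : Real.exp (1 / 2) ^ 2 = Real.exp 1 := by
          rw [← Real.exp_nat_mul]
          norm_num
        have h4 : Real.exp 1 < 2.7182818286 := Real.exp_one_lt_d9
        nlinarith [Real.exp_pos (1 / 2)]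
  obtain ⟨G, hG, hGz⟩ := good_kernel hd hc hv hvol hFm hF0 hδ0 hδε hFδ X hdisj
  rw [← hR, ← hs] at hG
  obtain ⟨f, hf⟩ : ∃ f : ℝ, f = volume.real F := ⟨_, rfl⟩
  rw [← hf] at hF0 hcard hG
  obtain ⟨L, hL⟩ : ∃ L : ℝ, L = 5 * ((s ^ d)⁻¹ / f) := ⟨_, rfl⟩
  have hL0 : 0 < L := by rw [hL]; positivity
  rw [← hL] at hG
  obtain ⟨ρ, hρ⟩ : ∃ ρ : ℝ, ρ = f * s ^ d / 30 := ⟨_, rfl⟩
  have hρ0 : 0 < ρ := by rw [hρ]; positivity
  have hLρ : L * ρ = 1 / 6 := by
    rw [hL, hρ]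
    field_simp
    norm_num
  obtain ⟨K, hK⟩ : ∃ K : ℝ, K = 1 + Real.exp (-(c * d)) := ⟨_, rfl⟩
  rw [← hK] at hG
  have hK1 : 1 ≤ K := by
    rw [hK]
    have := Real.exp_pos (-(c * d))
    linarith
  have hKk : K ^ k ≤ 2.72 := by
    have h1 : K ≤ Real.exp (Real.exp (-(c * d))) := by
      rw [hK]
      have := Real.add_one_le_exp (Real.exp (-(c * d)))
      linarith
    have h2 : K ^ k ≤ Real.exp (Real.exp (-(c * d))) ^ k := pow_le_pow_left₀ (by linarith) h1 k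
    rw [← Real.exp_nat_mul] at h2
    have h3 : (k : ℝ) * Real.exp (-(c * d)) ≤ 1 := by
      have h4 := mul_le_mul_of_nonneg_right hk (Real.exp_pos (-(c * d))).le
      rw [← Real.exp_add] at h4
      simpa using h4
    refine h2.trans ((Real.exp_le_exp.2 h3).trans ?_)
    have h4 : Real.exp 1 < 2.7182818286 := Real.exp_one_lt_d9
    linarith
  have hKk0 : 0 < K ^ k := by positivity
  have hK2k : K ^ (2 * k) ≤ 7.4 := by
    have : K ^ (2 * k) = (K ^ k) ^ 2 := by rw [← pow_mul, mul_comm]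
    rw [this]
    nlinarith
  have hK3k : K ^ (3 * k) ≤ 21 := by
    have : K ^ (3 * k) = (K ^ k) ^ 3 := by rw [← pow_mul, mul_comm]
    rw [this]
    calc (K ^ k) ^ 3 ≤ 2.72 ^ 3 := pow_le_pow_left₀ hKk0.le hKk 3
      _ ≤ 21 := by norm_num
  -- the volume of the cell
  have hfκ : f ≤ κ := by
    refine le_trans ?_ hδκ
    have h1 : f ≤ volume.real (Metric.ball (0 : E d) (2 * δ)) := by
      rw [hf]
      refine measureReal_mono (hFδ.trans ?_) measure_ball_lt_top.ne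
      exact Metric.closedBall_subset_ball (by linarith)
    have h2 := ball_scale (d := d) (r := 1) (show 0 < 2 * δ by positivity)
    rw [mul_one] at h2
    rw [h2, ← hV1] at h1
    refine h1.trans ?_
    refine mul_le_mul_of_nonneg_right ?_ hV10
    calc (2 * δ) ^ d ≤ (2 * δ) ^ 1 := pow_le_pow_of_le_one (by positivity) hδ1 hd
      _ = 2 * δ := pow_one _
  -- the number of points
  have hXW : (X.card : ℝ) * f ≤ W := by
    rw [hf, hW]
    refine count_le hFm X hdisj (isCompact_closedBall _ _).measure_lt_top.ne ?_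
    intro x hx a ha
    have h1 := mem_closedBall_zero_iff.1 (hB (hXΛ hx))
    have h2 := mem_closedBall_zero_iff.1 (hFδ ha)
    rw [mem_closedBall_zero_iff]
    have h3 := norm_add_le x a
    linarith
  have hcardX : Fintype.card X = X.card := Fintype.card_coe X
  have hS : Small2 K L ρ (Fintype.card X) k := by
    refine ⟨hK1, hL0, hρ0, ?_, ?_⟩
    · calc L * (ρ * K ^ k) = 1 / 6 * K ^ k := by rw [← mul_assoc, hLρ]
        _ ≤ 1 / 6 * 2.72 := by gcongr
        _ ≤ 1 / 2 := by norm_num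
    · rw [hcardX]
      have h1 : ρ * X.card ≤ R ^ d * W / 30 := by
        have h2 : ρ * X.card = s ^ d * (X.card * f) / 30 := by rw [hρ]; ring
        rw [h2]
        have h3 : s ^ d * (X.card * f) ≤ R ^ d * W :=
          mul_le_mul hsdR hXW (by positivity) hRd.le
        linarith
      have h4 : 2 * (ρ * X.card * K ^ (3 * k)) ≤ 2 * (R ^ d * W / 30 * 21) := by
        refine mul_le_mul_of_nonneg_left ?_ (by norm_num)
        exact mul_le_mul h1 hK3k (by positivity) (by positivity)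
      have h5 : L * (ρ * K ^ (2 * k)) * K ^ k ≤ 3.4 := by
        have h6 : L * (ρ * K ^ (2 * k)) * K ^ k = 1 / 6 * (K ^ (2 * k) * K ^ k) := by
          rw [← mul_assoc, hLρ]
          ring
        rw [h6]
        have h7 : K ^ (2 * k) * K ^ k ≤ 7.4 * 2.72 :=
          mul_le_mul hK2k hKk (by positivity) (by norm_num)
        linarith
      have h6 : 2 + (2 * (ρ * X.card * K ^ (3 * k)) + K ^ k + L * (ρ * K ^ (2 * k)) * K ^ k) ≤
          C3 := by
        rw [hC3]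
        have : 0 ≤ R ^ d * W := by positivity
        linarith
      have h7 : ρ * K ^ k ≤ κ * R ^ d / 30 * 2.72 := by
        refine mul_le_mul ?_ hKk hKk0.le (by positivity)
        rw [hρ]
        refine div_le_div_of_nonneg_right ?_ (by norm_num)
        exact mul_le_mul hfκ hsdR hsd.le hκ0.le
      calc 2 ^ k * (ρ * K ^ k) * (2 + (2 * (ρ * X.card * K ^ (3 * k)) + K ^ k +
            L * (ρ * K ^ (2 * k)) * K ^ k))
          ≤ 2 ^ k * (κ * R ^ d / 30 * 2.72) * C3 := by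
            refine mul_le_mul (mul_le_mul_of_nonneg_left h7 (by positivity)) h6 ?_ (by positivity)
            positivity
        _ = 5 * 2.72 / 30 := by
            rw [hκ]
            field_simp
        _ ≤ 1 / 2 := by norm_num
  refine ⟨X, hXΛ, yy ρ G, ⟨yy_empty, ?_, ?_, ?_⟩, ?_⟩
  · intro S u hu w hw huw hdist
    exact yy_zero hu hw huw (hGz u w hdist)
  · intro D F' h
    exact nonneg_all' hG hS D F' h
  · intro D F' h a
    exact psd_all' hG hS D F' (by omega) a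
  · rw [Finset.sum_congr rfl fun x _ => yy_single x, Finset.sum_const, Finset.card_univ, hcardX,
      nsmul_eq_mul, ← hR, hρ]
    have h1 : (X.card : ℝ) * (f * s ^ d / 30) = s ^ d / 30 * (X.card * f) := by ring
    rw [h1]
    refine mul_le_mul ?_ hcard measureReal_nonneg (by positivity)
    linarith

/-- **The barrier.** -/
theorem barrier (ε : ℝ) (hε : 0 < ε) (hε1 : ε ≤ 1) : ∀ᶠ d : ℕ in atTop, ∀ k : ℕ,
    (k : ℝ) ≤ Real.exp (ε ^ 6 / 3000000000000 * d) → ∀ Λ : Set (E d), MeasurableSet Λ → Bornology.IsBounded Λ →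
    ∀ B : ℝ, LBound d k Λ B →
      (Real.exp 1 / (2 * Real.pi)) ^ ((d : ℝ) / 2) * Real.exp (-ε * d) * volume.real Λ ≤
        B * volume.real (Metric.ball (0 : E d) (1 / 2)) := by
  obtain ⟨ε', hε'⟩ : ∃ e : ℝ, e = ε / 3 := ⟨_, rfl⟩
  have hε'0 : 0 < ε' := by rw [hε']; positivity
  have hε'1 : ε' ≤ 1 := by rw [hε']; linarith
  have hε'3 : ε' ≤ ε / 3 := hε'.le
  obtain ⟨c, hc', d0, hv⟩ := Pool.Agent.Y509.DF.vx ε' hε'0 hε'1
  have hc : 0 < c := lt_of_lt_of_le (by positivity) hc'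
  have hcε : ε ^ 6 / 3000000000000 ≤ c := by
    refine le_trans ?_ hc'
    have e1 : ε' ^ 6 = ε ^ 6 / 729 := by rw [hε']; ring
    have e2 : 0 < ε ^ 6 := by positivity
    rw [e1]
    linarith
  obtain ⟨hvol1, d1, hvol2⟩ := Pool.Agent.TH41.LP.VOLf.vol
  obtain ⟨d2, hd2⟩ := hvol1 ε' hε'0
  obtain ⟨d3, hd3⟩ := exists_nat_ge (Real.log 60 / ε')
  filter_upwards [eventually_ge_atTop d0, eventually_ge_atTop d1, eventually_ge_atTop d2,
    eventually_ge_atTop d3, eventually_gt_atTop 0] with d e0 e1 e2 e3 hd k hk Λ hΛ hb B hB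
  obtain ⟨v, v1, v2, v3, v4, v5⟩ := hv d e0
  obtain ⟨X, hX, y, hy, hval⟩ := barrier_one hd hε'0 hc (v := v) ⟨v1, v2, v3, v4, v5⟩
    (hvol2 d e1) hΛ hb (hk.trans (Real.exp_le_exp.2 (mul_le_mul_of_nonneg_right hcε
      (Nat.cast_nonneg d))))
  have h1 := hval.trans (hB X hX y hy)
  have h2 := hd2 d e2
  have hdR : (0 : ℝ) < d := by exact_mod_cast hd
  have h60 : Real.log 60 ≤ ε' * d := by
    have h3 : Real.log 60 / ε' ≤ d := hd3.trans (by exact_mod_cast e3)
    rw [div_le_iff₀ hε'0] at h3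
    linarith
  have h60' : (60 : ℝ) ≤ Real.exp (ε' * d) := by
    rw [← Real.log_le_iff_le_exp (by norm_num)]
    exact h60
  obtain ⟨b, hbdef⟩ : ∃ b : ℝ, b = volume.real (Metric.ball (0 : E d) (1 / 2)) := ⟨_, rfl⟩
  have hb0 : 0 ≤ b := by rw [hbdef]; exact measureReal_nonneg
  have h2' : (Real.exp 1 / (2 * Real.pi)) ^ ((d : ℝ) / 2) * Real.exp (-ε' * d) ≤
      (√d / Real.pi) ^ d * b := by
    rw [hbdef]
    exact h2
  rw [← hbdef]
  obtain ⟨Q, hQ⟩ : ∃ Q : ℝ, Q = (Real.exp 1 / (2 * Real.pi)) ^ ((d : ℝ) / 2) := ⟨_, rfl⟩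
  have hQ0 : 0 < Q := by
    rw [hQ]
    have := Real.pi_pos
    positivity
  rw [← hQ] at h2' ⊢
  have h3 : (√d / Real.pi * Real.exp (-ε')) ^ d = (√d / Real.pi) ^ d * Real.exp (-ε' * d) := by
    rw [mul_pow, ← Real.exp_nat_mul]
    congr 2
    ring
  rw [h3] at h1
  have h4 := mul_le_mul_of_nonneg_right h1 hb0
  refine le_trans ?_ h4
  have h5 : Q * Real.exp (-ε * d) ≤ (Q * Real.exp (-ε' * d)) * Real.exp (-ε' * d) / 60 := by
    rw [le_div_iff₀ (by norm_num)]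
    have h6 : Real.exp (-ε * d) ≤ Real.exp (-ε' * d) * Real.exp (-ε' * d) * Real.exp (-ε' * d) := by
      rw [← Real.exp_add, ← Real.exp_add, Real.exp_le_exp]
      nlinarith
    have h7 : Real.exp (-ε' * d) * 60 ≤ 1 := by
      have h8 : Real.exp (-ε' * d) * Real.exp (ε' * d) = 1 := by
        rw [← Real.exp_add]
        simp
      have h9 := mul_le_mul_of_nonneg_left h60' (Real.exp_pos (-ε' * d)).le
      linarith
    have e1 := Real.exp_pos (-ε' * d)
    calc Q * Real.exp (-ε * d) * 60 ≤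
        Q * (Real.exp (-ε' * d) * Real.exp (-ε' * d) * Real.exp (-ε' * d)) * 60 := by gcongr
      _ = Q * Real.exp (-ε' * d) * Real.exp (-ε' * d) * (Real.exp (-ε' * d) * 60) := by ring
      _ ≤ Q * Real.exp (-ε' * d) * Real.exp (-ε' * d) * 1 := by gcongr
      _ = _ := by ring
  have hΛ0 : 0 ≤ volume.real Λ := measureReal_nonneg
  calc Q * Real.exp (-ε * d) * volume.real Λ ≤
      (Q * Real.exp (-ε' * d)) * Real.exp (-ε' * d) / 60 * volume.real Λ :=
        mul_le_mul_of_nonneg_right h5 hΛ0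
    _ ≤ ((√d / Real.pi) ^ d * b) * Real.exp (-ε' * d) / 60 * volume.real Λ := by gcongr
    _ = _ := by ring

end Pool.Agent.Y509.KP
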